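import Pool.Agent.H518R3.RFun

/-! The escape lemma for the weighted sum. -/

namespace Pool.Agent.H518R3

open Set Topology Filter Metric

variable {X : Type*} [MetricSpace X]

/-- The weighted sum. -/
noncomputable def wsum (f0 : X → ℝ) (g : ℕ → X → ℝ) (x : X) : ℝ :=
  f0 x + ∑' j, (1 / 2 : ℝ) ^ (j + 1) * g j x

lemma summable_w : Summable fun j : ℕ => (1 / 2 : ℝ) ^ (j + 1) := by
  have := (summable_geometric_two).mul_left (1 / 2 : ℝ)
  refine this.congr fun j => ?_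
  rw [pow_succ]; ring

lemma tsum_w : ∑' j : ℕ, (1 / 2 : ℝ) ^ (j + 1) = 1 := by
  have h : ∀ j : ℕ, (1 / 2 : ℝ) ^ (j + 1) = (1 / 2) * (1 / 2) ^ j := fun j => by
    rw [pow_succ]; ring
  simp_rw [h]
  rw [tsum_mul_left, tsum_geometric_two]
  norm_num

lemma tsum_tail (n : ℕ) : ∑' j : ℕ, (1 / 2 : ℝ) ^ (j + n + 1) = (1 / 2) ^ n := by
  have h : ∀ j : ℕ, (1 / 2 : ℝ) ^ (j + n + 1) = (1 / 2) ^ n * (1 / 2) ^ (j + 1) := fun j => by
    rw [← pow_add]; congr 1; ring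
  simp_rw [h]
  rw [tsum_mul_left, tsum_w, mul_one]

variable {f0 : X → ℝ} {g : ℕ → X → ℝ}

lemma summable_wg (h0 : ∀ j x, 0 ≤ g j x) (h1 : ∀ j x, g j x ≤ 1) (x : X) :
    Summable fun j : ℕ => (1 / 2 : ℝ) ^ (j + 1) * g j x := by
  apply Summable.of_nonneg_of_le _ _ summable_w
  · intro j; exact mul_nonneg (by positivity) (h0 j x)
  · intro j; exact mul_le_of_le_one_right (by positivity) (h1 j x)

lemma continuous_wsum (hf0 : Continuous f0) (hg : ∀ j, Continuous (g j))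
    (h0 : ∀ j x, 0 ≤ g j x) (h1 : ∀ j x, g j x ≤ 1) : Continuous (wsum f0 g) := by
  unfold wsum
  apply hf0.add
  apply continuous_tsum (u := fun j : ℕ => (1 / 2 : ℝ) ^ (j + 1))
  · intro j; exact continuous_const.mul (hg j)
  · exact summable_w
  · intro j x
    rw [Real.norm_eq_abs, abs_of_nonneg (mul_nonneg (by positivity) (h0 j x))]
    exact mul_le_of_le_one_right (by positivity) (h1 j x)

lemma le_wsum (h0 : ∀ j x, 0 ≤ g j x) (h1 : ∀ j x, g j x ≤ 1) (n : ℕ) (x : X) :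
    f0 x + ∑ i ∈ Finset.range n, (1 / 2 : ℝ) ^ (i + 1) * g i x ≤ wsum f0 g x := by
  unfold wsum
  have := (summable_wg h0 h1 x).sum_le_tsum (Finset.range n)
    (fun i _ => mul_nonneg (by positivity) (h0 i x))
  linarith

lemma wsum_le (h0 : ∀ j x, 0 ≤ g j x) (h1 : ∀ j x, g j x ≤ 1) (n : ℕ) (x : X) :
    wsum f0 g x ≤ f0 x + ∑ i ∈ Finset.range n, (1 / 2 : ℝ) ^ (i + 1) * g i x + (1 / 2) ^ n := by
  unfold wsum
  have h2 := (summable_wg h0 h1 x).sum_add_tsum_nat_add n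
  have h3 : ∑' i : ℕ, (1 / 2 : ℝ) ^ (i + n + 1) * g (i + n) x ≤
      ∑' i : ℕ, (1 / 2 : ℝ) ^ (i + n + 1) := by
    apply Summable.tsum_le_tsum
    · intro i; exact mul_le_of_le_one_right (by positivity) (h1 _ x)
    · exact (summable_nat_add_iff (f := fun j : ℕ => (1 / 2 : ℝ) ^ (j + 1) * g j x) n).2
        (summable_wg h0 h1 x)
    · exact (summable_nat_add_iff (f := fun j : ℕ => (1 / 2 : ℝ) ^ (j + 1)) n).2 summable_w
  rw [tsum_tail] at h3
  linarith

/-- The joining property in the form in which it is used. -/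
def Joins (p : X) (g : X → ℝ) : Prop :=
  ∀ (B : Set X) (z : X) (a : ℝ), z ∉ connectedComponentIn Bᶜ p → (∀ q ∈ B, a ≤ g q) → a ≤ g z

theorem escape {p : X} (hf0 : Continuous f0) (hg : ∀ j, Continuous (g j))
    (h0 : ∀ j x, 0 ≤ g j x) (h1 : ∀ j x, g j x ≤ 1)
    (hf0J : Joins p f0) (hgJ : ∀ j, Joins p (g j))
    (hlow : ∀ y : X, ∀ δ : ℝ, 0 < δ → ∃ (j : ℕ) (c : ℝ) (C : Set X), 0 < c ∧ g j y = 0 ∧
      C ∈ 𝓝 y ∧ ∀ z, δ ≤ dist z y → z ∉ connectedComponentIn Cᶜ p → c ≤ g j z)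
    (y : X) (δ : ℝ) (hδ : 0 < δ) :
    ∃ (B : Set X) (κ : ℝ), B ∈ 𝓝 y ∧ 0 < κ ∧ ∀ z, δ ≤ dist z y →
      wsum f0 g z < wsum f0 g y + κ → z ∈ connectedComponentIn Bᶜ p := by
  obtain ⟨j, c, C, hc, hjy, hC, hlow⟩ := hlow y δ hδ
  set w : ℝ := (1 / 2 : ℝ) ^ (j + 1) with hw
  have hwpos : 0 < w := by positivity
  have hwc : 0 < w * c := mul_pos hwpos hc
  obtain ⟨n₀, hn₀⟩ := exists_pow_lt_of_lt_one (show (0 : ℝ) < w * c / 4 by positivity)
    (show (1 / 2 : ℝ) < 1 by norm_num)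
  set n := max n₀ (j + 1) with hn
  have hn1 : (1 / 2 : ℝ) ^ n < w * c / 4 :=
    (pow_le_pow_of_le_one (by norm_num) (by norm_num) (le_max_left _ _)).trans_lt hn₀
  have hjn : j < n := lt_of_lt_of_le (Nat.lt_succ_self j) (le_max_right _ _)
  set η := w * c / 8 with hη
  have hηpos : 0 < η := by positivity
  have hV0 : ∀ᶠ x in 𝓝 y, f0 y - η < f0 x :=
    hf0.continuousAt.eventually (lt_mem_nhds (by linarith))
  have hVi : ∀ᶠ x in 𝓝 y, ∀ i ∈ Finset.range n, g i y - η < g i x := by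
    rw [Filter.eventually_all_finset]
    intro i _
    exact (hg i).continuousAt.eventually (lt_mem_nhds (by linarith))
  set B : Set X := {x | (f0 y - η < f0 x ∧ ∀ i ∈ Finset.range n, g i y - η < g i x) ∧ x ∈ C}
    with hB
  have hBn : B ∈ 𝓝 y := (hV0.and hVi).and hC
  refine ⟨B, w * c / 2, hBn, by positivity, ?_⟩
  intro z hz hfz
  by_contra hzB
  have hzC : z ∉ connectedComponentIn Cᶜ p := by
    intro hzC
    apply hzB
    apply connectedComponentIn_mono p _ hzC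
    apply compl_subset_compl.2
    intro u hu
    exact hu.2
  have hcj : c ≤ g j z := hlow z hz hzC
  have hf0z : f0 y - η ≤ f0 z := hf0J B z _ hzB fun q hq => hq.1.1.le
  have hgz : ∀ i ∈ Finset.range n, g i y - η ≤ g i z := fun i hi =>
    hgJ i B z _ hzB fun q hq => (hq.1.2 i hi).le
  have e1 := le_wsum (f0 := f0) h0 h1 n z
  have e2 := wsum_le (f0 := f0) h0 h1 n y
  have e3 : ∑ i ∈ Finset.range n, ((1 / 2 : ℝ) ^ (i + 1) * g i y - (1 / 2 : ℝ) ^ (i + 1) * η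
        + if i = j then w * c else 0) ≤
      ∑ i ∈ Finset.range n, (1 / 2 : ℝ) ^ (i + 1) * g i z := by
    apply Finset.sum_le_sum
    intro i hi
    have hwi : (0 : ℝ) < (1 / 2 : ℝ) ^ (i + 1) := by positivity
    split_ifs with hij
    · subst hij
      rw [hjy]
      have : w * c ≤ (1 / 2 : ℝ) ^ (i + 1) * g i z := by
        rw [hw]; exact mul_le_mul_of_nonneg_left hcj hwi.le
      have h4 : 0 < (1 / 2 : ℝ) ^ (i + 1) * η := by positivity
      linarith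
    · have := mul_le_mul_of_nonneg_left (hgz i hi) hwi.le
      linarith
  rw [Finset.sum_add_distrib, Finset.sum_sub_distrib, Finset.sum_ite_eq' (Finset.range n) j,
    if_pos (Finset.mem_range.2 hjn), ← Finset.sum_mul] at e3
  have e4 : ∑ i ∈ Finset.range n, (1 / 2 : ℝ) ^ (i + 1) ≤ 1 := by
    have h5 := summable_w.sum_le_tsum (Finset.range n) (fun i _ => by positivity)
    rwa [tsum_w] at h5
  have e5 : (∑ i ∈ Finset.range n, (1 / 2 : ℝ) ^ (i + 1)) * η ≤ η :=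
    mul_le_of_le_one_left hηpos.le e4
  linarith

end Pool.Agent.H518R3
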