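import Mathlib

/-! The small inductive dimension, by recursion. -/

namespace Pool.Agent.H518R3

universe u

/-- `IndLT n X` says that the small inductive dimension of `X` is at most `n - 1`. -/
def IndLT : ℕ → ∀ (X : Type u) [TopologicalSpace X], Prop
  | 0, X, _ => IsEmpty X
  | n + 1, X, _ => ∀ (x : X) (V : Set X), IsOpen V → x ∈ V →
      ∃ U : Set X, IsOpen U ∧ x ∈ U ∧ U ⊆ V ∧ IndLT n (frontier U)

end Pool.Agent.H518R3
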