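import Pool.Agent.H41R2.PB.PLN

/-! Unimodality of one dimensional marginals of symmetric convex bodies: comparison with the
uniform distribution. -/

set_option autoImplicit false

open MeasureTheory Set
open scoped ENNReal Pointwise

namespace Pool.Agent.H518R3.LM

abbrev E (n : ℕ) := EuclideanSpace ℝ (Fin n)

/-- symmetric convex bodies -/
structure SymBody {n : ℕ} (K : Set (E n)) : Prop where
  cpt : IsCompact K
  conv : Convex ℝ K
  int : (interior K).Nonempty
  symm : ∀ x ∈ K, -x ∈ K

variable {n : ℕ} {K : Set (E n)}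

lemma SymBody.zero_mem (hK : SymBody K) : (0 : E n) ∈ K := by
  obtain ⟨x, hx⟩ := hK.int
  have h1 := interior_subset hx
  have h2 := hK.symm x h1
  have h3 := hK.conv h1 h2 (show (0 : ℝ) ≤ 1 / 2 by norm_num) (show (0 : ℝ) ≤ 1 / 2 by norm_num)
    (by norm_num)
  simpa using h3

lemma SymBody.vol_pos (hK : SymBody K) : 0 < volume K :=
  lt_of_lt_of_le (isOpen_interior.measure_pos volume hK.int) (measure_mono interior_subset)

lemma SymBody.vol_ne_top (hK : SymBody K) : volume K ≠ ∞ := hK.cpt.measure_ne_top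

/-- slab of `K` -/
def slab (K : Set (E n)) (y : E n) (a b : ℝ) : Set (E n) :=
  K ∩ {x | a ≤ inner ℝ x y ∧ inner ℝ x y ≤ b}

lemma slab_closed (y : E n) (a b : ℝ) :
    IsClosed {x : E n | a ≤ inner ℝ x y ∧ inner ℝ x y ≤ b} := by
  have hc : Continuous fun x : E n => inner ℝ x y := continuous_id.inner continuous_const
  exact (isClosed_le continuous_const hc).inter (isClosed_le hc continuous_const)

lemma slab_compact (hK : SymBody K) (y : E n) (a b : ℝ) : IsCompact (slab K y a b) :=
  hK.cpt.inter_right (slab_closed y a b)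

/-- consecutive slabs of the same width have decreasing volume -/
lemma slab_anti (hK : SymBody K) (y : E n) (w : ℝ) (j : ℕ) :
    volume (slab K y ((j + 1 : ℕ) * w) ((j + 2 : ℕ) * w)) ≤
      volume (slab K y (j * w) ((j + 1 : ℕ) * w)) := by
  set τ : ℝ := 1 / (2 * j + 3) with hτ
  have hd : (0 : ℝ) < 2 * j + 3 := by positivity
  have hτ0 : 0 < τ := by positivity
  have hτ1 : τ < 1 := by
    rw [hτ, div_lt_one hd]
    have : (0 : ℝ) ≤ j := by positivity
    linarith
  have hτe : τ * (2 * j + 3) = 1 := by
    rw [hτ]; field_simp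
  have hneg : volume (-slab K y ((j + 1 : ℕ) * w) ((j + 2 : ℕ) * w)) =
      volume (slab K y ((j + 1 : ℕ) * w) ((j + 2 : ℕ) * w)) := by
    rw [Measure.measure_neg]
  refine H41PB.PLN_two τ hτ0 hτ1 (slab K y ((j + 1 : ℕ) * w) ((j + 2 : ℕ) * w))
    (-slab K y ((j + 1 : ℕ) * w) ((j + 2 : ℕ) * w)) (slab K y (j * w) ((j + 1 : ℕ) * w))
    (slab_compact hK _ _ _) (slab_compact hK _ _ _).neg (slab_compact hK _ _ _) ?_ _ le_rfl
    hneg.ge
  intro x hx z hz
  obtain ⟨hxK, hx1, hx2⟩ := hx
  obtain ⟨hzK, hz1, hz2⟩ := hz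
  rw [inner_neg_left] at hz1 hz2
  have hzK' : z ∈ K := by
    have := hK.symm _ hzK
    rwa [neg_neg] at this
  refine ⟨hK.conv hxK hzK' (by linarith) hτ0.le (by ring), ?_, ?_⟩
  · show _ ≤ inner ℝ ((1 - τ) • x + τ • z) y
    rw [inner_add_left, real_inner_smul_left, real_inner_smul_left]
    push_cast at *
    have e1 := mul_le_mul_of_nonneg_left hx1 (by linarith : (0:ℝ) ≤ 1 - τ)
    have e2 := mul_le_mul_of_nonneg_left hz2 hτ0.le
    have e3 : (1 - τ) * ((j + 1) * w) - τ * ((j + 2) * w) = j * w := by
      have : (1 - τ) * ((j + 1) * w) - τ * ((j + 2) * w) = (j + 1) * w - (τ * (2 * j + 3)) * w := by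
        ring
      rw [this, hτe]; ring
    nlinarith
  · show inner ℝ ((1 - τ) • x + τ • z) y ≤ _
    rw [inner_add_left, real_inner_smul_left, real_inner_smul_left]
    push_cast at *
    have e1 := mul_le_mul_of_nonneg_left hx2 (by linarith : (0:ℝ) ≤ 1 - τ)
    have e2 := mul_le_mul_of_nonneg_left hz1 hτ0.le
    have e3 : (1 - τ) * ((j + 2) * w) - τ * ((j + 1) * w) = (j + 1) * w := by
      have : (1 - τ) * ((j + 2) * w) - τ * ((j + 1) * w) = (j + 2) * w - (τ * (2 * j + 3)) * w := by
        ring
      rw [this, hτe]; ring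
    nlinarith

lemma hyperplane_null {y : E n} (hy : y ≠ 0) (c : ℝ) : volume {x : E n | inner ℝ x y = c} = 0 := by
  set L : E n →ₗ[ℝ] ℝ := (innerₛₗ ℝ y) with hL
  have hLx : ∀ x, L x = inner ℝ x y := fun x => by
    rw [real_inner_comm]; rfl
  rcases eq_empty_or_nonempty {x : E n | inner ℝ x y = c} with h | ⟨x₀, hx₀⟩
  · rw [h]; exact measure_empty
  · have h0 : volume ((LinearMap.ker L : Submodule ℝ (E n)) : Set (E n)) = 0 := by
      apply Measure.addHaar_submodule
      intro htop
      have : y ∈ LinearMap.ker L := by rw [htop]; trivial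
      rw [LinearMap.mem_ker, hLx] at this
      exact hy (inner_self_eq_zero.1 this)
    have h1 : {x : E n | inner ℝ x y = c} =
        (fun x => x₀ + x) '' ((LinearMap.ker L : Submodule ℝ (E n)) : Set (E n)) := by
      ext x
      constructor
      · intro hx
        refine ⟨x - x₀, ?_, by simp⟩
        show L (x - x₀) = 0
        rw [map_sub, hLx, hLx, sub_eq_zero]
        exact (show inner ℝ x y = c from hx).trans (show inner ℝ x₀ y = c from hx₀).symm
      · rintro ⟨z, hz, rfl⟩
        show inner ℝ (x₀ + z) y = c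
        have hz' : L z = 0 := hz
        rw [hLx] at hz'
        rw [inner_add_left, hz', add_zero]
        exact hx₀
    rw [h1, image_add_left, measure_preimage_add]
    exact h0

/-- `∑_{j<k} a_j ≥ (k/N) ∑_{j<N} a_j` for an antitone sequence -/
lemma antitone_avg {a : ℕ → ℝ} (ha : ∀ j, a (j + 1) ≤ a j) {k N : ℕ} (hk : k ≤ N) :
    (k : ℝ) * ∑ j ∈ Finset.range N, a j ≤ (N : ℝ) * ∑ j ∈ Finset.range k, a j := by
  have hanti : Antitone a := antitone_nat_of_succ_le ha
  obtain ⟨m, rfl⟩ := Nat.exists_eq_add_of_le hk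
  rw [Finset.sum_range_add]
  have h1 : ∑ x ∈ Finset.range m, a (k + x) ≤ m * a k := by
    calc ∑ x ∈ Finset.range m, a (k + x) ≤ ∑ x ∈ Finset.range m, a k :=
          Finset.sum_le_sum fun x _ => hanti (Nat.le_add_right k x)
      _ = m * a k := by rw [Finset.sum_const, Finset.card_range, nsmul_eq_mul]
  have h2 : k * a k ≤ ∑ j ∈ Finset.range k, a j := by
    calc k * a k = ∑ x ∈ Finset.range k, a k := by
          rw [Finset.sum_const, Finset.card_range, nsmul_eq_mul]
      _ ≤ _ := Finset.sum_le_sum fun x hx => hanti (Finset.mem_range.1 hx).le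
  push_cast
  have hm : (0 : ℝ) ≤ m := by positivity
  have hk0 : (0 : ℝ) ≤ k := by positivity
  have h3 := mul_le_mul_of_nonneg_left h1 hk0
  have h4 := mul_le_mul_of_nonneg_left h2 hm
  nlinarith

/-- the central part, through multiples of `w` -/
lemma central_sum (hK : SymBody K) {y : E n} (hy : y ≠ 0) {w : ℝ} (hw : 0 < w) (k : ℕ) :
    volume.real (slab K y (-(k * w)) (k * w)) =
      2 * ∑ j ∈ Finset.range k, volume.real (slab K y (j * w) ((j + 1 : ℕ) * w)) := by
  induction k with
  | zero =>
    simp only [Nat.cast_zero, zero_mul, neg_zero, Finset.range_zero, Finset.sum_empty, mul_zero]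
    have : slab K y 0 0 ⊆ {x : E n | inner ℝ x y = 0} := fun x hx => le_antisymm hx.2.2 hx.2.1
    rw [Measure.real, measure_mono_null this (hyperplane_null hy 0)]
    rfl
  | succ k ih =>
    rw [Finset.sum_range_succ, mul_add, ← ih]
    set A := slab K y (-(k * w)) (k * w) with hA
    set B := slab K y (k * w) ((k + 1 : ℕ) * w) with hB
    have hkw : (0 : ℝ) ≤ k * w := by positivity
    have hBn : volume.real (-B) = volume.real B := by
      rw [Measure.real, Measure.measure_neg]; rfl
    have hBneg : -B = slab K y (-((k + 1 : ℕ) * w)) (-(k * w)) := by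
      ext x
      constructor
      · rintro ⟨h1, h2, h3⟩
        rw [inner_neg_left] at h2 h3
        refine ⟨?_, by linarith, by linarith⟩
        have := hK.symm _ h1
        rwa [neg_neg] at this
      · rintro ⟨h1, h2, h3⟩
        refine ⟨hK.symm _ h1, ?_, ?_⟩
        · show _ ≤ inner ℝ (-x) y
          rw [inner_neg_left]; linarith
        · show inner ℝ (-x) y ≤ _
          rw [inner_neg_left]; linarith
    have hkk : ((k + 1 : ℕ) : ℝ) * w = k * w + w := by push_cast; ring
    have hunion : slab K y (-((k + 1 : ℕ) * w)) ((k + 1 : ℕ) * w) = A ∪ (B ∪ -B) := by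
      rw [hBneg]
      ext x
      constructor
      · rintro ⟨h1, h2, h3⟩
        by_cases h4 : (k : ℝ) * w ≤ inner ℝ x y
        · exact Or.inr (Or.inl ⟨h1, h4, h3⟩)
        · by_cases h5 : inner ℝ x y ≤ -(k * w)
          · exact Or.inr (Or.inr ⟨h1, h2, h5⟩)
          · exact Or.inl ⟨h1, by linarith, by linarith⟩
      · rintro (⟨h1, h2, h3⟩ | ⟨h1, h2, h3⟩ | ⟨h1, h2, h3⟩)
        · exact ⟨h1, by linarith, by linarith⟩
        · exact ⟨h1, by linarith, h3⟩
        · exact ⟨h1, h2, by linarith⟩
    have hAm : MeasurableSet A := (slab_compact hK _ _ _).measurableSet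
    have hBm : MeasurableSet B := (slab_compact hK _ _ _).measurableSet
    have hBnm : MeasurableSet (-B) := by
      rw [hBneg]; exact (slab_compact hK _ _ _).measurableSet
    have hnull1 : volume (A ∩ (B ∪ -B)) = 0 := by
      have : A ∩ (B ∪ -B) ⊆ {x : E n | inner ℝ x y = k * w} ∪ {x : E n | inner ℝ x y = -(k * w)} := by
        rw [hBneg]
        rintro x ⟨⟨_, h2, h3⟩, ⟨_, h4, _⟩ | ⟨_, _, h4⟩⟩
        · exact Or.inl (le_antisymm h3 h4)
        · exact Or.inr (le_antisymm h4 h2)
      exact measure_mono_null this (measure_union_null (hyperplane_null hy _) (hyperplane_null hy _))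
    have hnull2 : volume (B ∩ -B) = 0 := by
      have : B ∩ -B ⊆ {x : E n | inner ℝ x y = k * w} := by
        rw [hBneg]
        rintro x ⟨⟨_, h2, h3⟩, ⟨_, _, h4⟩⟩
        exact le_antisymm (by linarith) h2
      exact measure_mono_null this (hyperplane_null hy _)
    have hfA : volume A ≠ ∞ := (slab_compact hK _ _ _).measure_ne_top
    have hfB : volume B ≠ ∞ := (slab_compact hK _ _ _).measure_ne_top
    have hfBn : volume (-B) ≠ ∞ := by rw [Measure.measure_neg]; exact hfB
    have e1 : volume (A ∪ (B ∪ -B)) = volume A + volume (B ∪ -B) :=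
      measure_union₀ (hBm.union hBnm).nullMeasurableSet hnull1
    have e2 : volume (B ∪ -B) = volume B + volume (-B) :=
      measure_union₀ hBnm.nullMeasurableSet hnull2
    rw [hunion, Measure.real, e1, e2, ENNReal.toReal_add hfA (ENNReal.add_ne_top.2 ⟨hfB, hfBn⟩),
      ENNReal.toReal_add hfB hfBn]
    have e3 : (volume (-B)).toReal = (volume B).toReal := hBn
    rw [e3]
    simp only [Measure.real]
    ring

/-- central parts of a symmetric convex body are large -/
lemma central (hK : SymBody K) {y : E n} (hy : y ≠ 0) {h : ℝ} (hh : 0 < h)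
    (hb : ∀ x ∈ K, |inner ℝ x y| ≤ h) {t : ℝ} (ht0 : 0 ≤ t) (hth : t ≤ h) :
    t / h * volume.real K ≤ volume.real (slab K y (-t) t) := by
  have hfin : volume (slab K y (-t) t) ≠ ∞ := (slab_compact hK _ _ _).measure_ne_top
  have key : ∀ N : ℕ, 0 < N →
      (t / h - 1 / N) * volume.real K ≤ volume.real (slab K y (-t) t) := by
    intro N hN
    have hNr : (0 : ℝ) < N := by exact_mod_cast hN
    set w := h / N with hw
    have hwpos : 0 < w := by positivity
    set k := ⌊t / w⌋₊ with hk
    have htw : 0 ≤ t / w := by positivity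
    have hk1 : (k : ℝ) ≤ t / w := Nat.floor_le htw
    have hk2 : t / w < k + 1 := Nat.lt_floor_add_one _
    have hkN : k ≤ N := by
      have : t / w ≤ N := by
        rw [hw, div_div_eq_mul_div, div_le_iff₀ hh]
        nlinarith
      have h2 : (k : ℝ) ≤ N := hk1.trans this
      exact_mod_cast h2
    have hkw : (k : ℝ) * w ≤ t := by
      rw [le_div_iff₀ hwpos] at hk1; exact hk1
    have hNw : (N : ℝ) * w = h := by rw [hw]; field_simp
    have e1 := central_sum hK hy hwpos k
    have e2 := central_sum hK hy hwpos N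
    have hKe : slab K y (-(N * w)) (N * w) = K := by
      rw [hNw]
      ext x
      constructor
      · exact fun hx => hx.1
      · exact fun hx => ⟨hx, (abs_le.1 (hb x hx)).1, (abs_le.1 (hb x hx)).2⟩
    rw [hKe] at e2
    have e3 := antitone_avg (a := fun j => volume.real (slab K y (j * w) ((j + 1 : ℕ) * w)))
      (fun j => by
        have := slab_anti hK y w j
        exact ENNReal.toReal_mono (slab_compact hK _ _ _).measure_ne_top this) hkN
    have e4 : (k : ℝ) * volume.real K ≤ N * volume.real (slab K y (-(k * w)) (k * w)) := by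
      rw [e1, e2]; linarith
    have e5 : volume.real (slab K y (-(k * w)) (k * w)) ≤ volume.real (slab K y (-t) t) := by
      apply ENNReal.toReal_mono hfin
      apply measure_mono
      rintro x ⟨h1, h2, h3⟩
      exact ⟨h1, by linarith, by linarith⟩
    have e6 : (t / h - 1 / N) ≤ k / N := by
      rw [hw] at hk2
      have : t / (h / N) = t / h * N := by field_simp
      rw [this] at hk2
      rw [le_div_iff₀ hNr, sub_mul, one_div, inv_mul_cancel₀ hNr.ne']
      linarith
    have hV : 0 ≤ volume.real K := measureReal_nonneg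
    calc (t / h - 1 / N) * volume.real K ≤ k / N * volume.real K :=
          mul_le_mul_of_nonneg_right e6 hV
      _ = (k * volume.real K) / N := by ring
      _ ≤ (N * volume.real (slab K y (-(k * w)) (k * w))) / N := by gcongr
      _ = volume.real (slab K y (-(k * w)) (k * w)) := by field_simp
      _ ≤ _ := e5
  have hlim : Filter.Tendsto (fun N : ℕ => (t / h - 1 / (N : ℝ)) * volume.real K) Filter.atTop
      (nhds ((t / h - 0) * volume.real K)) := by
    apply Filter.Tendsto.mul_const
    exact tendsto_const_nhds.sub tendsto_one_div_atTop_nhds_zero_nat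
  rw [sub_zero] at hlim
  refine le_of_tendsto hlim ?_
  filter_upwards [Filter.eventually_gt_atTop 0] with N hN
  exact key N hN

end Pool.Agent.H518R3.LM
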