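import Pool.Agent.H518R3.LM1

/-! The exponential moments of one dimensional marginals of symmetric convex bodies are at most
those of the uniform distribution. -/

set_option autoImplicit false

open MeasureTheory Set
open scoped ENNReal Pointwise

namespace Pool.Agent.H518R3.LM

variable {n : ℕ} {K : Set (E n)}

lemma cont_inner (y : E n) : Continuous fun x : E n => inner ℝ x y :=
  continuous_id.inner continuous_const

lemma tail (hK : SymBody K) {y : E n} (hy : y ≠ 0) {h : ℝ} (hh : 0 < h)
    (hb : ∀ x ∈ K, |inner ℝ x y| ≤ h) {t : ℝ} (ht0 : 0 < t) :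
    (volume.restrict K) {x | t < |inner ℝ x y|} ≤
      (Ioc 0 h).indicator (fun t => ENNReal.ofReal (volume.real K * (1 - t / h))) t := by
  have hKm : MeasurableSet K := hK.cpt.measurableSet
  have hcont : Continuous fun x : E n => |inner ℝ x y| := (cont_inner y).abs
  have hm : MeasurableSet {x : E n | t < |inner ℝ x y|} :=
    measurableSet_lt measurable_const hcont.measurable
  rw [Measure.restrict_apply hm]
  by_cases hth : t ≤ h
  · rw [indicator_of_mem (show t ∈ Ioc 0 h from ⟨ht0, hth⟩)]
    have hS : slab K y (-t) t ⊆ K := inter_subset_left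
    have hSm : MeasurableSet (slab K y (-t) t) := (slab_compact hK _ _ _).measurableSet
    have e1 : {x : E n | t < |inner ℝ x y|} ∩ K = K \ slab K y (-t) t := by
      ext x
      constructor
      · rintro ⟨h1, h2⟩
        refine ⟨h2, fun h3 => ?_⟩
        have : |inner ℝ x y| ≤ t := abs_le.2 h3.2
        exact absurd h1 (not_lt.2 this)
      · rintro ⟨h1, h2⟩
        refine ⟨?_, h1⟩
        by_contra h3
        exact h2 ⟨h1, abs_le.1 (not_lt.1 h3)⟩
    rw [e1, measure_sdiff hS hSm.nullMeasurableSet (slab_compact hK _ _ _).measure_ne_top]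
    have e2 := central hK hy hh hb ht0.le hth
    have e3 : volume K = ENNReal.ofReal (volume.real K) := by
      rw [Measure.real, ENNReal.ofReal_toReal hK.vol_ne_top]
    have e4 : volume (slab K y (-t) t) = ENNReal.ofReal (volume.real (slab K y (-t) t)) := by
      rw [Measure.real, ENNReal.ofReal_toReal (slab_compact hK _ _ _).measure_ne_top]
    rw [e3, e4, ← ENNReal.ofReal_sub _ measureReal_nonneg]
    apply ENNReal.ofReal_le_ofReal
    have : volume.real K * (1 - t / h) = volume.real K - t / h * volume.real K := by ring
    rw [this]
    linarith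
  · have : {x : E n | t < |inner ℝ x y|} ∩ K = ∅ := by
      rw [eq_empty_iff_forall_notMem]
      rintro x ⟨h1, h2⟩
      have h1' : t < |inner ℝ x y| := h1
      have := hb x h2
      linarith
    rw [this, measure_empty]
    exact bot_le

lemma int_cosh (hK : SymBody K) {y : E n} (hy : y ≠ 0) {h : ℝ} (hh : 0 < h)
    (hb : ∀ x ∈ K, |inner ℝ x y| ≤ h) {p : ℝ} (hp : 0 < p) :
    ∫ x in K, (Real.cosh (p * inner ℝ x y) - 1) ≤
      volume.real K * (Real.sinh (p * h) / (p * h) - 1) := by
  have hcosh : ∀ t : ℝ, 0 ≤ Real.cosh t - 1 := fun t => by linarith [Real.one_le_cosh t]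
  have hcont : Continuous fun x : E n => |inner ℝ x y| := (cont_inner y).abs
  have hgc : Continuous fun t : ℝ => p * Real.sinh (p * t) := by fun_prop
  have hder : ∀ t : ℝ, HasDerivAt (fun t => Real.cosh (p * t)) (p * Real.sinh (p * t)) t := by
    intro t
    have := ((hasDerivAt_id t).const_mul p).cosh
    simpa [mul_comm] using this
  have hint : ∀ s : ℝ, ∫ t in (0 : ℝ)..s, p * Real.sinh (p * t) = Real.cosh (p * s) - 1 := by
    intro s
    rw [intervalIntegral.integral_eq_sub_of_hasDerivAt (fun t _ => hder t)
      (hgc.intervalIntegrable _ _)]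
    simp
  have hlc := lintegral_comp_eq_lintegral_meas_lt_mul (volume.restrict K)
    (f := fun x : E n => |inner ℝ x y|) (g := fun t => p * Real.sinh (p * t))
    (Filter.Eventually.of_forall fun x => abs_nonneg _) hcont.measurable.aemeasurable
    (fun t _ => hgc.intervalIntegrable _ _)
    (by
      filter_upwards [ae_restrict_mem measurableSet_Ioi] with t ht
      have ht' : 0 < t := ht
      have : 0 ≤ Real.sinh (p * t) := Real.sinh_nonneg_iff.2 (by positivity)
      positivity)
  have e1 : ∀ x : E n, ∫ t in (0 : ℝ)..|inner ℝ x y|, p * Real.sinh (p * t) =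
      Real.cosh (p * inner ℝ x y) - 1 := by
    intro x
    rw [hint]
    congr 1
    rw [← Real.cosh_abs (p * inner ℝ x y), abs_mul, abs_of_pos hp]
  simp only [e1] at hlc
  -- the upper bound
  have hub : ∫⁻ x in K, ENNReal.ofReal (Real.cosh (p * inner ℝ x y) - 1) ≤
      ENNReal.ofReal (volume.real K * (Real.sinh (p * h) / (p * h) - 1)) := by
    rw [hlc]
    have hV : 0 ≤ volume.real K := measureReal_nonneg
    calc ∫⁻ t in Ioi (0 : ℝ), (volume.restrict K) {x | t < |inner ℝ x y|} *
          ENNReal.ofReal (p * Real.sinh (p * t))
        ≤ ∫⁻ t in Ioi (0 : ℝ), (Ioc 0 h).indicator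
          (fun t => ENNReal.ofReal (volume.real K * (1 - t / h) * (p * Real.sinh (p * t)))) t := by
          apply setLIntegral_mono' measurableSet_Ioi
          intro t ht
          have h1 := tail hK hy hh hb (show 0 < t from ht)
          by_cases hth : t ∈ Ioc 0 h
          · rw [indicator_of_mem hth] at h1 ⊢
            have h2 : 0 ≤ 1 - t / h := by
              rw [sub_nonneg, div_le_one hh]; exact hth.2
            rw [ENNReal.ofReal_mul (mul_nonneg hV h2)]
            gcongr
          · rw [indicator_of_notMem hth] at h1 ⊢
            rw [nonpos_iff_eq_zero.1 h1, zero_mul]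
      _ ≤ ∫⁻ t, (Ioc 0 h).indicator
          (fun t => ENNReal.ofReal (volume.real K * (1 - t / h) * (p * Real.sinh (p * t)))) t :=
          setLIntegral_le_lintegral _ _
      _ = ∫⁻ t in Ioc 0 h,
          ENNReal.ofReal (volume.real K * (1 - t / h) * (p * Real.sinh (p * t))) :=
          lintegral_indicator measurableSet_Ioc _
      _ = ENNReal.ofReal (∫ t in Ioc 0 h,
          volume.real K * (1 - t / h) * (p * Real.sinh (p * t))) := by
          rw [ofReal_integral_eq_lintegral_ofReal]
          · apply Continuous.integrableOn_Ioc
            fun_prop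
          · filter_upwards [ae_restrict_mem measurableSet_Ioc] with t ht
            have h2 : 0 ≤ 1 - t / h := by
              rw [sub_nonneg, div_le_one hh]; exact ht.2
            have h3 : 0 ≤ Real.sinh (p * t) :=
              Real.sinh_nonneg_iff.2 (mul_nonneg hp.le ht.1.le)
            show 0 ≤ _
            positivity
      _ = ENNReal.ofReal (volume.real K * (Real.sinh (p * h) / (p * h) - 1)) := by
          congr 1
          rw [← intervalIntegral.integral_of_le hh.le]
          have hF : ∀ t ∈ uIcc 0 h, HasDerivAt
              (fun t => volume.real K * ((1 - t / h) * Real.cosh (p * t) +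
                1 / (p * h) * Real.sinh (p * t)))
              (volume.real K * (1 - t / h) * (p * Real.sinh (p * t))) t := by
            intro t _
            have d1 : HasDerivAt (fun t : ℝ => 1 - t / h) (-(1 / h)) t := by
              have := ((hasDerivAt_id t).div_const h).const_sub 1
              simpa using this
            have d2 := d1.mul (hder t)
            have d3 : HasDerivAt (fun t => Real.sinh (p * t)) (p * Real.cosh (p * t)) t := by
              have := ((hasDerivAt_id t).const_mul p).sinh
              simpa [mul_comm] using this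
            have d4 := (d2.add (d3.const_mul (1 / (p * h)))).const_mul (volume.real K)
            refine d4.congr_deriv ?_
            have e : 1 / (p * h) * (p * Real.cosh (p * t)) = 1 / h * Real.cosh (p * t) := by
              field_simp
            rw [e]
            ring
          rw [intervalIntegral.integral_eq_sub_of_hasDerivAt hF
            (Continuous.intervalIntegrable (by fun_prop) _ _)]
          have : (1 : ℝ) - h / h = 0 := by rw [div_self hh.ne', sub_self]
          rw [this]
          simp only [zero_mul, zero_add, zero_div, sub_zero, mul_zero, Real.cosh_zero,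
            Real.sinh_zero, add_zero, mul_one]
          ring
  have hci : IntegrableOn (fun x : E n => Real.cosh (p * inner ℝ x y) - 1) K := by
    apply ContinuousOn.integrableOn_compact hK.cpt
    have := cont_inner y
    fun_prop
  have hV : 0 ≤ volume.real K := measureReal_nonneg
  have hnn : 0 ≤ volume.real K * (Real.sinh (p * h) / (p * h) - 1) := by
    have : 0 < p * h := by positivity
    have h2 : p * h ≤ Real.sinh (p * h) := Real.self_le_sinh_iff.2 this.le
    have h3 : 1 ≤ Real.sinh (p * h) / (p * h) := by rwa [le_div_iff₀ this, one_mul]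
    have h4 : 0 ≤ Real.sinh (p * h) / (p * h) - 1 := by linarith
    positivity
  rw [← ENNReal.ofReal_le_ofReal_iff hnn, ofReal_integral_eq_lintegral_ofReal hci
    (Filter.Eventually.of_forall fun x => hcosh _)]
  exact hub

/-- The exponential moment of `K` in direction `y` is at most that of the uniform distribution
on `[-h, h]`. -/
lemma int_exp (hK : SymBody K) {y : E n} (hy : y ≠ 0) {h : ℝ} (hh : 0 < h)
    (hb : ∀ x ∈ K, |inner ℝ x y| ≤ h) {p : ℝ} (hp : 0 < p) :
    ∫ x in K, Real.exp (p * inner ℝ x y) ≤ volume.real K * (Real.sinh (p * h) / (p * h)) := by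
  have hc := cont_inner y
  have hie : IntegrableOn (fun x : E n => Real.exp (p * inner ℝ x y)) K := by
    apply ContinuousOn.integrableOn_compact hK.cpt
    fun_prop
  have hie' : IntegrableOn (fun x : E n => Real.exp (-(p * inner ℝ x y))) K := by
    apply ContinuousOn.integrableOn_compact hK.cpt
    fun_prop
  have hneg : ∫ x in K, Real.exp (-(p * inner ℝ x y)) = ∫ x in K, Real.exp (p * inner ℝ x y) := by
    have hmp : MeasurePreserving (fun x : E n => -x) volume volume :=
      Measure.measurePreserving_neg volume
    have := hmp.setIntegral_preimage_emb (MeasurableEquiv.neg (E n)).measurableEmbedding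
      (fun x : E n => Real.exp (p * inner ℝ x y)) K
    have hpre : (fun x : E n => -x) ⁻¹' K = K := by
      ext x
      exact ⟨fun hx => by simpa using hK.symm _ hx, fun hx => hK.symm _ hx⟩
    rw [hpre] at this
    rw [← this]
    refine integral_congr_ae (Filter.Eventually.of_forall fun x => ?_)
    show Real.exp (-(p * inner ℝ x y)) = Real.exp (p * inner ℝ (-x) y)
    rw [inner_neg_left]
    congr 1
    ring
  have hcosh : ∫ x in K, Real.exp (p * inner ℝ x y) =
      ∫ x in K, ((Real.cosh (p * inner ℝ x y) - 1) + 1) := by
    have e1 : ∫ x in K, ((Real.cosh (p * inner ℝ x y) - 1) + 1) =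
        ∫ x in K, (1 / 2 * Real.exp (p * inner ℝ x y) + 1 / 2 * Real.exp (-(p * inner ℝ x y))) := by
      refine integral_congr_ae (Filter.Eventually.of_forall fun x => ?_)
      show (Real.cosh (p * inner ℝ x y) - 1) + 1 = _
      rw [Real.cosh_eq]
      ring
    rw [e1, integral_add (hie.const_mul _) (hie'.const_mul _), integral_const_mul,
      integral_const_mul, hneg]
    ring
  have hic : IntegrableOn (fun x : E n => Real.cosh (p * inner ℝ x y) - 1) K := by
    apply ContinuousOn.integrableOn_compact hK.cpt
    fun_prop
  have hi1 : IntegrableOn (fun _ : E n => (1 : ℝ)) K :=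
    continuousOn_const.integrableOn_compact hK.cpt
  rw [hcosh, integral_add hic hi1]
  have := int_cosh hK hy hh hb hp
  have h1 : ∫ _ in K, (1 : ℝ) = volume.real K := by simp
  rw [h1]
  linarith

end Pool.Agent.H518R3.LM
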