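import Pool.Agent.H518R3.LM2

/-! The support function of a symmetric convex body, integrals of functions of it. -/

set_option autoImplicit false

open MeasureTheory Set Filter
open scoped ENNReal Pointwise Topology

namespace Pool.Agent.H518R3.LM

variable {n : ℕ} {K : Set (E n)}

/-- classical support function -/
noncomputable def H (K : Set (E n)) (y : E n) : ℝ := ⨆ x : K, inner ℝ (x : E n) y

lemma SymBody.bdd (hK : SymBody K) (y : E n) :
    BddAbove (range fun x : K => inner ℝ (x : E n) y) := by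
  have h1 : BddAbove ((fun x : E n => inner ℝ x y) '' K) :=
    (hK.cpt.image (cont_inner y)).bddAbove
  obtain ⟨b, hb⟩ := h1
  exact ⟨b, by rintro _ ⟨x, rfl⟩; exact hb ⟨x, x.2, rfl⟩⟩

lemma SymBody.nonempty (hK : SymBody K) : Nonempty K := ⟨⟨0, hK.zero_mem⟩⟩

lemma le_H (hK : SymBody K) {x : E n} (hx : x ∈ K) (y : E n) : inner ℝ x y ≤ H K y :=
  le_ciSup (hK.bdd y) (⟨x, hx⟩ : K)

lemma H_le (hK : SymBody K) {y : E n} {c : ℝ} (h : ∀ x ∈ K, inner ℝ x y ≤ c) : H K y ≤ c := by
  have := hK.nonempty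
  exact ciSup_le fun x => h x x.2

lemma abs_le_H (hK : SymBody K) {x : E n} (hx : x ∈ K) (y : E n) : |inner ℝ x y| ≤ H K y := by
  rw [abs_le]
  have := le_H hK (hK.symm x hx) y
  rw [inner_neg_left] at this
  exact ⟨by linarith, le_H hK hx y⟩

lemma H_nonneg (hK : SymBody K) (y : E n) : 0 ≤ H K y := by
  have := le_H hK hK.zero_mem y
  rwa [inner_zero_left] at this

lemma H_zero (hK : SymBody K) : H K 0 = 0 :=
  le_antisymm (H_le hK fun x _ => by rw [inner_zero_right]) (H_nonneg hK 0)

lemma H_add (hK : SymBody K) (y z : E n) : H K (y + z) ≤ H K y + H K z := by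
  apply H_le hK
  intro x hx
  rw [inner_add_right]
  exact add_le_add (le_H hK hx y) (le_H hK hx z)

lemma H_neg (hK : SymBody K) (y : E n) : H K (-y) = H K y := by
  apply le_antisymm
  · apply H_le hK
    intro x hx
    have := le_H hK (hK.symm x hx) y
    rwa [inner_neg_left, ← inner_neg_right] at this
  · apply H_le hK
    intro x hx
    have := le_H hK (hK.symm x hx) (-y)
    rwa [inner_neg_neg] at this

lemma H_smul (hK : SymBody K) (r : ℝ) (y : E n) : H K (r • y) ≤ |r| * H K y := by
  apply H_le hK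
  intro x hx
  rw [inner_smul_right]
  calc r * inner ℝ x y ≤ |r * inner ℝ x y| := le_abs_self _
    _ = |r| * |inner ℝ x y| := abs_mul _ _
    _ ≤ |r| * H K y := mul_le_mul_of_nonneg_left (abs_le_H hK hx y) (abs_nonneg r)

lemma H_eq_zero (hK : SymBody K) {y : E n} (h : H K y = 0) : y = 0 := by
  obtain ⟨x, hx⟩ := hK.int
  by_contra hy
  obtain ⟨ε, hε, hball⟩ := Metric.mem_nhds_iff.1 (mem_interior_iff_mem_nhds.1 hx)
  have hny : 0 < ‖y‖ := norm_pos_iff.2 hy
  have h1 : x + (ε / 2 / ‖y‖) • y ∈ K := by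
    apply hball
    rw [Metric.mem_ball, dist_eq_norm, add_sub_cancel_left, norm_smul, Real.norm_of_nonneg
      (by positivity)]
    field_simp
    linarith
  have h2 := abs_le_H hK h1 y
  have h3 := abs_le_H hK (interior_subset hx) y
  rw [h] at h2 h3
  have h2' := abs_nonpos_iff.1 h2
  have h3' := abs_nonpos_iff.1 h3
  rw [inner_add_left, h3', zero_add, real_inner_smul_left, real_inner_self_eq_norm_sq] at h2'
  have : 0 < ε / 2 / ‖y‖ * ‖y‖ ^ 2 := by positivity
  linarith

lemma H_pos (hK : SymBody K) {y : E n} (hy : y ≠ 0) : 0 < H K y :=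
  lt_of_le_of_ne (H_nonneg hK y) fun h => hy (H_eq_zero hK h.symm)

lemma H_smul_pos (hK : SymBody K) {r : ℝ} (hr : 0 < r) (y : E n) : H K (r • y) = r * H K y := by
  apply le_antisymm
  · have := H_smul hK r y
    rwa [abs_of_pos hr] at this
  · have := H_smul hK r⁻¹ (r • y)
    rw [smul_smul, inv_mul_cancel₀ hr.ne', one_smul, abs_of_pos (inv_pos.2 hr)] at this
    calc r * H K y ≤ r * (r⁻¹ * H K (r • y)) := mul_le_mul_of_nonneg_left this hr.le
      _ = H K (r • y) := by rw [← mul_assoc, mul_inv_cancel₀ hr.ne', one_mul]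

lemma H_cont (hK : SymBody K) : Continuous (H K) := by
  obtain ⟨C, hC⟩ := hK.cpt.isBounded.exists_norm_le
  have hC0 : 0 ≤ C := (norm_nonneg _).trans (hC 0 hK.zero_mem)
  have hb : ∀ y, H K y ≤ C * ‖y‖ := fun y => H_le hK fun x hx =>
    (real_inner_le_norm x y).trans (mul_le_mul_of_nonneg_right (hC x hx) (norm_nonneg y))
  have : LipschitzWith (Real.toNNReal C) (H K) := by
    apply LipschitzWith.of_dist_le_mul
    intro y z
    rw [Real.dist_eq, dist_eq_norm, Real.coe_toNNReal _ hC0, abs_le]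
    constructor
    · have h1 := H_add hK (z - y) y
      rw [sub_add_cancel] at h1
      have h2 := hb (z - y)
      rw [← norm_neg (z - y), neg_sub] at h2
      linarith
    · have h1 := H_add hK (y - z) z
      rw [sub_add_cancel] at h1
      have h2 := hb (y - z)
      linarith
  exact this.continuous

/-- the polar body -/
def PB (K : Set (E n)) : Set (E n) := {y | ∀ x ∈ K, inner ℝ x y ≤ 1}

lemma PB_eq (hK : SymBody K) : PB K = {y | H K y ≤ 1} := by
  ext y
  exact ⟨fun h => H_le hK h, fun h x hx => (le_H hK hx y).trans h⟩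

lemma vol_lt [NeZero n] (hK : SymBody K) {R : ℝ} (hR : 0 < R) :
    volume {y | H K y < R} = ENNReal.ofReal (R ^ n) * volume (PB K) := by
  have : Nonempty (Fin n) := ⟨0⟩
  have : Nontrivial (E n) := inferInstance
  have h1 : {y : E n | H K y < R} = R • {y | H K y < 1} := by
    ext y
    rw [mem_smul_set_iff_inv_smul_mem₀ hR.ne']
    show H K y < R ↔ H K (R⁻¹ • y) < 1
    rw [H_smul_pos hK (inv_pos.2 hR), inv_mul_lt_iff₀ hR, mul_one]
  have h2 : volume {y : E n | H K y ≤ 1} = volume {y | H K y < 1} :=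
    MeasureTheory.measure_le_eq_lt volume (H_zero hK) (fun x => H_neg hK x) (H_add hK)
      (fun {x} hx => H_eq_zero hK hx) (fun r x => H_smul hK r x) 1
  rw [h1, Measure.addHaar_smul, PB_eq hK, h2, finrank_euclideanSpace, Fintype.card_fin,
    abs_of_pos (by positivity)]

end Pool.Agent.H518R3.LM
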