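import Pool.Agent.H518R3.LM3

/-! Radial integrals of decreasing functions of the support function. -/

set_option autoImplicit false

open MeasureTheory Set Filter
open scoped ENNReal Pointwise Topology

namespace Pool.Agent.H518R3.LM

variable {n : ℕ} {K : Set (E n)}

lemma int_pow (n : ℕ) [NeZero n] {R : ℝ} (hR : 0 ≤ R) :
    ∫⁻ r in Ioc (0 : ℝ) R, ENNReal.ofReal (n * r ^ (n - 1)) = ENNReal.ofReal (R ^ n) := by
  obtain ⟨m, rfl⟩ := Nat.exists_eq_succ_of_ne_zero (NeZero.ne n)
  rw [← ofReal_integral_eq_lintegral_ofReal]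
  · congr 1
    rw [← intervalIntegral.integral_of_le hR, intervalIntegral.integral_const_mul,
      Nat.succ_sub_one, integral_pow, zero_pow (Nat.succ_ne_zero m), sub_zero]
    push_cast
    field_simp
  · apply Continuous.integrableOn_Ioc
    fun_prop
  · filter_upwards [ae_restrict_mem measurableSet_Ioc] with t ht
    have := ht.1.le
    show 0 ≤ _
    positivity

lemma radial [NeZero n] (hK : SymBody K) {w : ℝ → ℝ} (hwm : Measurable w)
    (hw0 : ∀ r, 0 < r → 0 ≤ w r) (hanti : AntitoneOn w (Ioi 0))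
    (hlim : ∀ s : ℝ, 0 < s → ∃ R : ℝ, ∀ r, R < r → w r ≤ s) :
    volume (PB K) * ∫⁻ r in Ioi (0 : ℝ), ENNReal.ofReal (n * r ^ (n - 1) * w r) ≤
      ∫⁻ y, ENNReal.ofReal (w (H K y)) := by
  have : Nonempty (Fin n) := ⟨0⟩
  have : Nontrivial (E n) := inferInstance
  have hHc := H_cont hK
  have hne : ∀ᵐ y : E n, y ≠ 0 := by
    rw [ae_iff]
    simp
  set ν : Measure ℝ := (volume.restrict (Ioi 0)).withDensity
    (fun r => ENNReal.ofReal (n * r ^ (n - 1))) with hν
  have hdm : Measurable fun r : ℝ => ENNReal.ofReal (n * r ^ (n - 1)) := by fun_prop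
  have hpos : ∀ᵐ r ∂ν, 0 < r := by
    have h1 : ∀ᵐ r ∂(volume.restrict (Ioi (0 : ℝ))), 0 < r := ae_restrict_mem measurableSet_Ioi
    exact (withDensity_absolutelyContinuous _ _).ae_le h1
  have e1 : ∫⁻ r in Ioi (0 : ℝ), ENNReal.ofReal (n * r ^ (n - 1) * w r) =
      ∫⁻ r, ENNReal.ofReal (w r) ∂ν := by
    rw [hν, lintegral_withDensity_eq_lintegral_mul _ hdm hwm.ennreal_ofReal]
    apply setLIntegral_congr_fun measurableSet_Ioi
    intro r hr
    have hr' : 0 < r := hr
    show _ = ENNReal.ofReal _ * ENNReal.ofReal _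
    rw [← ENNReal.ofReal_mul (by positivity)]
  have e2 : ∫⁻ r, ENNReal.ofReal (w r) ∂ν = ∫⁻ s in Ioi (0 : ℝ), ν {r | s < w r} := by
    apply lintegral_eq_lintegral_meas_lt
    · filter_upwards [hpos] with r hr
      exact hw0 r hr
    · exact hwm.aemeasurable
  have e3 : ∫⁻ y, ENNReal.ofReal (w (H K y)) =
      ∫⁻ s in Ioi (0 : ℝ), volume {y : E n | s < w (H K y)} := by
    apply lintegral_eq_lintegral_meas_lt
    · filter_upwards [hne] with y hy
      exact hw0 _ (H_pos hK hy)
    · exact (hwm.comp hHc.measurable).aemeasurable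
  rw [e1, e2, e3, ← lintegral_const_mul' _ _ ?_]
  swap
  · rw [PB_eq hK]
    obtain ⟨x, hx⟩ := hK.int
    -- boundedness of the polar
    obtain ⟨ε, hε, hball⟩ := Metric.mem_nhds_iff.1 (mem_interior_iff_mem_nhds.1 hx)
    have hsub : {y : E n | H K y ≤ 1} ⊆ Metric.closedBall 0 (4 / ε) := by
      intro y hy
      rw [mem_closedBall_zero_iff]
      by_cases hy0 : y = 0
      · rw [hy0, norm_zero]; positivity
      have hny : 0 < ‖y‖ := norm_pos_iff.2 hy0
      have h1 : x + (ε / 2 / ‖y‖) • y ∈ K := by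
        apply hball
        rw [Metric.mem_ball, dist_eq_norm, add_sub_cancel_left, norm_smul, Real.norm_of_nonneg
          (by positivity)]
        field_simp
        linarith
      have h4 := (abs_le.1 ((abs_le_H hK h1 y).trans hy)).2
      have h5 := (abs_le.1 ((abs_le_H hK (interior_subset hx) y).trans hy)).1
      rw [inner_add_left, real_inner_smul_left, real_inner_self_eq_norm_sq] at h4
      have h6 : ε / 2 / ‖y‖ * ‖y‖ ^ 2 = ε / 2 * ‖y‖ := by field_simp
      rw [h6] at h4
      rw [le_div_iff₀ hε]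
      nlinarith
    exact ((measure_mono hsub).trans_lt measure_closedBall_lt_top).ne
  apply setLIntegral_mono' measurableSet_Ioi
  intro s hs
  have hs' : 0 < s := hs
  set A : Set ℝ := {r | 0 < r ∧ s < w r} with hA
  obtain ⟨R₀, hR₀⟩ := hlim s hs'
  have hbdd : BddAbove A := ⟨R₀, fun r hr => by
    by_contra h
    exact absurd (hR₀ r (not_le.1 h)) (not_le.2 hr.2)⟩
  rcases eq_empty_or_nonempty A with hAe | hAn
  · have : ν {r | s < w r} = 0 := by
      rw [measure_eq_zero_iff_ae_notMem]
      filter_upwards [hpos] with r hr h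
      have : r ∈ A := ⟨hr, h⟩
      rw [hAe] at this
      exact this
    rw [this, mul_zero]
    exact bot_le
  · set R := sSup A with hR
    obtain ⟨r₁, hr₁⟩ := hAn
    have hRpos : 0 < R := lt_of_lt_of_le hr₁.1 (le_csSup hbdd hr₁)
    have h1 : ν {r | s < w r} ≤ ENNReal.ofReal (R ^ n) := by
      calc ν {r | s < w r} ≤ ν (Ioc 0 R) := by
            apply measure_mono_ae
            filter_upwards [hpos] with r hr h
            exact ⟨hr, le_csSup hbdd (show r ∈ A from ⟨hr, h⟩)⟩
        _ = ∫⁻ r in Ioc 0 R, ENNReal.ofReal (n * r ^ (n - 1)) := by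
            rw [hν, withDensity_apply _ measurableSet_Ioc, Measure.restrict_restrict
              measurableSet_Ioc]
            congr 2
            exact inter_eq_left.2 fun r hr => hr.1
        _ = _ := int_pow n hRpos.le
    have h2 : volume {y : E n | H K y < R} ≤ volume {y : E n | s < w (H K y)} := by
      apply measure_mono_ae
      filter_upwards [hne] with y hy h
      have hHp := H_pos hK hy
      obtain ⟨r, hr, hlt⟩ := exists_lt_of_lt_csSup ⟨r₁, hr₁⟩ (show H K y < sSup A from h)
      exact lt_of_lt_of_le hr.2 (hanti hHp hr.1 hlt.le)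
    calc volume (PB K) * ν {r | s < w r} ≤ volume (PB K) * ENNReal.ofReal (R ^ n) := by gcongr
      _ = volume {y : E n | H K y < R} := by rw [vol_lt hK hRpos, mul_comm]
      _ ≤ _ := h2

end Pool.Agent.H518R3.LM
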