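import Mathlib

/-! Countability of the bad levels. -/

namespace Pool.Agent.H518R3

open Set Topology Filter Metric

variable {X : Type*} [MetricSpace X]

/-- The component of `y` in the strip of half width `ε` around its level. -/
def J (f : X → ℝ) (ε : ℝ) (y : X) : Set X :=
  connectedComponentIn (f ⁻¹' Ioo (f y - ε) (f y + ε)) y

lemma mem_J {f : X → ℝ} {ε : ℝ} (hε : 0 < ε) (y : X) : y ∈ J f ε y := by
  apply mem_connectedComponentIn
  constructor <;> linarith

lemma J_sub {f : X → ℝ} {ε : ℝ} {y x : X} (hx : x ∈ J f ε y) : |f x - f y| < ε := by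
  have h := connectedComponentIn_subset _ _ hx
  have h1 : f y - ε < f x := h.1
  have h2 : f x < f y + ε := h.2
  rw [abs_lt]
  constructor <;> linarith

/-- The scale sequence: a sequence of members of `Y` approaching `y`. -/
lemma exists_seq {Y : Set X} {y : X} {a : X → ℝ} (ha : ContinuousAt a y) (hay : a y = 0)
    (hpos : ∀ u ∈ Y, u ≠ y → 0 < a u)
    (hacc : ∀ V ∈ 𝓝 y, ∃ u ∈ Y, u ≠ y ∧ u ∈ V) {V : Set X} (hV : V ∈ 𝓝 y) :
    ∃ s : ℕ → X, (∀ n, s n ∈ Y ∧ s n ≠ y ∧ s n ∈ V) ∧ (∀ n, a (s (n + 1)) < a (s n) / 4) ∧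
      y ∈ closure (range s) := by
  have step : ∀ u : {u : X // u ∈ Y ∧ u ≠ y ∧ u ∈ V}, ∃ v : {u : X // u ∈ Y ∧ u ≠ y ∧ u ∈ V},
      a v < a u / 4 ∧ dist (v : X) y < dist (u : X) y / 2 := by
    rintro ⟨u, huY, huy, huV⟩
    have h1 : 0 < a u / 4 := by
      have := hpos u huY huy
      positivity
    have h2 : 0 < dist u y / 2 := by
      have := dist_pos.2 huy
      positivity
    have e1 : ∀ᶠ v in 𝓝 y, a v < a u / 4 := by
      apply ha.eventually (gt_mem_nhds _)
      rwa [hay]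
    have e2 : ∀ᶠ v in 𝓝 y, dist v y < dist u y / 2 := ball_mem_nhds y h2
    obtain ⟨v, hvY, hvy, hv⟩ := hacc _ ((e1.and e2).and hV)
    exact ⟨⟨v, hvY, hvy, hv.2⟩, hv.1.1, hv.1.2⟩
  choose F hF using step
  obtain ⟨u₀, hu₀Y, hu₀y, hu₀V⟩ := hacc V hV
  set u₁ : {u : X // u ∈ Y ∧ u ≠ y ∧ u ∈ V} := ⟨u₀, hu₀Y, hu₀y, hu₀V⟩ with hu₁
  refine ⟨fun n => (F^[n] u₁ : X), fun n => (F^[n] u₁).2, ?_, ?_⟩
  · intro n
    show a (F^[n + 1] u₁ : X) < _
    rw [Function.iterate_succ_apply']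
    exact (hF _).1
  · have hd : ∀ n : ℕ, dist (F^[n] u₁ : X) y ≤ dist u₀ y * (1 / 2) ^ n := by
      intro n
      induction n with
      | zero => simp [hu₁]
      | succ n ih =>
        rw [Function.iterate_succ_apply', pow_succ]
        have := (hF (F^[n] u₁)).2
        linarith
    rw [Metric.mem_closure_iff]
    intro ε hε
    have h0 : 0 < dist u₀ y := dist_pos.2 hu₀y
    obtain ⟨n, hn⟩ := exists_pow_lt_of_lt_one (div_pos hε h0) (show (1 / 2 : ℝ) < 1 by norm_num)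
    refine ⟨_, ⟨n, rfl⟩, ?_⟩
    rw [dist_comm]
    have h2 : dist u₀ y * (1 / 2) ^ n < ε := by
      rw [lt_div_iff₀ h0] at hn
      linarith
    exact (hd n).trans_lt h2

lemma le_of_lt_quarter {a : ℕ → ℝ} (hpos : ∀ n, 0 < a n) (h : ∀ n, a (n + 1) < a n / 4) :
    Antitone a := by
  apply antitone_nat_of_succ_le
  intro n
  have := h n
  have := hpos n
  linarith

/-- The value `a k / 2` is not within relative distance `1/4` of any `a j`. -/
lemma gap {a : ℕ → ℝ} (hpos : ∀ n, 0 < a n) (h : ∀ n, a (n + 1) < a n / 4) (j k : ℕ) :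
    ¬ |a k / 2 - a j| < a j / 4 := by
  intro hcon
  rw [abs_lt] at hcon
  obtain ⟨h1, h2⟩ := hcon
  have hk := hpos k
  rcases le_or_gt j k with hjk | hjk
  · have := le_of_lt_quarter hpos h hjk
    linarith
  · have h3 := le_of_lt_quarter hpos h (show k + 1 ≤ j from hjk)
    have h4 := h k
    linarith

theorem countable_bad [SecondCountableTopology X]
    (hlc : ∀ S : Set X, IsConnected S → LocallyConnectedSpace S)
    {f : X → ℝ} (hf : Continuous f) {p : X}
    (hesc : ∀ y : X, ∀ δ : ℝ, 0 < δ → ∃ (B : Set X) (κ : ℝ), B ∈ 𝓝 y ∧ 0 < κ ∧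
      ∀ z, δ ≤ dist z y → f z < f y + κ → z ∈ connectedComponentIn Bᶜ p)
    (δ : ℝ) (hδ : 0 < δ) :
    {t : ℝ | ∃ y, f y = t ∧ ∀ ε > 0, ∃ z ∈ J f ε y, f z = t ∧ δ ≤ dist z y}.Countable := by
  by_contra hunc
  set T := {t : ℝ | ∃ y, f y = t ∧ ∀ ε > 0, ∃ z ∈ J f ε y, f z = t ∧ δ ≤ dist z y} with hT
  have : Nonempty X := ⟨p⟩
  choose! yy hyy hbad using (fun t (ht : t ∈ T) => (ht : ∃ y, f y = t ∧ ∀ ε > 0,
    ∃ z ∈ J f ε y, f z = t ∧ δ ≤ dist z y))
  set Y : Set X := yy '' T with hY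
  have hinj : InjOn yy T := by
    intro t ht s hs hts
    rw [← hyy t ht, ← hyy s hs, hts]
  have hYunc : ¬ Y.Countable := by
    intro h
    exact hunc (Set.countable_of_injective_of_countable_image hinj h)
  have hinjY : ∀ u ∈ Y, ∀ v ∈ Y, f u = f v → u = v := by
    rintro _ ⟨t, ht, rfl⟩ _ ⟨s, hs, rfl⟩ huv
    rw [hyy t ht, hyy s hs] at huv
    rw [huv]
  have hbadY : ∀ u ∈ Y, ∀ ε > 0, ∃ z ∈ J f ε u, f z = f u ∧ δ ≤ dist z u := by
    rintro _ ⟨t, ht, rfl⟩ ε hε
    obtain ⟨z, hz, hfz, hd⟩ := hbad t ht ε hε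
    exact ⟨z, hz, by rw [hfz, hyy t ht], hd⟩
  -- a nonisolated point of `Y`
  have hacc : ∃ y ∈ Y, ∀ V ∈ 𝓝 y, ∃ u ∈ Y, u ≠ y ∧ u ∈ V := by
    by_contra hcon
    push Not at hcon
    apply hYunc
    have hdisc : DiscreteTopology Y := by
      rw [discreteTopology_iff_isOpen_singleton]
      rintro ⟨y, hy⟩
      obtain ⟨V, hV, hVy⟩ := hcon y hy
      rw [isOpen_singleton_iff_nhds_eq_pure]
      apply le_antisymm _ (pure_le_nhds _)
      rw [Filter.le_pure_iff]
      rw [nhds_subtype_eq_comap]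
      refine ⟨V, hV, ?_⟩
      rintro ⟨u, hu⟩ huV
      rw [mem_singleton_iff, Subtype.mk.injEq]
      by_contra hne
      exact hVy u hu hne huV
    have : Countable Y := by
      have := hdisc
      exact TopologicalSpace.separableSpace_iff_countable.1 inferInstance
    exact Set.countable_coe_iff.1 this
  obtain ⟨y, hyY, hacc⟩ := hacc
  obtain ⟨B, κ, hB, hκ, hesc⟩ := hesc y (δ / 2) (by positivity)
  set a : X → ℝ := fun x => |f x - f y| with ha
  have hac : Continuous a := (hf.sub continuous_const).abs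
  have hay : a y = 0 := by simp [ha]
  have hapos : ∀ u ∈ Y, u ≠ y → 0 < a u := by
    intro u hu huy
    apply abs_pos.2
    intro h0
    exact huy (hinjY u hu y hyY (by linarith))
  have hV : {u | f u < f y + κ ∧ dist u y < δ / 2} ∈ 𝓝 y := by
    have e1 : ∀ᶠ u in 𝓝 y, f u < f y + κ :=
      hf.continuousAt.eventually (gt_mem_nhds (by linarith))
    have e2 : ∀ᶠ u in 𝓝 y, dist u y < δ / 2 := ball_mem_nhds y (by positivity)
    exact e1.and e2
  obtain ⟨s, hs, hsa, hscl⟩ := exists_seq hac.continuousAt hay hapos hacc hV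
  set b : ℕ → ℝ := fun n => a (s n) with hb
  have hbpos : ∀ n, 0 < b n := fun n => hapos _ (hs n).1 (hs n).2.1
  have hzex : ∀ n, ∃ z ∈ J f (b n / 4) (s n), z ∈ connectedComponentIn Bᶜ p := by
    intro n
    obtain ⟨z, hz, hfz, hd⟩ := hbadY (s n) (hs n).1 (b n / 4) (by have := hbpos n; positivity)
    refine ⟨z, hz, hesc z ?_ ?_⟩
    · have h1 := (hs n).2.2.2
      have h2 := dist_triangle z y (s n)
      rw [dist_comm y (s n)] at h2
      linarith
    · rw [hfz]; exact (hs n).2.2.1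
  set H := connectedComponentIn Bᶜ p with hH
  set K : ℕ → Set X := fun n => J f (b n / 4) (s n) with hK
  have hKs : ∀ n, s n ∈ K n := fun n => mem_J (by have := hbpos n; positivity) (s n)
  have hZ1 : IsPreconnected (⋃ n, (H ∪ K n)) := by
    have hpH : p ∈ H := by
      obtain ⟨z, _, hz⟩ := hzex 0
      have : p ∈ Bᶜ := connectedComponentIn_nonempty_iff.1 ⟨z, hz⟩
      exact mem_connectedComponentIn this
    apply isPreconnected_iUnion (Set.nonempty_iInter.2 ⟨p, fun n => Or.inl hpH⟩)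
    intro n
    obtain ⟨z, hzK, hzH⟩ := hzex n
    exact IsPreconnected.union z hzH hzK isPreconnected_connectedComponentIn
      isPreconnected_connectedComponentIn
  set Z₀ : Set X := ⋃ n, (H ∪ K n) with hZ₀
  have hyZ₀ : y ∈ closure Z₀ := by
    apply closure_mono _ hscl
    rintro _ ⟨n, rfl⟩
    exact mem_iUnion.2 ⟨n, Or.inr (hKs n)⟩
  have hZc : IsPreconnected (insert y Z₀) :=
    hZ1.subset_closure (subset_insert y Z₀) (insert_subset hyZ₀ subset_closure)
  have hZ : IsConnected (insert y Z₀) := ⟨⟨y, mem_insert y Z₀⟩, hZc⟩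
  have hlcZ := hlc _ hZ
  have hyZ : y ∈ insert y Z₀ := mem_insert y Z₀
  have hBZ : (Subtype.val ⁻¹' B : Set ↥(insert y Z₀)) ∈ 𝓝 (⟨y, hyZ⟩ : ↥(insert y Z₀)) :=
    continuous_subtype_val.continuousAt.preimage_mem_nhds hB
  obtain ⟨W, hWB, hWo, hyW, hWc⟩ :=
    locallyConnectedSpace_iff_subsets_isOpen_isConnected.1 hlcZ _ _ hBZ
  -- some `s k` lies in `W`
  obtain ⟨W', hW'o, hW'⟩ := isOpen_induced_iff.1 hWo
  have hyW' : y ∈ W' := by
    have : (⟨y, hyZ⟩ : ↥(insert y Z₀)) ∈ (Subtype.val ⁻¹' W' : Set ↥(insert y Z₀)) := by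
      rw [hW']; exact hyW
    exact this
  obtain ⟨_, hskW', ⟨k, rfl⟩⟩ := mem_closure_iff.1 hscl W' hW'o hyW'
  have hskZ : s k ∈ insert y Z₀ := mem_insert_of_mem y (mem_iUnion.2 ⟨k, Or.inr (hKs k)⟩)
  have hskW : (⟨s k, hskZ⟩ : ↥(insert y Z₀)) ∈ W := by
    rw [← hW']; exact hskW'
  -- intermediate value
  have hcont : Continuous (fun u : ↥(insert y Z₀) => a u.1) := hac.comp continuous_subtype_val
  have hIVT := hWc.isPreconnected.intermediate_value hyW hskW hcont.continuousOn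
  have hmid : b k / 2 ∈ Icc (a y) (a (s k)) := by
    rw [hay]
    have := hbpos k
    constructor
    · positivity
    · show b k / 2 ≤ b k
      linarith
  obtain ⟨⟨u, huZ⟩, huW, hau⟩ := hIVT hmid
  have hau' : a u = b k / 2 := hau
  have huB : u ∈ B := hWB huW
  rcases huZ with rfl | huZ
  · rw [hay] at hau'
    have := hbpos k
    linarith
  · obtain ⟨j, hj⟩ := mem_iUnion.1 huZ
    rcases hj with hjH | hjK
    · exact connectedComponentIn_subset _ _ hjH huB
    · have h1 := J_sub hjK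
      apply gap hbpos hsa j k
      rw [← hau']
      have h2 : |a u - b j| ≤ |f u - f (s j)| := by
        show |(|f u - f y|) - (|f (s j) - f y|)| ≤ _
        have := abs_abs_sub_abs_le_abs_sub (f u - f y) (f (s j) - f y)
        simpa using this
      exact h2.trans_lt h1

end Pool.Agent.H518R3
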