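import Pool.Agent.H518R3.Escape
import Pool.Agent.H518R3.Levels
import Pool.Agent.H518R3.Ind

/-! Assembly: hereditarily locally connected separable metric spaces have small inductive
dimension at most one. -/

namespace Pool.Agent.H518R3

open Set Topology Filter Metric TopologicalSpace

universe u

section

variable {X : Type u} [MetricSpace X]

/-- The countable base of connected open sets. -/
noncomputable def Nb (X : Type u) [MetricSpace X] [SeparableSpace X] [Nonempty X]
    (j : ℕ) : Set X :=
  connectedComponentIn (ball (denseSeq X j.unpair.1) (1 / (j.unpair.2 + 1)))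
    (denseSeq X j.unpair.1)

lemma isConnected_Nb [SeparableSpace X] [Nonempty X] (j : ℕ) : IsConnected (Nb X j) := by
  apply isConnected_connectedComponentIn_iff.2
  exact mem_ball_self (by positivity)

lemma exists_Nb [SeparableSpace X] [Nonempty X] [LocallyConnectedSpace X] (y : X) {δ : ℝ}
    (hδ : 0 < δ) : ∃ j, Nb X j ∈ 𝓝 y ∧ Nb X j ⊆ ball y δ := by
  obtain ⟨n, hn⟩ := exists_nat_one_div_lt (show (0 : ℝ) < δ / 2 by positivity)
  set r : ℝ := 1 / ((n : ℝ) + 1) with hr
  have hrpos : 0 < r := by positivity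
  obtain ⟨U, hUs, hUo, hyU, hUc⟩ :=
    locallyConnectedSpace_iff_subsets_isOpen_isConnected.1 inferInstance y _
      (ball_mem_nhds y (show 0 < r / 2 by positivity))
  obtain ⟨_, hd, ⟨i, rfl⟩⟩ := (denseRange_denseSeq X).inter_open_nonempty U hUo ⟨y, hyU⟩
  refine ⟨Nat.pair i n, ?_, ?_⟩
  · apply mem_of_superset (hUo.mem_nhds hyU)
    unfold Nb
    rw [Nat.unpair_pair]
    apply hUc.isPreconnected.subset_connectedComponentIn hd
    intro v hv
    have h1 := mem_ball.1 (hUs hv)
    have h2 := mem_ball'.1 (hUs hd)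
    have h3 := dist_triangle v y (denseSeq X i)
    rw [mem_ball]
    show _ < r
    linarith
  · unfold Nb
    rw [Nat.unpair_pair]
    refine (connectedComponentIn_subset _ _).trans ?_
    intro v hv
    have h1 : dist v (denseSeq X i) < r := hv
    have h2 := mem_ball.1 (hUs hd)
    have h3 := dist_triangle v (denseSeq X i) y
    rw [mem_ball]
    linarith

/-- In a connected hereditarily locally connected separable metric space, all but countably
many levels of a suitable function are zero dimensional. -/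
theorem exists_function [SeparableSpace X] [ConnectedSpace X]
    (hlc : ∀ S : Set X, IsConnected S → LocallyConnectedSpace S)
    [LocallyConnectedSpace X] (p : X) (V : Set X) (hV : IsOpen V) (hp : p ∈ V) :
    ∃ f : X → ℝ, Continuous f ∧ f p = 0 ∧ {x | f x < 1} ⊆ V ∧
      ∃ T : Set ℝ, T.Countable ∧ ∀ t, t ∉ T → ∀ y, f y = t → ∀ δ > 0, ∃ ε > 0,
        ∀ z ∈ J f ε y, f z = t → dist z y < δ := by
  obtain ⟨r₀, hr₀, hball⟩ := Metric.isOpen_iff.1 hV p hp
  set r := min r₀ 1 with hr
  have hrpos : 0 < r := lt_min hr₀ one_pos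
  have hr1 : r ≤ 1 := min_le_right _ _
  have : SecondCountableTopology X := UniformSpace.secondCountable_of_separable X
  set f0 : X → ℝ := fun x => R {p} x / r with hf0
  set g : ℕ → X → ℝ := fun j => G p (closure (Nb X j)) with hg
  have hf0c : Continuous f0 := (continuous_R _).div_const r
  have hgc : ∀ j, Continuous (g j) := fun j => continuous_G p isClosed_closure
  have h0 : ∀ j x, 0 ≤ g j x := fun j x => G_nonneg _ _ _
  have h1 : ∀ j x, g j x ≤ 1 := fun j x => G_le_one _ _ _
  have hf0J : Joins p f0 := by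
    intro B z a hz ha
    have : a * r ≤ R {p} z := (propM_R p).le hz fun q hq => by
      have := ha q hq
      rwa [le_div_iff₀ hrpos] at this
    show a ≤ R {p} z / r
    rwa [le_div_iff₀ hrpos]
  have hgJ : ∀ j, Joins p (g j) := fun j B z a hz ha =>
    (propM_G p isClosed_closure (isConnected_Nb j).closure).le hz ha
  have hlow : ∀ y : X, ∀ δ : ℝ, 0 < δ → ∃ (j : ℕ) (c : ℝ) (C : Set X), 0 < c ∧ g j y = 0 ∧
      C ∈ 𝓝 y ∧ ∀ z, δ ≤ dist z y → z ∉ connectedComponentIn Cᶜ p → c ≤ g j z := by
    intro y δ hδ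
    obtain ⟨j, hj, hjs⟩ := exists_Nb y (show 0 < δ / 2 by positivity)
    refine ⟨j, min 1 (δ / 2), closure (Nb X j), lt_min one_pos (by positivity), ?_, ?_, ?_⟩
    · exact G_of_mem_C (subset_closure (mem_of_mem_nhds hj))
    · exact mem_of_superset hj subset_closure
    · intro z hz hzC
      show _ ≤ G p (closure (Nb X j)) z
      rw [G_of_notMem hzC]
      apply le_R (min_le_left _ _)
      intro q hq
      have hq' : dist q y ≤ δ / 2 := by
        have := closure_mono hjs hq
        exact mem_closedBall.1 (closure_ball_subset_closedBall this)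
      have := dist_triangle z q y
      exact (min_le_right _ _).trans (by linarith)
  have hesc := escape hf0c hgc h0 h1 hf0J hgJ hlow
  set f := wsum f0 g with hf
  have hfc : Continuous f := continuous_wsum hf0c hgc h0 h1
  refine ⟨f, hfc, ?_, ?_, ?_⟩
  · show f0 p + ∑' j, (1 / 2 : ℝ) ^ (j + 1) * g j p = 0
    have e1 : f0 p = 0 := by
      show R {p} p / r = 0
      rw [R_eq_zero (mem_singleton p), zero_div]
    have e2 : ∀ j, (1 / 2 : ℝ) ^ (j + 1) * g j p = 0 := fun j => by
      have : g j p = 0 := G_self _ _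
      rw [this, mul_zero]
    simp_rw [e2]
    rw [e1, tsum_zero, zero_add]
  · intro x hx
    by_contra hxV
    have hx1 : f x < 1 := hx
    have hd : r ≤ R {p} x := by
      apply le_R hr1
      intro q hq
      rw [mem_singleton_iff] at hq
      subst hq
      by_contra hlt
      rw [not_le] at hlt
      exact hxV (hball (mem_ball.2 (hlt.trans_le (min_le_left _ _))))
    have h2 : 1 ≤ f0 x := by
      show 1 ≤ R {p} x / r
      rwa [le_div_iff₀ hrpos, one_mul]
    have h3 : 0 ≤ ∑' j, (1 / 2 : ℝ) ^ (j + 1) * g j x :=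
      tsum_nonneg fun j => mul_nonneg (by positivity) (h0 j x)
    have h4 : f x = f0 x + ∑' j, (1 / 2 : ℝ) ^ (j + 1) * g j x := rfl
    linarith
  · refine ⟨⋃ n : ℕ, {t : ℝ | ∃ y, f y = t ∧ ∀ ε > 0, ∃ z ∈ J f ε y, f z = t ∧
      1 / ((n : ℝ) + 1) ≤ dist z y}, ?_, ?_⟩
    · apply countable_iUnion
      intro n
      exact countable_bad hlc hfc hesc _ (by positivity)
    · intro t ht y hy δ hδ
      obtain ⟨n, hn⟩ := exists_nat_one_div_lt hδ
      have ht' : t ∉ {t : ℝ | ∃ y, f y = t ∧ ∀ ε > 0, ∃ z ∈ J f ε y, f z = t ∧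
          1 / ((n : ℝ) + 1) ≤ dist z y} := fun h => ht (mem_iUnion.2 ⟨n, h⟩)
      by_contra hcon
      push Not at hcon
      apply ht'
      refine ⟨y, hy, ?_⟩
      intro ε hε
      obtain ⟨z, hz, hfz, hdz⟩ := hcon ε hε
      exact ⟨z, hz, hfz, hn.le.trans hdz⟩

/-- A set contained in a good level is zero dimensional. -/
lemma indLT_one_of_level [LocallyConnectedSpace X] {f : X → ℝ} (hf : Continuous f) {t : ℝ}
    (hgood : ∀ y, f y = t → ∀ δ > 0, ∃ ε > 0, ∀ z ∈ J f ε y, f z = t → dist z y < δ)
    (S : Set X) (hS : ∀ x ∈ S, f x = t) : IndLT 1 S := by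
  rintro ⟨y, hyS⟩ V hV hyV
  obtain ⟨V', hV'o, rfl⟩ := isOpen_induced_iff.1 hV
  obtain ⟨δ, hδ, hδs⟩ := Metric.isOpen_iff.1 hV'o y hyV
  have hfy : f y = t := hS y hyS
  obtain ⟨ε, hε, hz⟩ := hgood y hfy δ hδ
  have hJo : ∀ x, IsOpen (J f ε x) := fun x =>
    (isOpen_Ioo.preimage hf).connectedComponentIn
  refine ⟨Subtype.val ⁻¹' J f ε y, (hJo y).preimage continuous_subtype_val, mem_J hε y, ?_, ?_⟩
  · rintro ⟨x, hx⟩ hxJ
    exact hδs (mem_ball.2 (hz x hxJ (hS x hx)))
  · have hcl : IsClosed (Subtype.val ⁻¹' J f ε y : Set S) := by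
      rw [← isOpen_compl_iff, isOpen_iff_mem_nhds]
      rintro ⟨x, hx⟩ hxJ
      have hfx : f x = f y := by rw [hfy, hS x hx]
      have hn : (Subtype.val ⁻¹' J f ε x : Set S) ∈ 𝓝 (⟨x, hx⟩ : S) :=
        ((hJo x).preimage continuous_subtype_val).mem_nhds (mem_J hε x)
      apply mem_of_superset hn
      rintro ⟨v, hv⟩ hvx hvy
      apply hxJ
      have e1 : J f ε x = J f ε v := by
        have hfv : f x = f v := by rw [hS x hx, hS v hv]
        have := connectedComponentIn_eq (show v ∈ connectedComponentIn _ x from hvx)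
        unfold J
        rw [this, hfv]
      have e2 : J f ε y = J f ε v := by
        have hfv : f y = f v := by rw [hfy, hS v hv]
        have := connectedComponentIn_eq (show v ∈ connectedComponentIn _ y from hvy)
        unfold J
        rw [this, hfv]
      show x ∈ J f ε y
      rw [e2, ← e1]
      exact mem_J hε x
    have hfr : frontier (Subtype.val ⁻¹' J f ε y : Set S) = ∅ :=
      IsClopen.frontier_eq ⟨hcl, (hJo y).preimage continuous_subtype_val⟩
    show IsEmpty (frontier (Subtype.val ⁻¹' J f ε y : Set S))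
    rw [hfr]
    infer_instance

theorem indLT_two_of_connected [SeparableSpace X] [ConnectedSpace X]
    (hlc : ∀ S : Set X, IsConnected S → LocallyConnectedSpace S) : IndLT 2 X := by
  have : LocallyConnectedSpace X := by
    have := hlc univ isConnected_univ
    exact ((Homeomorph.Set.univ X).symm.isOpenEmbedding).locallyConnectedSpace
  intro p V hV hp
  obtain ⟨f, hfc, hfp, hfV, T, hT, hgood⟩ := exists_function hlc p V hV hp
  have hdense : Dense Tᶜ := hT.dense_compl ℝ
  obtain ⟨t, ht, htT⟩ := hdense.inter_open_nonempty (Ioo 0 1) isOpen_Ioo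
    (nonempty_Ioo.2 one_pos)
  refine ⟨{x | f x < t}, isOpen_lt hfc continuous_const, ?_, ?_, ?_⟩
  · show f p < t
    rw [hfp]; exact ht.1
  · intro x hx
    exact hfV (lt_trans (show f x < t from hx) ht.2)
  · apply indLT_one_of_level hfc (hgood t htT)
    intro x hx
    exact frontier_lt_subset_eq hfc continuous_const hx

end

/-- Invariance under homeomorphisms. -/
theorem IndLT.homeo : ∀ (n : ℕ) {X Y : Type u} [TopologicalSpace X] [TopologicalSpace Y]
    (_ : X ≃ₜ Y), IndLT n X → IndLT n Y
  | 0, X, Y, _, _, e, h => by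
    have : IsEmpty X := h
    exact (show IsEmpty Y from ⟨fun y => isEmptyElim (e.symm y)⟩)
  | n + 1, X, Y, _, _, e, h => by
    intro y V hV hyV
    obtain ⟨U, hUo, hxU, hUV, hfr⟩ := h (e.symm y) (e ⁻¹' V) (hV.preimage e.continuous)
      (by simpa using hyV)
    refine ⟨e '' U, e.isOpenMap U hUo, ⟨e.symm y, hxU, by simp⟩, ?_, ?_⟩
    · rintro _ ⟨x, hx, rfl⟩
      exact hUV hx
    · have h1 : e '' frontier U = frontier (e '' U) := e.image_frontier U
      have e2 : frontier U ≃ₜ frontier (e '' U) :=
        (e.image (frontier U)).trans (Homeomorph.setCongr h1)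
      exact IndLT.homeo n e2 hfr

/-- The locally connected case, by passing to components. -/
theorem indLT_two_of_locallyConnected {X : Type u} [MetricSpace X] [SeparableSpace X]
    (hX : LocallyConnectedSpace X)
    (hlc : ∀ S : Set X, IsConnected S → LocallyConnectedSpace S) : IndLT 2 X := by
  intro p V hV hp
  set S : Set X := connectedComponent p with hS
  have hSo : IsOpen S := isOpen_connectedComponent
  have hSc : IsClosed S := isClosed_connectedComponent
  have hpS : p ∈ S := mem_connectedComponent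
  have : SecondCountableTopology X := UniformSpace.secondCountable_of_separable X
  have : ConnectedSpace S := isConnected_iff_connectedSpace.1 isConnected_connectedComponent
  have hlcS : ∀ A : Set S, IsConnected A → LocallyConnectedSpace A := by
    intro A hA
    have h1 : IsConnected (Subtype.val '' A : Set X) :=
      hA.image _ continuous_subtype_val.continuousOn
    have := hlc _ h1
    have e : A ≃ₜ (Subtype.val '' A : Set X) :=
      (Topology.IsEmbedding.subtypeVal.homeomorphImage A)
    exact e.isOpenEmbedding.locallyConnectedSpace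
  have hind : IndLT 2 S := indLT_two_of_connected hlcS
  obtain ⟨U, hUo, hxU, hUV, hfr⟩ := hind ⟨p, hpS⟩ (Subtype.val ⁻¹' V)
    (hV.preimage continuous_subtype_val) hp
  refine ⟨Subtype.val '' U, hSo.isOpenMap_subtype_val U hUo, ⟨⟨p, hpS⟩, hxU, rfl⟩, ?_, ?_⟩
  · rintro _ ⟨x, hx, rfl⟩
    exact hUV hx
  · have hcl : closure (Subtype.val '' U : Set X) = Subtype.val '' closure U :=
      (hSc.isClosedMap_subtype_val.closure_image_eq_of_continuous continuous_subtype_val U)
    have hio : interior (Subtype.val '' U : Set X) = Subtype.val '' U :=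
      (hSo.isOpenMap_subtype_val U hUo).interior_eq
    have hfr2 : (Subtype.val '' frontier U : Set X) = frontier (Subtype.val '' U) := by
      rw [frontier, frontier, hcl, hio, hUo.interior_eq,
        image_sdiff Subtype.val_injective]
    have e2 : frontier U ≃ₜ frontier (Subtype.val '' U : Set X) :=
      (Topology.IsEmbedding.subtypeVal.homeomorphImage (frontier U)).trans
        (Homeomorph.setCongr hfr2)
    exact IndLT.homeo 1 e2 hfr

end Pool.Agent.H518R3
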