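import Mathlib

/-! Connected radius functions on a locally connected metric space. -/

namespace Pool.Agent.H518R3

open Set Topology Filter Metric

variable {X : Type*} [MetricSpace X]

/-- The admissible numbers for the connected radius. -/
def adm (S : Set X) (x : X) : Set ℝ :=
  {s | 0 ≤ s ∧ (1 ≤ s ∨ ∃ K : Set X, IsPreconnected K ∧ x ∈ K ∧ (K ∩ S).Nonempty ∧
    ∀ u ∈ K, ∀ v ∈ K, dist u v ≤ s)}

/-- The connected radius of `x` relative to `S`, truncated at `1`. -/
noncomputable def R (S : Set X) (x : X) : ℝ := sInf (adm S x)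

lemma one_mem_adm (S : Set X) (x : X) : (1 : ℝ) ∈ adm S x :=
  ⟨zero_le_one, Or.inl le_rfl⟩

lemma adm_bddBelow (S : Set X) (x : X) : BddBelow (adm S x) :=
  ⟨0, fun _ hs => hs.1⟩

lemma R_nonneg (S : Set X) (x : X) : 0 ≤ R S x :=
  le_csInf ⟨1, one_mem_adm S x⟩ fun _ hs => hs.1

lemma R_le_one (S : Set X) (x : X) : R S x ≤ 1 :=
  csInf_le (adm_bddBelow S x) (one_mem_adm S x)

lemma R_le_of {S : Set X} {x : X} {K : Set X} {s : ℝ} (hK : IsPreconnected K) (hx : x ∈ K)
    (hS : (K ∩ S).Nonempty) (hd : ∀ u ∈ K, ∀ v ∈ K, dist u v ≤ s) : R S x ≤ s := by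
  have h0 : 0 ≤ s := by
    have := hd x hx x hx
    simpa using this
  exact csInf_le (adm_bddBelow S x) ⟨h0, Or.inr ⟨K, hK, hx, hS, hd⟩⟩

lemma R_eq_zero {S : Set X} {x : X} (hx : x ∈ S) : R S x = 0 := by
  apply le_antisymm _ (R_nonneg S x)
  apply R_le_of (K := {x}) isPreconnected_singleton rfl ⟨x, rfl, hx⟩
  rintro u hu v hv
  rw [mem_singleton_iff] at hu hv
  subst hu; subst hv
  simp

lemma le_R {S : Set X} {x : X} {c : ℝ} (hc : c ≤ 1) (h : ∀ q ∈ S, c ≤ dist x q) :
    c ≤ R S x := by
  apply le_csInf ⟨1, one_mem_adm S x⟩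
  rintro s ⟨_, hs | ⟨K, _, hxK, ⟨q, hqK, hqS⟩, hd⟩⟩
  · exact hc.trans hs
  · exact (h q hqS).trans (hd x hxK q hqK)

/-- If `R S x < s ≤ 1` there is a preconnected set containing `x`, meeting `S`, on which
`R S < s`. -/
lemma exists_of_R_lt {S : Set X} {x : X} {s : ℝ} (hs : s ≤ 1) (h : R S x < s) :
    ∃ K : Set X, IsPreconnected K ∧ x ∈ K ∧ (K ∩ S).Nonempty ∧ ∀ u ∈ K, R S u < s := by
  obtain ⟨s', hs', hlt⟩ := exists_lt_of_csInf_lt ⟨1, one_mem_adm S x⟩ h
  obtain ⟨_, h1 | ⟨K, hK, hxK, hKS, hd⟩⟩ := hs'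
  · linarith
  · exact ⟨K, hK, hxK, hKS, fun u hu => (R_le_of hK hu hKS hd).trans_lt hlt⟩

lemma R_le_add {S : Set X} {x x' : X} {U : Set X} {η : ℝ} (hU : IsPreconnected U)
    (hx : x ∈ U) (hx' : x' ∈ U) (hd : ∀ u ∈ U, ∀ v ∈ U, dist u v ≤ η) :
    R S x' ≤ R S x + η := by
  have hη : 0 ≤ η := by simpa using hd x hx x hx
  rw [← sub_le_iff_le_add]
  apply le_csInf ⟨1, one_mem_adm S x⟩
  rintro s ⟨hs0, h1 | ⟨K, hK, hxK, ⟨q, hqK, hqS⟩, hdK⟩⟩
  · have := R_le_one S x'
    linarith
  · rw [sub_le_iff_le_add]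
    apply R_le_of (K := K ∪ U) (hK.union x hxK hx hU) (Or.inr hx') ⟨q, Or.inl hqK, hqS⟩
    rintro u (hu | hu) v (hv | hv)
    · have := hdK u hu v hv
      linarith
    · have h1 := hdK u hu x hxK
      have h2 := hd x hx v hv
      have h3 := dist_triangle u x v
      linarith
    · have h1 := hd u hu x hx
      have h2 := hdK x hxK v hv
      have h3 := dist_triangle u x v
      linarith
    · have := hd u hu v hv
      linarith

lemma continuous_R [LocallyConnectedSpace X] (S : Set X) : Continuous (R S) := by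
  rw [continuous_iff_continuousAt]
  intro x
  rw [Metric.continuousAt_iff']
  intro ε hε
  have hb : ball x (ε / 4) ∈ 𝓝 x := ball_mem_nhds x (by positivity)
  obtain ⟨U, hUs, hUo, hxU, hUc⟩ :=
    locallyConnectedSpace_iff_subsets_isOpen_isConnected.1 inferInstance x _ hb
  filter_upwards [hUo.mem_nhds hxU] with x' hx'
  have hd : ∀ u ∈ U, ∀ v ∈ U, dist u v ≤ ε / 2 := by
    intro u hu v hv
    have h1 := mem_ball.1 (hUs hu)
    have h2 := mem_ball'.1 (hUs hv)
    have h3 := dist_triangle u x v
    linarith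
  have h1 := R_le_add (S := S) hUc.isPreconnected hxU hx' hd
  have h2 := R_le_add (S := S) hUc.isPreconnected hx' hxU hd
  rw [Real.dist_eq, abs_lt]
  constructor <;> linarith

/-- The modified connected radius: zero on the component of `p` in the complement of `C`. -/
noncomputable def G (p : X) (C : Set X) (x : X) : ℝ :=
  open Classical in if x ∈ connectedComponentIn Cᶜ p then 0 else R C x

lemma G_nonneg (p : X) (C : Set X) (x : X) : 0 ≤ G p C x := by
  unfold G
  split_ifs
  · exact le_rfl
  · exact R_nonneg C x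

lemma G_le_R (p : X) (C : Set X) (x : X) : G p C x ≤ R C x := by
  unfold G
  split_ifs
  · exact R_nonneg C x
  · exact le_rfl

lemma G_le_one (p : X) (C : Set X) (x : X) : G p C x ≤ 1 :=
  (G_le_R p C x).trans (R_le_one C x)

lemma G_of_mem {p : X} {C : Set X} {x : X} (h : x ∈ connectedComponentIn Cᶜ p) :
    G p C x = 0 := by
  unfold G
  rw [if_pos h]

lemma G_of_notMem {p : X} {C : Set X} {x : X} (h : x ∉ connectedComponentIn Cᶜ p) :
    G p C x = R C x := by
  unfold G
  rw [if_neg h]

lemma G_of_mem_C {p : X} {C : Set X} {x : X} (h : x ∈ C) : G p C x = 0 :=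
  le_antisymm ((G_le_R p C x).trans (R_eq_zero h).le) (G_nonneg p C x)

lemma G_self (p : X) (C : Set X) : G p C p = 0 := by
  by_cases h : p ∈ C
  · exact G_of_mem_C h
  · exact G_of_mem (mem_connectedComponentIn h)

lemma continuous_G [LocallyConnectedSpace X] (p : X) {C : Set X} (hC : IsClosed C) :
    Continuous (G p C) := by
  rw [continuous_iff_continuousAt]
  intro x
  by_cases hxC : x ∈ C
  · have h1 : Tendsto (R C) (𝓝 x) (𝓝 0) := by
      have := (continuous_R C).tendsto x
      rwa [R_eq_zero hxC] at this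
    have h2 : Tendsto (G p C) (𝓝 x) (𝓝 0) :=
      tendsto_of_tendsto_of_tendsto_of_le_of_le tendsto_const_nhds h1
        (fun y => G_nonneg p C y) (fun y => G_le_R p C y)
    unfold ContinuousAt
    rwa [G_of_mem_C hxC]
  · by_cases hx : x ∈ connectedComponentIn Cᶜ p
    · have ho : IsOpen (connectedComponentIn Cᶜ p) := hC.isOpen_compl.connectedComponentIn
      have he : G p C =ᶠ[𝓝 x] fun _ => (0 : ℝ) := by
        filter_upwards [ho.mem_nhds hx] with y hy
        exact G_of_mem hy
      exact continuousAt_const.congr he.symm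
    · have ho : IsOpen (connectedComponentIn Cᶜ x) := hC.isOpen_compl.connectedComponentIn
      have he : G p C =ᶠ[𝓝 x] R C := by
        filter_upwards [ho.mem_nhds (mem_connectedComponentIn hxC)] with y hy
        apply G_of_notMem
        intro hyp
        apply hx
        have e1 := connectedComponentIn_eq hy
        have e2 := connectedComponentIn_eq hyp
        rw [e2, ← e1]
        exact mem_connectedComponentIn hxC
      exact (continuous_R C).continuousAt.congr he.symm

/-- Property (M): sublevel sets joining. -/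
def PropM (p : X) (g : X → ℝ) : Prop :=
  ∀ z s, g z < s → ∃ Q : Set X, IsPreconnected Q ∧ p ∈ Q ∧ z ∈ Q ∧ ∀ u ∈ Q, g u < s

lemma propM_R [PreconnectedSpace X] (p : X) : PropM p (R {p}) := by
  intro z s hs
  by_cases h1 : s ≤ 1
  · obtain ⟨K, hK, hz, ⟨q, hqK, hq⟩, hlt⟩ := exists_of_R_lt h1 hs
    rw [mem_singleton_iff] at hq
    subst hq
    exact ⟨K, hK, hqK, hz, hlt⟩
  · exact ⟨univ, isPreconnected_univ, trivial, trivial, fun u _ =>
      (R_le_one _ u).trans_lt (not_le.1 h1)⟩

lemma isPreconnected_C_union [PreconnectedSpace X] [LocallyConnectedSpace X] (p : X)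
    {C : Set X} (hC : IsClosed C) (hCc : IsConnected C) :
    IsPreconnected (C ∪ connectedComponentIn Cᶜ p) := by
  by_cases hp : p ∈ C
  · rw [connectedComponentIn_eq_empty (by simpa using hp), union_empty]
    exact hCc.isPreconnected
  · set H := connectedComponentIn Cᶜ p with hH
    have ho : IsOpen H := hC.isOpen_compl.connectedComponentIn
    have hpH : p ∈ H := mem_connectedComponentIn hp
    have hHc : IsPreconnected H := isPreconnected_connectedComponentIn
    have hne : (closure H ∩ C).Nonempty := by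
      by_contra hcon
      rw [not_nonempty_iff_eq_empty] at hcon
      have hsub : closure H ⊆ Cᶜ := by
        intro u hu huC
        have : u ∈ closure H ∩ C := ⟨hu, huC⟩
        rw [hcon] at this
        exact this
      have h2 : closure H ⊆ H :=
        hHc.closure.subset_connectedComponentIn (subset_closure hpH) hsub
      have hcl : IsClosed H := closure_subset_iff_isClosed.1 h2
      have hun : H = univ := IsClopen.eq_univ ⟨hcl, ho⟩ ⟨p, hpH⟩
      obtain ⟨c, hc⟩ := hCc.nonempty
      have : c ∈ H := by rw [hun]; trivial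
      exact connectedComponentIn_subset _ _ this hc
    obtain ⟨q, hqH, hqC⟩ := hne
    have h3 : IsPreconnected (insert q H) :=
      hHc.subset_closure (subset_insert q H) (insert_subset hqH subset_closure)
    have h4 : IsPreconnected (C ∪ insert q H) :=
      hCc.isPreconnected.union q hqC (mem_insert q H) h3
    have h5 : C ∪ insert q H = C ∪ H := by
      ext u
      simp only [mem_union, mem_insert_iff]
      constructor
      · rintro (h | rfl | h)
        · exact Or.inl h
        · exact Or.inl hqC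
        · exact Or.inr h
      · rintro (h | h)
        · exact Or.inl h
        · exact Or.inr (Or.inr h)
    rwa [h5] at h4

lemma propM_G [PreconnectedSpace X] [LocallyConnectedSpace X] (p : X)
    {C : Set X} (hC : IsClosed C) (hCc : IsConnected C) : PropM p (G p C) := by
  intro z s hs
  by_cases h1 : s ≤ 1
  · have hs0 : 0 < s := (G_nonneg p C z).trans_lt hs
    set Q₀ := C ∪ connectedComponentIn Cᶜ p with hQ₀
    have hQc : IsPreconnected Q₀ := isPreconnected_C_union p hC hCc
    have hpQ : p ∈ Q₀ := by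
      by_cases hp : p ∈ C
      · exact Or.inl hp
      · exact Or.inr (mem_connectedComponentIn hp)
    have hQ0 : ∀ u ∈ Q₀, G p C u < s := by
      rintro u (hu | hu)
      · rw [G_of_mem_C hu]; exact hs0
      · rw [G_of_mem hu]; exact hs0
    by_cases hz : z ∈ Q₀
    · exact ⟨Q₀, hQc, hpQ, hz, hQ0⟩
    · have hz' : z ∉ connectedComponentIn Cᶜ p := fun h => hz (Or.inr h)
      rw [G_of_notMem hz'] at hs
      obtain ⟨K, hK, hzK, ⟨q, hqK, hqC⟩, hlt⟩ := exists_of_R_lt h1 hs
      refine ⟨Q₀ ∪ K, hQc.union q (Or.inl hqC) hqK hK, Or.inl hpQ, Or.inr hzK, ?_⟩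
      rintro u (hu | hu)
      · exact hQ0 u hu
      · exact (G_le_R p C u).trans_lt (hlt u hu)
  · exact ⟨univ, isPreconnected_univ, trivial, trivial, fun u _ =>
      (G_le_one _ _ u).trans_lt (not_le.1 h1)⟩

/-- Consequence of property (M): if `z` is not in the component of `p` in the complement of
`B`, and `g` is at least `a` on `B`, then `g z ≥ a`. -/
lemma PropM.le {p : X} {g : X → ℝ} (hg : PropM p g) {B : Set X} {z : X} {a : ℝ}
    (hz : z ∉ connectedComponentIn Bᶜ p) (ha : ∀ q ∈ B, a ≤ g q) : a ≤ g z := by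
  by_contra hcon
  rw [not_le] at hcon
  obtain ⟨Q, hQ, hpQ, hzQ, hlt⟩ := hg z a hcon
  have hmeet : (Q ∩ B).Nonempty := by
    by_contra hne
    rw [not_nonempty_iff_eq_empty] at hne
    apply hz
    apply hQ.subset_connectedComponentIn hpQ _ hzQ
    intro u hu huB
    have : u ∈ Q ∩ B := ⟨hu, huB⟩
    rw [hne] at this
    exact this
  obtain ⟨q, hqQ, hqB⟩ := hmeet
  have h1 := hlt q hqQ
  have h2 := ha q hqB
  linarith

end Pool.Agent.H518R3
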