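import Mathlib

/-! Calculus lemmas for the identity component of groups of compactly supported
symplectomorphisms. -/

set_option linter.all false

namespace H518SY

open Function Set Filter
open scoped Topology NNReal ContDiff

section Equiv
variable {F : Type*} [NormedAddCommGroup F] [NormedSpace ℝ F] [FiniteDimensional ℝ F]

theorem equiv_of_inj (L : F →L[ℝ] F) (h : ∀ x, L x = 0 → x = 0) :
    ∃ L' : F ≃L[ℝ] F, (L' : F →L[ℝ] F) = L := by
  have hinj : Injective (L : F →ₗ[ℝ] F) := by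
    rw [injective_iff_map_eq_zero]
    exact h
  refine ⟨(LinearEquiv.ofInjectiveEndo (L : F →ₗ[ℝ] F) hinj).toContinuousLinearEquiv, ?_⟩
  ext x
  simp

theorem inv_smooth {f g : F → F} (hf : ContDiff ℝ ∞ f)
    (hgf : ∀ x, g (f x) = x) (hfg : ∀ y, f (g y) = y)
    (hD : ∀ x y, fderiv ℝ f x y = 0 → y = 0) : ContDiff ℝ ∞ g := by
  rw [contDiff_iff_contDiffAt]
  intro y
  obtain ⟨L, hL⟩ := equiv_of_inj (fderiv ℝ f (g y)) (hD (g y))
  have hd : HasFDerivAt f (L : F →L[ℝ] F) (g y) := by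
    rw [hL]
    exact (hf.differentiable (by simp)).differentiableAt.hasFDerivAt
  have hc : ContDiffAt ℝ ∞ f (g y) := hf.contDiffAt
  have h1 := hc.to_localInverse hd (by simp)
  rw [hfg] at h1
  refine h1.congr_of_eventuallyEq ?_
  have h2 := (hc.hasStrictFDerivAt' hd (by simp)).eventually_right_inverse
  rw [hfg] at h2
  filter_upwards [h2] with w hw
  have : g (f (hc.localInverse hd (by simp) w)) = g w := by
    rw [ContDiffAt.localInverse, hw]
  rw [← this, hgf]

theorem pert_bij {w : F → F} {κ : ℝ≥0} (hκ : κ < 1) (hw : LipschitzWith κ w) :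
    Bijective (fun x => x - w x) := by
  have hA : ApproximatesLinearOn (fun x => x - w x)
      ((ContinuousLinearEquiv.refl ℝ F : F ≃L[ℝ] F) : F →L[ℝ] F) univ κ := by
    intro x _ y _
    have := hw.dist_le_mul x y
    rw [dist_eq_norm, dist_eq_norm] at this
    have h2 : x - w x - (y - w y) -
        ((ContinuousLinearEquiv.refl ℝ F : F ≃L[ℝ] F) : F →L[ℝ] F) (x - y) = -(w x - w y) := by
      simp
      abel
    rw [h2, norm_neg]
    exact this
  have hc : Subsingleton F ∨
      κ < ‖((ContinuousLinearEquiv.refl ℝ F).symm : F →L[ℝ] F)‖₊⁻¹ := by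
    rcases subsingleton_or_nontrivial F with h | h
    · exact Or.inl h
    · right
      have : ((ContinuousLinearEquiv.refl ℝ F).symm : F →L[ℝ] F) =
          ContinuousLinearMap.id ℝ F := rfl
      rw [this, ContinuousLinearMap.nnnorm_id]
      simpa using hκ
  haveI : CompleteSpace F := FiniteDimensional.complete ℝ F
  refine ⟨?_, hA.surjective hc⟩
  have := hA.injOn hc
  rwa [injOn_univ] at this

theorem pert_deriv {w : F → F} {κ : ℝ≥0} (hκ : κ < 1) (hw : LipschitzWith κ w)
    (x y : F) (h : y - fderiv ℝ w x y = 0) : y = 0 := by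
  have h1 : ‖fderiv ℝ w x‖ ≤ κ := norm_fderiv_le_of_lipschitz ℝ hw
  have h2 : ‖y‖ ≤ κ * ‖y‖ := by
    calc ‖y‖ = ‖fderiv ℝ w x y‖ := by rw [← sub_eq_zero.mp h]
      _ ≤ ‖fderiv ℝ w x‖ * ‖y‖ := ContinuousLinearMap.le_opNorm _ _
      _ ≤ κ * ‖y‖ := mul_le_mul_of_nonneg_right h1 (norm_nonneg _)
  have h3 : (κ : ℝ) < 1 := by exact_mod_cast hκ
  have h4 : ‖y‖ = 0 := by nlinarith [norm_nonneg y]
  exact norm_eq_zero.mp h4

end Equiv

end H518SY
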