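import Mathlib
import Pool.Agent.H518R3.SY1

/-! The Cayley type deformation of a symplectic map which is `C^1` close to the identity. -/

set_option linter.all false

namespace H518SY

open Function Set Filter
open scoped Topology NNReal ContDiff

variable {E : Type*} [NormedAddCommGroup E] [NormedSpace ℝ E] [FiniteDimensional ℝ E]

/-- the map `θ` with `‖Dθ - 1‖ ≤ c < 1` is `y - v y ↦ y + v y` for a smooth contraction `v`. -/
theorem exists_v {θ : E → E} (hθ : ContDiff ℝ ∞ θ) {c : ℝ} (hc : c < 1)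
    (hD : ∀ z, ‖fderiv ℝ θ z - ContinuousLinearMap.id ℝ E‖ ≤ c) :
    ∃ v : E → E, ContDiff ℝ ∞ v ∧ (∃ κ : ℝ≥0, κ < 1 ∧ LipschitzWith κ v) ∧
      (∀ y, θ (y - v y) = y + v y) ∧
      (∀ K : Set E, (∀ z, z ∉ K → θ z = z) →
        ∀ y, y ∉ (fun z => (2⁻¹ : ℝ) • (z + θ z)) '' K → v y = 0) := by
  have hc0 : 0 ≤ c := le_trans (norm_nonneg _) (hD 0)
  have hdiff : Differentiable ℝ θ := hθ.differentiable (by simp)
  -- half of the displacement
  set p : E → E := fun z => -((2⁻¹ : ℝ) • (θ z - z)) with hp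
  have hps : ContDiff ℝ ∞ p := ((hθ.sub contDiff_id).const_smul _).neg
  have hpd : ∀ z, fderiv ℝ p z = -((2⁻¹ : ℝ) • (fderiv ℝ θ z - ContinuousLinearMap.id ℝ E)) := by
    intro z
    have h1 : HasFDerivAt p (-((2⁻¹ : ℝ) • (fderiv ℝ θ z - ContinuousLinearMap.id ℝ E))) z :=
      (((hdiff z).hasFDerivAt.sub (hasFDerivAt_id z)).const_smul (2⁻¹ : ℝ)).neg
    exact h1.fderiv
  have hpn : ∀ z, ‖fderiv ℝ p z‖ ≤ c / 2 := by
    intro z
    rw [hpd, norm_neg, norm_smul]
    have := hD z
    rw [Real.norm_eq_abs, abs_of_pos (by norm_num)]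
    linarith
  have hpl : LipschitzWith (Real.toNNReal (c / 2)) p := by
    apply lipschitzWith_of_nnnorm_fderiv_le (𝕜 := ℝ) (hps.differentiable (by simp))
    intro z
    rw [← NNReal.coe_le_coe, Real.coe_toNNReal _ (by positivity)]
    exact hpn z
  have hk1 : Real.toNNReal (c / 2) < 1 := by
    rw [← NNReal.coe_lt_coe, Real.coe_toNNReal _ (by positivity)]
    push_cast
    linarith
  -- the midpoint map
  set F : E → E := fun z => z - p z with hF
  have hFb : Bijective F := pert_bij hk1 hpl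
  obtain ⟨g, hgF, hFg⟩ := bijective_iff_has_inverse.mp hFb
  have hFs : ContDiff ℝ ∞ F := contDiff_id.sub hps
  have hFd : ∀ z y, fderiv ℝ F z y = y - fderiv ℝ p z y := by
    intro z y
    have h1 : HasFDerivAt F (ContinuousLinearMap.id ℝ E - fderiv ℝ p z) z :=
      (hasFDerivAt_id z).sub (hps.differentiable (by simp) z).hasFDerivAt
    rw [h1.fderiv]
    simp
  have hgs : ContDiff ℝ ∞ g := by
    refine inv_smooth hFs hgF hFg ?_
    intro x y h
    rw [hFd] at h
    exact pert_deriv hk1 hpl x y h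
  have hg1 : ∀ y, g y - p (g y) = y := fun y => hFg y
  refine ⟨fun y => -(p (g y)), (hps.comp hgs).neg, ?_, ?_, ?_⟩
  · refine ⟨Real.toNNReal (c / 2 / (1 - c / 2)), ?_, ?_⟩
    · rw [← NNReal.coe_lt_coe, Real.coe_toNNReal _ (div_nonneg (by positivity) (by linarith))]
      push_cast
      rw [div_lt_one (by linarith)]
      linarith
    · apply LipschitzWith.of_dist_le_mul
      intro x y
      rw [Real.coe_toNNReal _ (div_nonneg (by positivity) (by linarith))]
      rw [dist_eq_norm, dist_eq_norm]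
      have h1 : ‖p (g x) - p (g y)‖ ≤ c / 2 * ‖g x - g y‖ := by
        have := hpl.dist_le_mul (g x) (g y)
        rw [dist_eq_norm, dist_eq_norm, Real.coe_toNNReal _ (by positivity)] at this
        exact this
      have h2 : g x - g y = (x - y) + (p (g x) - p (g y)) := by
        have e1 := hg1 x
        have e2 := hg1 y
        calc g x - g y = ((g x - p (g x)) - (g y - p (g y))) + (p (g x) - p (g y)) := by abel
          _ = (x - y) + (p (g x) - p (g y)) := by rw [e1, e2]
      have h3 : ‖g x - g y‖ ≤ ‖x - y‖ + ‖p (g x) - p (g y)‖ := by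
        rw [h2]; exact norm_add_le _ _
      have h4 : ‖-(p (g x)) - -(p (g y))‖ = ‖p (g x) - p (g y)‖ := by
        rw [← norm_neg]
        congr 1
        abel
      rw [h4, div_mul_eq_mul_div, le_div_iff₀ (by linarith)]
      nlinarith [norm_nonneg (x - y), norm_nonneg (p (g x) - p (g y))]
  · intro y
    have e1 : y - -(p (g y)) = g y := by
      have := hg1 y
      calc y - -(p (g y)) = (g y - p (g y)) - -(p (g y)) := by rw [this]
        _ = g y := by abel
    rw [e1]
    have e2 : p (g y) = -((2⁻¹ : ℝ) • (θ (g y) - g y)) := rfl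
    have e3 : y = g y - p (g y) := (hg1 y).symm
    have e4 : y + -(p (g y)) = g y - (2 : ℝ) • p (g y) := by
      rw [two_smul]
      nth_rewrite 1 [e3]
      abel
    rw [e4, e2, smul_neg, smul_smul]
    norm_num
  · intro K hK y hy
    have h1 : g y ∉ K := by
      intro h
      apply hy
      refine ⟨g y, h, ?_⟩
      have := hg1 y
      show (2⁻¹ : ℝ) • (g y + θ (g y)) = y
      calc (2⁻¹ : ℝ) • (g y + θ (g y)) = g y + (2⁻¹ : ℝ) • (θ (g y) - g y) := by
            rw [smul_add, smul_sub]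
            have : g y = (2⁻¹ : ℝ) • g y + (2⁻¹ : ℝ) • g y := by
              rw [← add_smul]; norm_num
            nth_rewrite 3 [this]
            abel
        _ = g y - p (g y) := by rw [hp]; simp only []; rw [sub_neg_eq_add]
        _ = y := this
    show -(p (g y)) = 0
    rw [hp]
    simp only []
    rw [hK _ h1]
    simp

/-- the derivative of the field `v` is skew for `ω`. -/
theorem skew_of {om : E →ₗ[ℝ] E →ₗ[ℝ] ℝ} {θ v : E → E} (hθ : ContDiff ℝ ∞ θ)
    (hom : ∀ z x y, om (fderiv ℝ θ z x) (fderiv ℝ θ z y) = om x y)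
    (hv : ContDiff ℝ ∞ v) (h : ∀ y, θ (y - v y) = y + v y) (y a b : E) :
    om (fderiv ℝ v y a) b + om a (fderiv ℝ v y b) = 0 := by
  have hdv : HasFDerivAt v (fderiv ℝ v y) y := (hv.differentiable (by simp) y).hasFDerivAt
  have hdθ : HasFDerivAt θ (fderiv ℝ θ (y - v y)) (y - v y) :=
    (hθ.differentiable (by simp) _).hasFDerivAt
  have h1 : HasFDerivAt (fun y => θ (y - v y))
      ((fderiv ℝ θ (y - v y)).comp (ContinuousLinearMap.id ℝ E - fderiv ℝ v y)) y := by
    have := HasFDerivAt.comp (f := fun y => y - v y) y hdθ ((hasFDerivAt_id y).sub hdv)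
    exact this
  have h2 : HasFDerivAt (fun y => y + v y) (ContinuousLinearMap.id ℝ E + fderiv ℝ v y) y :=
    (hasFDerivAt_id y).add hdv
  have h3 : (fun y => θ (y - v y)) = fun y => y + v y := funext h
  rw [h3] at h1
  have h4 := h1.unique h2
  have h5 : ∀ a, fderiv ℝ θ (y - v y) (a - fderiv ℝ v y a) = a + fderiv ℝ v y a := by
    intro a
    have := congrArg (fun L : E →L[ℝ] E => L a) h4
    simpa using this
  have h6 := hom (y - v y) (a - fderiv ℝ v y a) (b - fderiv ℝ v y b)
  rw [h5, h5] at h6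
  simp only [map_add, map_sub, LinearMap.add_apply, LinearMap.sub_apply] at h6
  linarith

/-- Joint inverse of the family `w ↦ w - σ t • v w`. -/
theorem exists_g {v : E → E} (hv : ContDiff ℝ ∞ v) {κ : ℝ≥0} (hκ : κ < 1)
    (hl : LipschitzWith κ v) (σ : ℝ → ℝ) (hσ : ContDiff ℝ ∞ σ) (hσ1 : ∀ t, |σ t| ≤ 1) :
    ∃ g : ℝ × E → E, ContDiff ℝ ∞ g ∧ (∀ t z, g (t, z) - σ t • v (g (t, z)) = z) ∧
      (∀ t w, g (t, w - σ t • v w) = w) := by
  have hls : ∀ t, LipschitzWith κ (fun w => σ t • v w) := by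
    intro t
    apply LipschitzWith.of_dist_le_mul
    intro x y
    rw [dist_eq_norm, dist_eq_norm, ← smul_sub, norm_smul, Real.norm_eq_abs]
    have := hl.dist_le_mul x y
    rw [dist_eq_norm, dist_eq_norm] at this
    calc |σ t| * ‖v x - v y‖ ≤ 1 * ‖v x - v y‖ :=
          mul_le_mul_of_nonneg_right (hσ1 t) (norm_nonneg _)
      _ = ‖v x - v y‖ := one_mul _
      _ ≤ _ := this
  have hb : ∀ t, Bijective (fun w => w - σ t • v w) := fun t => pert_bij hκ (hls t)
  choose G hG1 hG2 using fun t => bijective_iff_has_inverse.mp (hb t)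
  refine ⟨fun p => G p.1 p.2, ?_, fun t z => hG2 t z, fun t w => hG1 t w⟩
  set H : ℝ × E → ℝ × E := fun p => (p.1, p.2 - σ p.1 • v p.2) with hH
  set H' : ℝ × E → ℝ × E := fun p => (p.1, G p.1 p.2) with hH'
  have hHs : ContDiff ℝ ∞ H := by
    apply contDiff_fst.prodMk
    exact contDiff_snd.sub ((hσ.comp contDiff_fst).smul (hv.comp contDiff_snd))
  have hs : ContDiff ℝ ∞ H' := by
    refine inv_smooth hHs ?_ ?_ ?_
    · rintro ⟨t, w⟩
      show (t, G t (w - σ t • v w)) = (t, w)
      rw [Prod.mk.injEq]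
      exact ⟨rfl, hG1 t w⟩
    · rintro ⟨t, w⟩
      show (t, G t w - σ t • v (G t w)) = (t, w)
      rw [Prod.mk.injEq]
      exact ⟨rfl, hG2 t w⟩
    · rintro ⟨t, w⟩ ⟨τ, y⟩ h
      have hdv : HasFDerivAt v (fderiv ℝ v w) w := (hv.differentiable (by simp) w).hasFDerivAt
      have hds : HasFDerivAt σ (fderiv ℝ σ t) t := (hσ.differentiable (by simp) t).hasFDerivAt
      have h1 : HasFDerivAt (fun p : ℝ × E => σ p.1)
          ((fderiv ℝ σ t).comp (ContinuousLinearMap.fst ℝ ℝ E)) (t, w) :=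
        HasFDerivAt.comp (g := σ) (f := Prod.fst) (t, w) hds hasFDerivAt_fst
      have h2 : HasFDerivAt (fun p : ℝ × E => v p.2)
          ((fderiv ℝ v w).comp (ContinuousLinearMap.snd ℝ ℝ E)) (t, w) :=
        HasFDerivAt.comp (g := v) (f := Prod.snd) (t, w) hdv hasFDerivAt_snd
      have h3 := h1.smul h2
      have h4 : HasFDerivAt H _ (t, w) :=
        (hasFDerivAt_fst (𝕜 := ℝ) (E := ℝ) (F := E)).prodMk
          ((hasFDerivAt_snd (𝕜 := ℝ) (E := ℝ) (F := E)).sub h3)
      rw [h4.fderiv] at h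
      have e1 : τ = 0 := by
        have := congrArg Prod.fst h
        simpa using this
      subst e1
      have e2 : y - fderiv ℝ (fun w => σ t • v w) w y = 0 := by
        have h5 : HasFDerivAt (fun w => σ t • v w) (σ t • fderiv ℝ v w) w := hdv.const_smul (σ t)
        rw [h5.fderiv]
        have := congrArg Prod.snd h
        simpa using this
      have e3 := pert_deriv hκ (hls t) w y e2
      rw [e3]
      rfl
  exact contDiff_snd.comp hs

end H518SY
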