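import Mathlib
import Pool.Agent.H518R3.SY2

/-! Groups of compactly supported maps preserving a bilinear form: definitions, topology,
and the Cayley path. -/

set_option linter.all false

namespace H518SY

open Function Set Filter TopologicalSpace
open scoped Topology NNReal ContDiff

variable {E : Type*} [NormedAddCommGroup E] [NormedSpace ℝ E]

/-- `φ` is a smooth diffeomorphism of `E` preserving the bilinear form `om`. -/
structure IsSympl (om : E →ₗ[ℝ] E →ₗ[ℝ] ℝ) (φ : E → E) : Prop where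
  smooth : ContDiff ℝ ∞ φ
  inv : ∃ ψ : E → E, ContDiff ℝ ∞ ψ ∧ LeftInverse ψ φ ∧ RightInverse ψ φ
  pres : ∀ z x y, om (fderiv ℝ φ z x) (fderiv ℝ φ z y) = om x y

/-- The `om`-preserving diffeomorphisms which are the identity outside `K`. -/
def GK (om : E →ₗ[ℝ] E →ₗ[ℝ] ℝ) (K : Compacts E) : Type _ :=
  {φ : E → E // IsSympl om φ ∧ ∀ z, z ∉ K → φ z = z}

/-- The `om`-preserving diffeomorphisms which are the identity outside some compact set. -/
def G (om : E →ₗ[ℝ] E →ₗ[ℝ] ℝ) : Type _ :=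
  {φ : E → E // IsSympl om φ ∧ ∃ K : Compacts E, ∀ z, z ∉ K → φ z = z}

/-- The `k`-th total derivative of `φ` as a continuous map. -/
noncomputable def jet {om : E →ₗ[ℝ] E →ₗ[ℝ] ℝ} {K : Compacts E} (k : ℕ) (φ : GK om K) :
    C(E, E [×k]→L[ℝ] E) :=
  ⟨iteratedFDeriv ℝ k φ.1, φ.2.1.smooth.continuous_iteratedFDeriv (by exact_mod_cast le_top)⟩

/-- The `C^∞` topology: all derivatives converge uniformly on compact sets. -/
noncomputable instance (om : E →ₗ[ℝ] E →ₗ[ℝ] ℝ) (K : Compacts E) :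
    TopologicalSpace (GK om K) :=
  ⨅ k : ℕ, TopologicalSpace.induced (jet (om := om) (K := K) k) inferInstance

/-- Inclusion of the subgroup supported in `K`. -/
def incl (om : E →ₗ[ℝ] E →ₗ[ℝ] ℝ) (K : Compacts E) (φ : GK om K) : G om :=
  ⟨φ.1, φ.2.1, K, φ.2.2⟩

/-- The direct limit topology over all compact sets. -/
noncomputable instance (om : E →ₗ[ℝ] E →ₗ[ℝ] ℝ) : TopologicalSpace (G om) :=
  ⨆ K : Compacts E, TopologicalSpace.coinduced (incl om K) inferInstance

theorem continuous_incl (om : E →ₗ[ℝ] E →ₗ[ℝ] ℝ) (K : Compacts E) :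
    Continuous (incl om K) := by
  rw [continuous_iff_coinduced_le]
  exact le_iSup (fun K : Compacts E => TopologicalSpace.coinduced (incl om K) inferInstance) K

theorem continuous_jet {om : E →ₗ[ℝ] E →ₗ[ℝ] ℝ} {K : Compacts E} (k : ℕ) :
    Continuous (jet (om := om) (K := K) k) := by
  rw [continuous_iff_le_induced]
  exact iInf_le (fun k : ℕ => TopologicalSpace.induced (jet (om := om) (K := K) k)
    inferInstance) k

theorem continuous_to_GK {X : Type*} [TopologicalSpace X] {om : E →ₗ[ℝ] E →ₗ[ℝ] ℝ}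
    {K : Compacts E} {f : X → GK om K} (h : ∀ k, Continuous fun x => jet k (f x)) :
    Continuous f := by
  rw [continuous_iInf_rng]
  intro k
  rw [continuous_induced_rng]
  exact h k

theorem IsSympl.comp {om : E →ₗ[ℝ] E →ₗ[ℝ] ℝ} {φ ψ : E → E} (h1 : IsSympl om φ)
    (h2 : IsSympl om ψ) : IsSympl om (fun z => φ (ψ z)) := by
  refine ⟨h1.smooth.comp h2.smooth, ?_, ?_⟩
  · obtain ⟨a, ha, ha1, ha2⟩ := h1.inv
    obtain ⟨b, hb, hb1, hb2⟩ := h2.inv
    refine ⟨fun z => b (a z), hb.comp ha, ?_, ?_⟩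
    · intro z
      show b (a (φ (ψ z))) = z
      rw [ha1, hb1]
    · intro z
      show φ (ψ (b (a z))) = z
      rw [hb2, ha2]
  · intro z x y
    have h : HasFDerivAt (fun z => φ (ψ z)) ((fderiv ℝ φ (ψ z)).comp (fderiv ℝ ψ z)) z :=
      HasFDerivAt.comp z (h1.smooth.differentiable (by simp) _).hasFDerivAt
        (h2.smooth.differentiable (by simp) _).hasFDerivAt
    rw [h.fderiv]
    simp only [ContinuousLinearMap.comp_apply]
    rw [h1.pres, h2.pres]

theorem IsSympl.symm {om : E →ₗ[ℝ] E →ₗ[ℝ] ℝ} {φ ψ : E → E} (h1 : IsSympl om φ)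
    (hψ : ContDiff ℝ ∞ ψ) (hl : LeftInverse ψ φ) (hr : RightInverse ψ φ) : IsSympl om ψ := by
  refine ⟨hψ, ⟨φ, h1.smooth, hr, hl⟩, ?_⟩
  intro z x y
  have h : HasFDerivAt (fun z => φ (ψ z)) ((fderiv ℝ φ (ψ z)).comp (fderiv ℝ ψ z)) z :=
    HasFDerivAt.comp z (h1.smooth.differentiable (by simp) _).hasFDerivAt
      (hψ.differentiable (by simp) _).hasFDerivAt
  have h2 : (fun z => φ (ψ z)) = fun z => z := funext hr
  rw [h2] at h
  have h3 := h.unique (hasFDerivAt_id z)
  have h4 : ∀ x, fderiv ℝ φ (ψ z) (fderiv ℝ ψ z x) = x := by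
    intro x
    have := congrArg (fun L : E →L[ℝ] E => L x) h3
    simpa using this
  rw [← h1.pres (ψ z), h4, h4]

/-- Slices of a jointly smooth family depend continuously on the parameter in all
derivatives. -/
theorem continuous_slice {Φ : ℝ × E → E} (hΦ : ContDiff ℝ ∞ Φ) (k : ℕ) :
    Continuous fun p : ℝ × E => iteratedFDeriv ℝ k (fun z => Φ (p.1, z)) p.2 := by
  have key : ∀ p : ℝ × E, iteratedFDeriv ℝ k (fun z => Φ (p.1, z)) p.2 =
      (iteratedFDeriv ℝ k Φ p).compContinuousLinearMap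
        (fun _ => ContinuousLinearMap.inr ℝ ℝ E) := by
    rintro ⟨t, z⟩
    have h1 : (fun z => Φ (t, z)) =
        (fun q => Φ (q + (t, 0))) ∘ (ContinuousLinearMap.inr ℝ ℝ E) := by
      funext z
      simp
    have hs : ContDiff ℝ ∞ (fun q : ℝ × E => Φ (q + (t, 0))) :=
      hΦ.comp (contDiff_id.add contDiff_const)
    simp only []
    rw [h1, ContinuousLinearMap.iteratedFDeriv_comp_right _ hs z
      (i := k) (by exact_mod_cast le_top)]
    rw [iteratedFDeriv_comp_add_right]
    congr 2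
    simp
  simp_rw [key]
  have hc : Continuous (iteratedFDeriv ℝ k Φ) :=
    hΦ.continuous_iteratedFDeriv (by exact_mod_cast le_top)
  exact (ContinuousMultilinearMap.compContinuousLinearMapL (𝕜 := ℝ) (F := E)
    (fun _ : Fin k => ContinuousLinearMap.inr ℝ ℝ E)).continuous.comp hc

end H518SY
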