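import Mathlib
import Pool.Agent.H518R3.SY3

/-! Joining nearby maps. -/

set_option linter.all false

namespace H518SY

open Function Set Filter TopologicalSpace
open scoped Topology NNReal ContDiff

variable {E : Type*} [NormedAddCommGroup E] [NormedSpace ℝ E] [FiniteDimensional ℝ E]

theorem neg_inverse {v : E → E} {σ : ℝ → ℝ} {g g' : ℝ × E → E}
    (hg1 : ∀ t z, g (t, z) - σ t • v (g (t, z)) = z)
    (hg2' : ∀ t w, g' (t, w - σ t • (-v w)) = w) (t : ℝ) (z : E) :
    (2 : ℝ) • g' (t, (2 : ℝ) • g (t, z) - z) - ((2 : ℝ) • g (t, z) - z) = z := by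
  set w := g (t, z) with hw
  have e1 := hg1 t z
  rw [← hw] at e1
  have e2 : (2 : ℝ) • w - z = w - σ t • (-v w) := by
    rw [smul_neg, sub_neg_eq_add, two_smul]
    nth_rewrite 1 [← e1]
    abel
  rw [e2, hg2' t w]
  rw [smul_neg, sub_neg_eq_add, two_smul]
  calc w + w - (w + σ t • v w) = w - σ t • v w := by abel
    _ = z := e1

theorem cayley_path {om : E →ₗ[ℝ] E →ₗ[ℝ] ℝ} {θ φ : E → E} {K : Compacts E}
    (hθ : IsSympl om θ) (hφ : IsSympl om φ) (hθK : ∀ z, z ∉ K → θ z = z)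
    (hφK : ∀ z, z ∉ K → φ z = z) {c : ℝ} (hc : c < 1)
    (hD : ∀ z, ‖fderiv ℝ θ z - ContinuousLinearMap.id ℝ E‖ ≤ c) :
    ∃ K' : Compacts E, ∃ γ : ℝ → GK om K', Continuous γ ∧ (γ 0).1 = φ ∧
      (γ 1).1 = fun z => θ (φ z) := by
  obtain ⟨v, hv, ⟨κ, hκ, hl⟩, hθv, hsupp⟩ := exists_v hθ.smooth hc hD
  have hskew := fun y a b => skew_of (om := om) hθ.smooth hθ.pres hv hθv y a b
  set σ : ℝ → ℝ := Real.smoothTransition with hσ
  have hσs : ContDiff ℝ ∞ σ := Real.smoothTransition.contDiff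
  have hσ1 : ∀ t, |σ t| ≤ 1 := fun t => by
    rw [abs_of_nonneg (Real.smoothTransition.nonneg t)]
    exact Real.smoothTransition.le_one t
  obtain ⟨g, hgs, hg1, hg2⟩ := exists_g hv hκ hl σ hσs hσ1
  have hl' : LipschitzWith κ (fun y => -v y) := by
    apply LipschitzWith.of_dist_le_mul
    intro x y
    have := hl.dist_le_mul x y
    rwa [dist_neg_neg]
  obtain ⟨g', hgs', hg1', hg2'⟩ := exists_g hv.neg hκ hl' σ hσs hσ1
  set Γ : ℝ × E → E := fun p => (2 : ℝ) • g p - p.2 with hΓ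
  set Γ' : ℝ × E → E := fun p => (2 : ℝ) • g' p - p.2 with hΓ'
  have hΓs : ContDiff ℝ ∞ Γ := (hgs.const_smul _).sub contDiff_snd
  have hΓs' : ContDiff ℝ ∞ Γ' := (hgs'.const_smul _).sub contDiff_snd
  have hslice : ∀ {f : ℝ × E → E}, ContDiff ℝ ∞ f → ∀ t, ContDiff ℝ ∞ (fun z => f (t, z)) :=
    fun {f} hf t => hf.comp (contDiff_const.prodMk contDiff_id)
  have hinv1 : ∀ t z, Γ' (t, Γ (t, z)) = z := fun t z =>
    neg_inverse (v := v) (σ := σ) (g := g) (g' := g') hg1 hg2' t z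
  have hinv2 : ∀ t z, Γ (t, Γ' (t, z)) = z := fun t z =>
    neg_inverse (v := fun y => -v y) (σ := σ) (g := g') (g' := g) hg1'
      (by intro t w; rw [neg_neg]; exact hg2 t w) t z
  have hpres : ∀ t z x y, om (fderiv ℝ (fun z => Γ (t, z)) z x)
      (fderiv ℝ (fun z => Γ (t, z)) z y) = om x y := by
    intro t z x y
    have hgd : HasFDerivAt (fun z => g (t, z)) (fderiv ℝ (fun z => g (t, z)) z) z :=
      ((hslice hgs t).differentiable (by simp) z).hasFDerivAt
    set D := fderiv ℝ (fun z => g (t, z)) z with hDdef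
    have h1 : HasFDerivAt (fun z => Γ (t, z)) ((2 : ℝ) • D - ContinuousLinearMap.id ℝ E) z :=
      (hgd.const_smul (2 : ℝ)).sub (hasFDerivAt_id z)
    have hvd : HasFDerivAt v (fderiv ℝ v (g (t, z))) (g (t, z)) :=
      (hv.differentiable (by simp) _).hasFDerivAt
    have h2 : HasFDerivAt (fun z => g (t, z) - σ t • v (g (t, z)))
        (D - σ t • (fderiv ℝ v (g (t, z))).comp D) z :=
      hgd.sub ((HasFDerivAt.comp (g := v) (f := fun z => g (t, z)) z hvd hgd).const_smul (σ t))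
    have h3 : (fun z => g (t, z) - σ t • v (g (t, z))) = fun z => z := funext (hg1 t)
    rw [h3] at h2
    have h4 := h2.unique (hasFDerivAt_id z)
    have h5 : ∀ a, D a - σ t • fderiv ℝ v (g (t, z)) (D a) = a := by
      intro a
      have := congrArg (fun L : E →L[ℝ] E => L a) h4
      simpa using this
    have h6 : ∀ a, fderiv ℝ (fun z => Γ (t, z)) z a =
        D a + σ t • fderiv ℝ v (g (t, z)) (D a) := by
      intro a
      rw [h1.fderiv]
      have := h5 a
      simp only [ContinuousLinearMap.sub_apply, ContinuousLinearMap.smul_apply,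
        ContinuousLinearMap.id_apply]
      rw [two_smul]
      nth_rewrite 3 [← this]
      abel
    rw [h6, h6]
    conv_rhs => rw [← h5 x, ← h5 y]
    have h7 := hskew (g (t, z)) (D x) (D y)
    simp only [map_add, map_sub, map_smul, LinearMap.add_apply, LinearMap.sub_apply,
      LinearMap.smul_apply, smul_eq_mul]
    linear_combination (2 * σ t) * h7
  have hΓG : ∀ t, IsSympl om (fun z => Γ (t, z)) := fun t =>
    ⟨hslice hΓs t, ⟨fun z => Γ' (t, z), hslice hΓs' t, hinv1 t, hinv2 t⟩, hpres t⟩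
  -- the support
  set L : Set E := (fun z => (2⁻¹ : ℝ) • (z + θ z)) '' (K : Set E) with hL
  have hLc : IsCompact L := K.isCompact.image
    ((continuous_id.add hθ.smooth.continuous).const_smul _)
  set K' : Compacts E := K ⊔ ⟨L, hLc⟩ with hK'
  have hmem : ∀ z, z ∉ K' → z ∉ K ∧ z ∉ L := by
    intro z hz
    rw [hK'] at hz
    have : z ∉ ((K ⊔ ⟨L, hLc⟩ : Compacts E) : Set E) := hz
    rw [Compacts.coe_sup] at this
    exact ⟨fun h => this (Or.inl h), fun h => this (Or.inr h)⟩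
  have hΓsupp : ∀ t z, z ∉ L → Γ (t, z) = z := by
    intro t z hz
    have h0 : v z = 0 := hsupp (K : Set E) hθK z hz
    have h1 := hg2 t z
    rw [h0, smul_zero, sub_zero] at h1
    show (2 : ℝ) • g (t, z) - z = z
    rw [h1, two_smul]
    abel
  have hprop : ∀ t, IsSympl om (fun z => Γ (t, φ z)) ∧ ∀ z, z ∉ K' → Γ (t, φ z) = z := by
    intro t
    refine ⟨(hΓG t).comp hφ, ?_⟩
    intro z hz
    obtain ⟨h1, h2⟩ := hmem z hz
    rw [hφK z h1]
    exact hΓsupp t z h2
  refine ⟨K', fun t => ⟨fun z => Γ (t, φ z), hprop t⟩, ?_, ?_, ?_⟩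
  · apply continuous_to_GK
    intro k
    apply ContinuousMap.continuous_of_continuous_uncurry
    have hs : ContDiff ℝ ∞ (fun p : ℝ × E => Γ (p.1, φ p.2)) :=
      hΓs.comp (contDiff_fst.prodMk (hφ.smooth.comp contDiff_snd))
    exact continuous_slice hs k
  · funext z
    show Γ (0, φ z) = φ z
    have h1 := hg2 0 (φ z)
    have h0 : σ 0 = 0 := Real.smoothTransition.zero
    rw [h0, zero_smul, sub_zero] at h1
    show (2 : ℝ) • g (0, φ z) - φ z = φ z
    rw [h1, two_smul]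
    abel
  · funext z
    show (2 : ℝ) • g (1, φ z) - φ z = θ (φ z)
    have h0 : σ 1 = 1 := Real.smoothTransition.one
    have h1 := hg1 1 (φ z)
    rw [h0, one_smul] at h1
    have h2 := hθv (g (1, φ z))
    rw [h1] at h2
    rw [h2, two_smul]
    nth_rewrite 3 [← h1]
    abel

theorem joined_of_near {om : E →ₗ[ℝ] E →ₗ[ℝ] ℝ} {K : Compacts E} (φ ψ : GK om K)
    {θ : E → E} (hθ : IsSympl om θ) (hθK : ∀ z, z ∉ K → θ z = z)
    (hψ : ∀ z, ψ.1 z = θ (φ.1 z)) {c : ℝ} (hc : c < 1)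
    (hD : ∀ z, ‖fderiv ℝ θ z - ContinuousLinearMap.id ℝ E‖ ≤ c) :
    Joined (incl om K φ) (incl om K ψ) := by
  obtain ⟨K', γ, hγ, h0, h1⟩ := cayley_path hθ φ.2.1 hθK φ.2.2 hc hD
  refine ⟨⟨⟨fun t => incl om K' (γ t), ?_⟩, ?_, ?_⟩⟩
  · exact (continuous_incl om K').comp (hγ.comp continuous_subtype_val)
  · apply Subtype.ext
    show (γ ((0 : unitInterval) : ℝ)).1 = φ.1
    have e : ((0 : unitInterval) : ℝ) = 0 := rfl
    rw [e, h0]
  · apply Subtype.ext
    show (γ ((1 : unitInterval) : ℝ)).1 = ψ.1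
    have e : ((1 : unitInterval) : ℝ) = 1 := rfl
    rw [e, h1]
    funext z
    exact (hψ z).symm

end H518SY
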