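import Mathlib
import Pool.Agent.H518R3.SY4

/-! Countability of the set of path components. -/

set_option linter.all false

namespace H518SY

open Function Set Filter TopologicalSpace
open scoped Topology NNReal ContDiff

variable {E : Type*} [NormedAddCommGroup E] [NormedSpace ℝ E] [FiniteDimensional ℝ E]

theorem finDim_cmm (k : ℕ) : FiniteDimensional ℝ (E [×k]→L[ℝ] E) := by
  let T : (E [×k]→L[ℝ] E) →ₗ[ℝ] MultilinearMap ℝ (fun _ : Fin k => E) E :=
    { toFun := fun f => f.toMultilinearMap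
      map_add' := fun _ _ => rfl
      map_smul' := fun _ _ => rfl }
  have : Injective T := fun a b h =>
    ContinuousMultilinearMap.toMultilinearMap_injective h
  exact Module.Finite.of_injective T this

theorem secondCountable_cmm (k : ℕ) : SecondCountableTopology (E [×k]→L[ℝ] E) := by
  haveI := finDim_cmm (E := E) k
  haveI : ProperSpace (E [×k]→L[ℝ] E) := FiniteDimensional.proper ℝ _
  infer_instance

theorem secondCountable_GK (om : E →ₗ[ℝ] E →ₗ[ℝ] ℝ) (K : Compacts E) :
    SecondCountableTopology (GK om K) := by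
  haveI : ProperSpace E := FiniteDimensional.proper ℝ E
  refine @secondCountableTopology_iInf _ _ _ _ ?_
  intro k
  haveI := secondCountable_cmm (E := E) k
  exact secondCountableTopology_induced _ _ _

theorem norm_fderiv_sub_le {f g : E → E} (z : E) :
    ‖fderiv ℝ f z - fderiv ℝ g z‖ ≤ ‖iteratedFDeriv ℝ 1 f z - iteratedFDeriv ℝ 1 g z‖ := by
  apply ContinuousLinearMap.opNorm_le_bound _ (norm_nonneg _)
  intro m
  have h1 : (fderiv ℝ f z - fderiv ℝ g z) m =
      (iteratedFDeriv ℝ 1 f z - iteratedFDeriv ℝ 1 g z) (fun _ => m) := by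
    simp [iteratedFDeriv_one_apply]
  rw [h1]
  have := (iteratedFDeriv ℝ 1 f z - iteratedFDeriv ℝ 1 g z).le_opNorm (fun _ => m)
  simpa using this

/-- Every map has a neighbourhood all of whose elements are joined to it. -/
theorem nhds_joined {om : E →ₗ[ℝ] E →ₗ[ℝ] ℝ} {K : Compacts E} (φ : GK om K) :
    {ψ : GK om K | Joined (incl om K φ) (incl om K ψ)} ∈ 𝓝 φ := by
  obtain ⟨η, hη, hη1, hη2⟩ := φ.2.1.inv
  have hηK : ∀ z, z ∉ K → η z = z := by
    intro z hz
    have := hη1 z
    rwa [φ.2.2 z hz] at this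
  have hηS : IsSympl om η := φ.2.1.symm hη hη1 hη2
  -- bound for the derivative of the inverse
  have hcont : Continuous (fun z => ‖fderiv ℝ η z‖) :=
    (hη.continuous_fderiv (by simp)).norm
  obtain ⟨C, hC⟩ : ∃ C : ℝ, ∀ z ∈ (K : Set E), ‖fderiv ℝ η z‖ ≤ C := by
    obtain ⟨C, hC⟩ := (K.isCompact.image hcont).bddAbove
    exact ⟨C, fun z hz => hC ⟨z, hz, rfl⟩⟩
  set C' : ℝ := max C 1 with hC'
  have hC'1 : 1 ≤ C' := le_max_right _ _
  have hC'C : ∀ z ∈ (K : Set E), ‖fderiv ℝ η z‖ ≤ C' := fun z hz =>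
    (hC z hz).trans (le_max_left _ _)
  set δ : ℝ := 1 / (2 * C') with hδ
  have hδ0 : 0 < δ := by positivity
  -- the neighbourhood
  haveI : CompactSpace (K : Set E) := isCompact_iff_compactSpace.mp K.isCompact
  set r : GK om K → C((K : Set E), E [×1]→L[ℝ] E) := fun ψ =>
    (jet 1 ψ).restrict (K : Set E) with hr
  have hrc : Continuous r := (ContinuousMap.continuous_restrict (K : Set E)).comp (continuous_jet 1)
  have hnb : {ψ : GK om K | dist (r ψ) (r φ) < δ} ∈ 𝓝 φ := by
    have : IsOpen {ψ : GK om K | dist (r ψ) (r φ) < δ} :=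
      isOpen_lt (hrc.dist continuous_const) continuous_const
    apply this.mem_nhds
    show dist (r φ) (r φ) < δ
    rw [dist_self]
    exact hδ0
  refine mem_of_superset hnb ?_
  intro ψ hψ
  have hd : ∀ z ∈ (K : Set E), ‖fderiv ℝ ψ.1 z - fderiv ℝ φ.1 z‖ ≤ δ := by
    intro z hz
    have h1 : dist ((r ψ) ⟨z, hz⟩) ((r φ) ⟨z, hz⟩) ≤ dist (r ψ) (r φ) :=
      ContinuousMap.dist_apply_le_dist _
    have h2 : dist ((r ψ) ⟨z, hz⟩) ((r φ) ⟨z, hz⟩) =
        ‖iteratedFDeriv ℝ 1 ψ.1 z - iteratedFDeriv ℝ 1 φ.1 z‖ := by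
      rw [dist_eq_norm]
      rfl
    have h3 : dist (r ψ) (r φ) < δ := hψ
    calc _ ≤ _ := norm_fderiv_sub_le z
      _ = _ := h2.symm
      _ ≤ _ := h1
      _ ≤ δ := h3.le
  have hθ : IsSympl om (fun z => ψ.1 (η z)) := ψ.2.1.comp hηS
  have hηK' : ∀ z ∈ (K : Set E), η z ∈ (K : Set E) := by
    intro z hz
    by_contra h
    have h1 := φ.2.2 (η z) h
    rw [hη2 z] at h1
    rw [← h1] at h
    exact h hz
  refine joined_of_near φ ψ (θ := fun z => ψ.1 (η z)) hθ ?_ ?_ (c := 1 / 2) (by norm_num) ?_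
  · intro z hz
    show ψ.1 (η z) = z
    rw [hηK z hz, ψ.2.2 z hz]
  · intro z
    show ψ.1 z = ψ.1 (η (φ.1 z))
    rw [hη1 z]
  · intro z
    have hder : HasFDerivAt (fun z => ψ.1 (η z))
        ((fderiv ℝ ψ.1 (η z)).comp (fderiv ℝ η z)) z :=
      HasFDerivAt.comp z (ψ.2.1.smooth.differentiable (by simp) _).hasFDerivAt
        (hη.differentiable (by simp) _).hasFDerivAt
    have hder2 : HasFDerivAt (fun z => φ.1 (η z))
        ((fderiv ℝ φ.1 (η z)).comp (fderiv ℝ η z)) z :=
      HasFDerivAt.comp z (φ.2.1.smooth.differentiable (by simp) _).hasFDerivAt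
        (hη.differentiable (by simp) _).hasFDerivAt
    have h2 : (fun z => φ.1 (η z)) = fun z => z := funext hη2
    rw [h2] at hder2
    have h3 := hder2.unique (hasFDerivAt_id z)
    by_cases hz : z ∈ (K : Set E)
    · rw [hder.fderiv, ← h3, ← ContinuousLinearMap.sub_comp]
      calc ‖(fderiv ℝ ψ.1 (η z) - fderiv ℝ φ.1 (η z)).comp (fderiv ℝ η z)‖
          ≤ ‖fderiv ℝ ψ.1 (η z) - fderiv ℝ φ.1 (η z)‖ * ‖fderiv ℝ η z‖ :=
            ContinuousLinearMap.opNorm_comp_le _ _
        _ ≤ δ * C' := mul_le_mul (hd _ (hηK' z hz)) (hC'C z hz) (norm_nonneg _) hδ0.le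
        _ = 1 / 2 := by
            rw [hδ]
            field_simp
    · have hopen : IsOpen ((K : Set E)ᶜ) := K.isCompact.isClosed.isOpen_compl
      have heq : (fun z => ψ.1 (η z)) =ᶠ[𝓝 z] fun z => z := by
        filter_upwards [hopen.mem_nhds hz] with w hw
        show ψ.1 (η w) = w
        rw [hηK w hw, ψ.2.2 w hw]
      have hid : fderiv ℝ (fun z : E => z) z = ContinuousLinearMap.id ℝ E :=
        (hasFDerivAt_id z).fderiv
      rw [heq.fderiv_eq, hid, sub_self, norm_zero]
      norm_num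

theorem countable_components (om : E →ₗ[ℝ] E →ₗ[ℝ] ℝ) : Countable (ZerothHomotopy (G om)) := by
  haveI : ProperSpace E := FiniteDimensional.proper ℝ E
  let B : ℕ → Compacts E := fun j => ⟨Metric.closedBall (0 : E) j, isCompact_closedBall 0 j⟩
  have h1 : ∀ j, (range fun φ : GK om (B j) => ZerothHomotopy.mk (incl om (B j) φ)).Countable := by
    intro j
    haveI := secondCountable_GK om (B j)
    obtain ⟨s, hs, hsu⟩ := TopologicalSpace.countable_cover_nhds
      (f := fun φ : GK om (B j) => {ψ | Joined (incl om (B j) φ) (incl om (B j) ψ)})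
      (fun φ => nhds_joined φ)
    refine (hs.image (fun φ => ZerothHomotopy.mk (incl om (B j) φ))).mono ?_
    rintro _ ⟨ψ, rfl⟩
    have : ψ ∈ ⋃ x ∈ s, {ψ | Joined (incl om (B j) x) (incl om (B j) ψ)} := by
      rw [hsu]; trivial
    rw [mem_iUnion₂] at this
    obtain ⟨φ, hφ, hj⟩ := this
    exact ⟨φ, hφ, Quotient.sound hj⟩
  have h2 : (univ : Set (ZerothHomotopy (G om))) ⊆
      ⋃ j, range fun φ : GK om (B j) => ZerothHomotopy.mk (incl om (B j) φ) := by
    intro x _
    obtain ⟨φ, rfl⟩ := ZerothHomotopy.mk_surjective x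
    obtain ⟨K, hK⟩ := φ.2.2
    obtain ⟨R, hR⟩ := K.isCompact.isBounded.subset_closedBall (0 : E)
    obtain ⟨j, hj⟩ := exists_nat_ge R
    rw [mem_iUnion]
    refine ⟨j, ⟨φ.1, φ.2.1, ?_⟩, ?_⟩
    · intro z hz
      apply hK
      intro h
      exact hz (Metric.closedBall_subset_closedBall hj (hR h))
    · rfl
  rw [← Set.countable_univ_iff]
  exact (Set.countable_iUnion h1).mono h2

end H518SY
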