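import Mathlib
import Pool.Agent.H518R3.SY5

/-! A spectral criterion for being isotopic to the identity. -/

set_option linter.all false

namespace H518SY

open Function Set Filter TopologicalSpace
open scoped Topology NNReal ContDiff

variable {E : Type*} [NormedAddCommGroup E] [NormedSpace ℝ E] [FiniteDimensional ℝ E]

theorem exists_oph {F : E → E} (hF : ContDiff ℝ ∞ F)
    (hD : ∀ x y, fderiv ℝ F x y = 0 → y = 0) (a : E) :
    ∃ e : OpenPartialHomeomorph E E, a ∈ e.source ∧ (e : E → E) = F := by
  obtain ⟨L, hL⟩ := equiv_of_inj (fderiv ℝ F a) (hD a)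
  have hd : HasFDerivAt F (L : E →L[ℝ] E) a := by
    rw [hL]
    exact (hF.differentiable (by simp)).differentiableAt.hasFDerivAt
  exact ⟨hF.contDiffAt.toOpenPartialHomeomorph F hd (by simp),
    hF.contDiffAt.mem_toOpenPartialHomeomorph_source hd (by simp), rfl⟩

/-- Hadamard's theorem for maps equal to the identity outside a compact set. -/
theorem hadamard {F : E → E} (hF : ContDiff ℝ ∞ F)
    (hD : ∀ x y, fderiv ℝ F x y = 0 → y = 0) {K : Set E} (hK : IsCompact K)
    (hid : ∀ z, z ∉ K → F z = z) : Bijective F := by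
  haveI : ProperSpace E := FiniteDimensional.proper ℝ E
  have hc : Continuous F := hF.continuous
  have hlh : IsLocalHomeomorph F := by
    apply IsLocalHomeomorph.mk
    intro x
    obtain ⟨e, he, hF'⟩ := exists_oph hF hD x
    exact ⟨e, he, fun y _ => by rw [hF']⟩
  have hom : IsOpenMap F := hlh.isOpenMap
  have hpre : ∀ (C : Set E) (z : E), F z ∈ C → z ∈ K ∪ C := by
    intro C z hz
    by_cases h : z ∈ K
    · exact Or.inl h
    · right
      rwa [hid z h] at hz
  have hclos : ∀ (A : Set E), (∀ y : E, IsClosed (A ∩ Metric.closedBall y 1)) → IsClosed A := by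
    intro A h
    apply isClosed_of_closure_subset
    intro y hy
    have h1 : y ∈ closure (A ∩ Metric.closedBall y 1) := by
      rw [mem_closure_iff_nhds] at hy ⊢
      intro t ht
      obtain ⟨x, ⟨hx1, hx2⟩, hx3⟩ := hy (t ∩ Metric.closedBall y 1)
        (Filter.inter_mem ht (Metric.closedBall_mem_nhds y one_pos))
      exact ⟨x, hx1, hx3, hx2⟩
    rw [(h y).closure_eq] at h1
    exact h1.1
  constructor
  · -- injectivity
    rcases subsingleton_or_nontrivial E with hs | hs
    · exact injective_of_subsingleton F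
    set P : Set (E × E) := {p | F p.1 = F p.2 ∧ p.1 ≠ p.2} with hP
    have hPc : IsClosed P := by
      rw [← isOpen_compl_iff, isOpen_iff_mem_nhds]
      rintro ⟨a, b⟩ hab
      by_cases h : F a = F b
      · have hab' : a = b := by
          by_contra hne
          exact hab ⟨h, hne⟩
        subst hab'
        obtain ⟨e, he, hFe⟩ := exists_oph hF hD a
        have h1 : e.source ×ˢ e.source ∈ 𝓝 (a, a) :=
          prod_mem_nhds (e.open_source.mem_nhds he) (e.open_source.mem_nhds he)
        refine mem_of_superset h1 ?_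
        rintro ⟨x, y⟩ ⟨hx, hy⟩ ⟨h2, h3⟩
        rw [← hFe] at h2
        exact h3 (e.injOn hx hy h2)
      · have h1 : IsOpen {p : E × E | F p.1 ≠ F p.2} :=
          isOpen_ne_fun (hc.comp continuous_fst) (hc.comp continuous_snd)
        refine mem_of_superset (h1.mem_nhds h) ?_
        rintro p hp ⟨h2, _⟩
        exact hp h2
    set A : Set E := (fun p : E × E => F p.1) '' P with hA
    have hAo : IsOpen A := by
      rw [isOpen_iff_mem_nhds]
      rintro _ ⟨⟨a, b⟩, ⟨h1, h2⟩, rfl⟩
      obtain ⟨U, V, hU, hV, haU, hbV, hUV⟩ := t2_separation h2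
      have h3 : F '' U ∩ F '' V ∈ 𝓝 (F a) := by
        apply Filter.inter_mem
        · exact hom.image_mem_nhds (hU.mem_nhds haU)
        · show F '' V ∈ 𝓝 (F a)
          have h1' : F a = F b := h1
          rw [h1']
          exact hom.image_mem_nhds (hV.mem_nhds hbV)
      refine mem_of_superset h3 ?_
      rintro y ⟨⟨a', ha', rfl⟩, ⟨b', hb', hb''⟩⟩
      refine ⟨(a', b'), ⟨hb''.symm, ?_⟩, rfl⟩
      rintro (h : a' = b')
      subst h
      exact Set.disjoint_left.mp hUV ha' hb'
    have hAc : IsClosed A := by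
      apply hclos
      intro y
      set C := Metric.closedBall y 1 with hC
      have hCc : IsCompact C := isCompact_closedBall y 1
      have h1 : IsCompact (P ∩ ((K ∪ C) ×ˢ (K ∪ C)) ∩ (fun p : E × E => F p.1) ⁻¹' C) := by
        have h2 : IsCompact ((K ∪ C) ×ˢ (K ∪ C)) := (hK.union hCc).prod (hK.union hCc)
        exact (h2.inter_left hPc).inter_right
          (hCc.isClosed.preimage (hc.comp continuous_fst))
      have h2 : A ∩ C = (fun p : E × E => F p.1) ''
          (P ∩ ((K ∪ C) ×ˢ (K ∪ C)) ∩ (fun p : E × E => F p.1) ⁻¹' C) := by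
        ext w
        constructor
        · rintro ⟨⟨⟨a, b⟩, hab, rfl⟩, hw⟩
          refine ⟨(a, b), ⟨⟨hab, ⟨hpre C a hw, hpre C b ?_⟩⟩, hw⟩, rfl⟩
          show F b ∈ C
          rw [← show F a = F b from hab.1]
          exact hw
        · rintro ⟨⟨a, b⟩, ⟨⟨hab, _⟩, hw⟩, rfl⟩
          exact ⟨⟨(a, b), hab, rfl⟩, hw⟩
      rw [h2]
      exact (h1.image (hc.comp continuous_fst)).isClosed
    have hAe : A = ∅ := by
      rcases isClopen_iff.mp ⟨hAc, hAo⟩ with h | h
      · exact h
      · exfalso
        obtain ⟨R, hR⟩ := (hK.union (hK.image hc)).isBounded.subset_closedBall (0 : E)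
        obtain ⟨y, hy⟩ := NormedSpace.exists_lt_norm ℝ E R
        have hy1 : y ∉ K ∪ F '' K := by
          intro h1
          have := hR h1
          rw [mem_closedBall_zero_iff] at this
          linarith
        have hyA : y ∈ A := by rw [h]; trivial
        obtain ⟨⟨a, b⟩, ⟨h1, h2⟩, h3⟩ := hyA
        have h3' : F a = y := h3
        have h4' : F b = y := by rw [← h3']; exact (show F a = F b from h1).symm
        have hz : ∀ x, F x = y → x = y := by
          intro x hx
          by_cases hxK : x ∈ K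
          · exact absurd (Or.inr ⟨x, hxK, hx⟩) hy1
          · rw [← hx, hid x hxK]
        exact h2 ((hz a h3').trans (hz b h4').symm)
    intro a b hab
    by_contra hne
    have : F a ∈ A := ⟨(a, b), ⟨hab, hne⟩, rfl⟩
    rw [hAe] at this
    exact this
  · -- surjectivity
    have hro : IsOpen (range F) := by
      rw [← image_univ]
      exact hom _ isOpen_univ
    have hrc : IsClosed (range F) := by
      apply hclos
      intro y
      set C := Metric.closedBall y 1 with hC
      have hCc : IsCompact C := isCompact_closedBall y 1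
      have h1 : IsCompact ((K ∪ C) ∩ F ⁻¹' C) :=
        (hK.union hCc).inter_right (hCc.isClosed.preimage hc)
      have h2 : range F ∩ C = F '' ((K ∪ C) ∩ F ⁻¹' C) := by
        ext w
        constructor
        · rintro ⟨⟨z, rfl⟩, hw⟩
          exact ⟨z, ⟨hpre C z hw, hw⟩, rfl⟩
        · rintro ⟨z, ⟨_, hw⟩, rfl⟩
          exact ⟨⟨z, rfl⟩, hw⟩
      rw [h2]
      exact (h1.image hc).isClosed
    have := IsClopen.eq_univ ⟨hrc, hro⟩ (range_nonempty F)
    exact range_eq_univ.mp this

theorem exists_v2 {θ : E → E} (hθ : ContDiff ℝ ∞ θ) {K : Set E} (hK : IsCompact K)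
    (hid : ∀ z, z ∉ K → θ z = z)
    (hspec : ∀ z : E, ∀ μ : ℝ, μ ≤ -1 → ∀ x : E, fderiv ℝ θ z x = μ • x → x = 0) :
    ∃ v : E → E, ContDiff ℝ ∞ v ∧
      (∀ y, θ (y - v y) = y + v y) ∧
      (∀ y, y ∉ (fun z => (2⁻¹ : ℝ) • (z + θ z)) '' K → v y = 0) ∧
      (∀ s : ℝ, 0 ≤ s → s ≤ 1 → Bijective fun w => w - s • v w) ∧
      (∀ s : ℝ, 0 ≤ s → s ≤ 1 → ∀ w y, y - s • fderiv ℝ v w y = 0 → y = 0) := by
  set F : E → E := fun z => (2⁻¹ : ℝ) • (z + θ z) with hF
  have hFs : ContDiff ℝ ∞ F := (contDiff_id.add hθ).const_smul _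
  have hFid : ∀ z, z ∉ K → F z = z := by
    intro z hz
    show (2⁻¹ : ℝ) • (z + θ z) = z
    rw [hid z hz, ← two_smul ℝ z, smul_smul]
    norm_num
  have hFD : ∀ x y, fderiv ℝ F x y = 0 → y = 0 := by
    intro x y h
    have h1 : HasFDerivAt F ((2⁻¹ : ℝ) • (ContinuousLinearMap.id ℝ E + fderiv ℝ θ x)) x :=
      ((hasFDerivAt_id x).add (hθ.differentiable (by simp) x).hasFDerivAt).const_smul (2⁻¹ : ℝ)
    rw [h1.fderiv] at h
    have h2 : (2⁻¹ : ℝ) • (y + fderiv ℝ θ x y) = 0 := h
    have h3 : y + fderiv ℝ θ x y = 0 := by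
      rcases smul_eq_zero.mp h2 with h | h
      · norm_num at h
      · exact h
    apply hspec x (-1) le_rfl y
    rw [neg_one_smul]
    exact (eq_neg_of_add_eq_zero_right h3)
  obtain ⟨g, hgF, hFg⟩ := bijective_iff_has_inverse.mp (hadamard hFs hFD hK hFid)
  have hgs : ContDiff ℝ ∞ g := inv_smooth hFs hgF hFg hFD
  have hFK : IsCompact (F '' K) := hK.image hFs.continuous
  set v : E → E := fun y => y - g y with hv
  have hvs : ContDiff ℝ ∞ v := contDiff_id.sub hgs
  have hθv : ∀ y, θ (y - v y) = y + v y := by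
    intro y
    have h1 : y - v y = g y := by rw [hv]; simp
    rw [h1]
    have h2 : (2⁻¹ : ℝ) • (g y + θ (g y)) = y := hFg y
    have h3 : g y + θ (g y) = (2 : ℝ) • y := by
      nth_rewrite 3 [← h2]
      rw [smul_smul]
      norm_num
    have h4 : θ (g y) = (2 : ℝ) • y - g y := by rw [← h3]; abel
    rw [h4]
    show (2 : ℝ) • y - g y = y + (y - g y)
    rw [two_smul]
    abel
  have hvz : ∀ y, y ∉ F '' K → v y = 0 := by
    intro y hy
    have h1 : g y ∉ K := fun h => hy ⟨g y, h, hFg y⟩
    have h2 := hFid _ h1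
    rw [hFg] at h2
    show y - g y = 0
    rw [← h2, sub_self]
  have hinj : ∀ s : ℝ, 0 ≤ s → s ≤ 1 → ∀ w y, y - s • fderiv ℝ v w y = 0 → y = 0 := by
    intro s hs0 hs1 w x h
    -- the identity `A (x - B x) = x + B x`
    have hdv : HasFDerivAt v (fderiv ℝ v w) w := (hvs.differentiable (by simp) w).hasFDerivAt
    have hdθ : HasFDerivAt θ (fderiv ℝ θ (w - v w)) (w - v w) :=
      (hθ.differentiable (by simp) _).hasFDerivAt
    have h1 : HasFDerivAt (fun y => θ (y - v y))
        ((fderiv ℝ θ (w - v w)).comp (ContinuousLinearMap.id ℝ E - fderiv ℝ v w)) w :=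
      HasFDerivAt.comp (f := fun y => y - v y) w hdθ ((hasFDerivAt_id w).sub hdv)
    have h2 : HasFDerivAt (fun y => y + v y) (ContinuousLinearMap.id ℝ E + fderiv ℝ v w) w :=
      (hasFDerivAt_id w).add hdv
    have h3 : (fun y => θ (y - v y)) = fun y => y + v y := funext hθv
    rw [h3] at h1
    have h4 := h1.unique h2
    have h5 : fderiv ℝ θ (w - v w) (x - fderiv ℝ v w x) = x + fderiv ℝ v w x := by
      have := congrArg (fun L : E →L[ℝ] E => L x) h4
      simpa using this
    set A := fderiv ℝ θ (w - v w)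
    set b := fderiv ℝ v w x with hb
    have hx : x = s • b := sub_eq_zero.mp h
    rcases eq_or_lt_of_le hs1 with h6 | h6
    · -- `s = 1`
      rw [h6, one_smul] at hx
      rw [← hx, sub_self, map_zero] at h5
      have : (2 : ℝ) • x = 0 := by rw [two_smul]; exact h5.symm
      rcases smul_eq_zero.mp this with h | h
      · norm_num at h
      · exact h
    · have hs' : 0 < 1 - s := by linarith
      have h7 : A x = (-((1 + s) / (1 - s))) • x := by
        have e1 : A (s • (x - b)) = s • (x + b) := by rw [map_smul, h5]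
        have e2 : s • (x - b) = (s - 1) • x := by
          rw [smul_sub, ← hx, sub_smul, one_smul]
        have e3 : s • (x + b) = (s + 1) • x := by
          rw [smul_add, ← hx, add_smul, one_smul]
        rw [e2, e3, map_smul] at e1
        have hne : (s - 1) ≠ 0 := by linarith
        have e4 : A x = (s - 1)⁻¹ • ((s - 1) • A x) := by
          rw [smul_smul, inv_mul_cancel₀ hne, one_smul]
        rw [e4, e1, smul_smul]
        congr 1
        have : 1 - s ≠ 0 := by linarith
        field_simp
        ring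
      refine hspec (w - v w) _ ?_ x h7
      rw [neg_le_neg_iff, le_div_iff₀ hs']
      linarith
  refine ⟨v, hvs, hθv, hvz, ?_, hinj⟩
  intro s hs0 hs1
  have hs : ContDiff ℝ ∞ (fun w => w - s • v w) := contDiff_id.sub (hvs.const_smul s)
  refine hadamard hs ?_ hFK ?_
  · intro w y h
    have h1 : HasFDerivAt (fun w => w - s • v w)
        (ContinuousLinearMap.id ℝ E - s • fderiv ℝ v w) w :=
      (hasFDerivAt_id w).sub ((hvs.differentiable (by simp) w).hasFDerivAt.const_smul s)
    rw [h1.fderiv] at h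
    exact hinj s hs0 hs1 w y h
  · intro z hz
    show z - s • v z = z
    rw [hvz z hz, smul_zero, sub_zero]

end H518SY
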