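import Mathlib
import Pool.Agent.H518R3.SY6

/-! The path from the identity under the spectral criterion. -/

set_option linter.all false

namespace H518SY

open Function Set Filter TopologicalSpace
open scoped Topology NNReal ContDiff

variable {E : Type*} [NormedAddCommGroup E] [NormedSpace ℝ E] [FiniteDimensional ℝ E]

/-- Joint inverse of the family `w ↦ w - σ t • v w`. -/
theorem exists_g2 {v : E → E} (hv : ContDiff ℝ ∞ v) (σ : ℝ → ℝ) (hσ : ContDiff ℝ ∞ σ)
    (hb : ∀ t, Bijective fun w => w - σ t • v w)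
    (hd : ∀ t w y, y - σ t • fderiv ℝ v w y = 0 → y = 0) :
    ∃ g : ℝ × E → E, ContDiff ℝ ∞ g ∧ (∀ t z, g (t, z) - σ t • v (g (t, z)) = z) ∧
      (∀ t w, g (t, w - σ t • v w) = w) := by
  choose G hG1 hG2 using fun t => bijective_iff_has_inverse.mp (hb t)
  refine ⟨fun p => G p.1 p.2, ?_, fun t z => hG2 t z, fun t w => hG1 t w⟩
  set H : ℝ × E → ℝ × E := fun p => (p.1, p.2 - σ p.1 • v p.2) with hH
  set H' : ℝ × E → ℝ × E := fun p => (p.1, G p.1 p.2) with hH'
  have hHs : ContDiff ℝ ∞ H := by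
    apply contDiff_fst.prodMk
    exact contDiff_snd.sub ((hσ.comp contDiff_fst).smul (hv.comp contDiff_snd))
  have hs : ContDiff ℝ ∞ H' := by
    refine inv_smooth hHs ?_ ?_ ?_
    · rintro ⟨t, w⟩
      show (t, G t (w - σ t • v w)) = (t, w)
      rw [Prod.mk.injEq]
      exact ⟨rfl, hG1 t w⟩
    · rintro ⟨t, w⟩
      show (t, G t w - σ t • v (G t w)) = (t, w)
      rw [Prod.mk.injEq]
      exact ⟨rfl, hG2 t w⟩
    · rintro ⟨t, w⟩ ⟨τ, y⟩ h
      have hdv : HasFDerivAt v (fderiv ℝ v w) w := (hv.differentiable (by simp) w).hasFDerivAt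
      have hds : HasFDerivAt σ (fderiv ℝ σ t) t := (hσ.differentiable (by simp) t).hasFDerivAt
      have h1 : HasFDerivAt (fun p : ℝ × E => σ p.1)
          ((fderiv ℝ σ t).comp (ContinuousLinearMap.fst ℝ ℝ E)) (t, w) :=
        HasFDerivAt.comp (g := σ) (f := Prod.fst) (t, w) hds hasFDerivAt_fst
      have h2 : HasFDerivAt (fun p : ℝ × E => v p.2)
          ((fderiv ℝ v w).comp (ContinuousLinearMap.snd ℝ ℝ E)) (t, w) :=
        HasFDerivAt.comp (g := v) (f := Prod.snd) (t, w) hdv hasFDerivAt_snd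
      have h3 := h1.smul h2
      have h4 : HasFDerivAt H _ (t, w) :=
        (hasFDerivAt_fst (𝕜 := ℝ) (E := ℝ) (F := E)).prodMk
          ((hasFDerivAt_snd (𝕜 := ℝ) (E := ℝ) (F := E)).sub h3)
      rw [h4.fderiv] at h
      have e1 : τ = 0 := by
        have := congrArg Prod.fst h
        simpa using this
      subst e1
      have e2 : y - σ t • fderiv ℝ v w y = 0 := by
        have := congrArg Prod.snd h
        simpa using this
      have e3 := hd t w y e2
      rw [e3]
      rfl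
  exact contDiff_snd.comp hs

/-- A map `θ` without real eigenvalues `≤ -1` of its differential is joined to the identity. -/
theorem spectral_path {om : E →ₗ[ℝ] E →ₗ[ℝ] ℝ} (hnd : ∀ x, (∀ y, om x y = 0) → x = 0)
    {θ : E → E} {K : Compacts E} (hθ : IsSympl om θ) (hθK : ∀ z, z ∉ K → θ z = z)
    (hspec : ∀ z : E, ∀ μ : ℝ, μ ≤ -1 → ∀ x : E, fderiv ℝ θ z x = μ • x → x = 0) :
    ∃ K' : Compacts E, ∃ γ : ℝ → GK om K', Continuous γ ∧ (γ 0).1 = id ∧ (γ 1).1 = θ := by
  obtain ⟨v, hv, hθv, hsupp, hbij, hinj⟩ := exists_v2 hθ.smooth K.isCompact hθK hspec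
  have hskew := fun y a b => skew_of (om := om) hθ.smooth hθ.pres hv hθv y a b
  set σ : ℝ → ℝ := Real.smoothTransition with hσ
  have hσs : ContDiff ℝ ∞ σ := Real.smoothTransition.contDiff
  have hσ0 : ∀ t, 0 ≤ σ t := Real.smoothTransition.nonneg
  have hσ1 : ∀ t, σ t ≤ 1 := Real.smoothTransition.le_one
  obtain ⟨g, hgs, hg1, hg2⟩ := exists_g2 hv σ hσs (fun t => hbij _ (hσ0 t) (hσ1 t))
    (fun t => hinj _ (hσ0 t) (hσ1 t))
  set Γ : ℝ × E → E := fun p => (2 : ℝ) • g p - p.2 with hΓ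
  have hΓs : ContDiff ℝ ∞ Γ := (hgs.const_smul _).sub contDiff_snd
  have hslice : ∀ {f : ℝ × E → E}, ContDiff ℝ ∞ f → ∀ t, ContDiff ℝ ∞ (fun z => f (t, z)) :=
    fun {f} hf t => hf.comp (contDiff_const.prodMk contDiff_id)
  have hpres : ∀ t z x y, om (fderiv ℝ (fun z => Γ (t, z)) z x)
      (fderiv ℝ (fun z => Γ (t, z)) z y) = om x y := by
    intro t z x y
    have hgd : HasFDerivAt (fun z => g (t, z)) (fderiv ℝ (fun z => g (t, z)) z) z :=
      ((hslice hgs t).differentiable (by simp) z).hasFDerivAt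
    set D := fderiv ℝ (fun z => g (t, z)) z with hDdef
    have h1 : HasFDerivAt (fun z => Γ (t, z)) ((2 : ℝ) • D - ContinuousLinearMap.id ℝ E) z :=
      (hgd.const_smul (2 : ℝ)).sub (hasFDerivAt_id z)
    have hvd : HasFDerivAt v (fderiv ℝ v (g (t, z))) (g (t, z)) :=
      (hv.differentiable (by simp) _).hasFDerivAt
    have h2 : HasFDerivAt (fun z => g (t, z) - σ t • v (g (t, z)))
        (D - σ t • (fderiv ℝ v (g (t, z))).comp D) z :=
      hgd.sub ((HasFDerivAt.comp (g := v) (f := fun z => g (t, z)) z hvd hgd).const_smul (σ t))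
    have h3 : (fun z => g (t, z) - σ t • v (g (t, z))) = fun z => z := funext (hg1 t)
    rw [h3] at h2
    have h4 := h2.unique (hasFDerivAt_id z)
    have h5 : ∀ a, D a - σ t • fderiv ℝ v (g (t, z)) (D a) = a := by
      intro a
      have := congrArg (fun L : E →L[ℝ] E => L a) h4
      simpa using this
    have h6 : ∀ a, fderiv ℝ (fun z => Γ (t, z)) z a =
        D a + σ t • fderiv ℝ v (g (t, z)) (D a) := by
      intro a
      rw [h1.fderiv]
      have := h5 a
      simp only [ContinuousLinearMap.sub_apply, ContinuousLinearMap.smul_apply,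
        ContinuousLinearMap.id_apply]
      rw [two_smul]
      nth_rewrite 3 [← this]
      abel
    rw [h6, h6]
    conv_rhs => rw [← h5 x, ← h5 y]
    have h7 := hskew (g (t, z)) (D x) (D y)
    simp only [map_add, map_sub, map_smul, LinearMap.add_apply, LinearMap.sub_apply,
      LinearMap.smul_apply, smul_eq_mul]
    linear_combination (2 * σ t) * h7
  -- the support
  set L : Set E := (fun z => (2⁻¹ : ℝ) • (z + θ z)) '' (K : Set E) with hL
  have hLc : IsCompact L := K.isCompact.image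
    ((continuous_id.add hθ.smooth.continuous).const_smul _)
  have hΓsupp : ∀ t z, z ∉ L → Γ (t, z) = z := by
    intro t z hz
    have h0 : v z = 0 := hsupp z hz
    have h1 := hg2 t z
    rw [h0, smul_zero, sub_zero] at h1
    show (2 : ℝ) • g (t, z) - z = z
    rw [h1, two_smul]
    abel
  have hΓinj : ∀ t z x, fderiv ℝ (fun z => Γ (t, z)) z x = 0 → x = 0 := by
    intro t z x hx
    apply hnd
    intro y
    rw [← hpres t z x y, hx]
    simp
  have hΓG : ∀ t, IsSympl om (fun z => Γ (t, z)) := by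
    intro t
    have hb : Bijective (fun z => Γ (t, z)) :=
      hadamard (hslice hΓs t) (hΓinj t) hLc (hΓsupp t)
    obtain ⟨ψ, h1, h2⟩ := bijective_iff_has_inverse.mp hb
    exact ⟨hslice hΓs t, ⟨ψ, inv_smooth (hslice hΓs t) h1 h2 (hΓinj t), h1, h2⟩, hpres t⟩
  refine ⟨⟨L, hLc⟩, fun t => ⟨fun z => Γ (t, z), hΓG t, hΓsupp t⟩, ?_, ?_, ?_⟩
  · apply continuous_to_GK
    intro k
    apply ContinuousMap.continuous_of_continuous_uncurry
    exact continuous_slice hΓs k
  · funext z
    show (2 : ℝ) • g (0, z) - z = z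
    have h1 := hg2 0 z
    have h0 : σ 0 = 0 := Real.smoothTransition.zero
    rw [h0, zero_smul, sub_zero] at h1
    rw [h1, two_smul]
    abel
  · funext z
    show (2 : ℝ) • g (1, z) - z = θ z
    have h0 : σ 1 = 1 := Real.smoothTransition.one
    have h1 := hg1 1 z
    rw [h0, one_smul] at h1
    have h2 := hθv (g (1, z))
    rw [h1] at h2
    rw [h2, two_smul]
    nth_rewrite 3 [← h1]
    abel

/-- The identity as an element of `G`. -/
def one (om : E →ₗ[ℝ] E →ₗ[ℝ] ℝ) : G om :=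
  ⟨fun z => z, ⟨contDiff_id, ⟨fun z => z, contDiff_id, fun _ => rfl, fun _ => rfl⟩, by
    intro z x y
    have : fderiv ℝ (fun z : E => z) z = ContinuousLinearMap.id ℝ E :=
      (hasFDerivAt_id z).fderiv
    rw [this]
    rfl⟩, ⊥, fun _ _ => rfl⟩

theorem joined_of_spectral {om : E →ₗ[ℝ] E →ₗ[ℝ] ℝ} (hnd : ∀ x, (∀ y, om x y = 0) → x = 0)
    (φ : G om)
    (hspec : ∀ z : E, ∀ μ : ℝ, μ ≤ -1 → ∀ x : E, fderiv ℝ φ.1 z x = μ • x → x = 0) :
    Joined (one om) φ := by
  obtain ⟨K, hK⟩ := φ.2.2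
  obtain ⟨K', γ, hγ, h0, h1⟩ := spectral_path hnd φ.2.1 hK hspec
  refine ⟨⟨⟨fun t => incl om K' (γ t), ?_⟩, ?_, ?_⟩⟩
  · exact (continuous_incl om K').comp (hγ.comp continuous_subtype_val)
  · apply Subtype.ext
    show (γ ((0 : unitInterval) : ℝ)).1 = fun z => z
    have e : ((0 : unitInterval) : ℝ) = 0 := rfl
    rw [e, h0]
    rfl
  · apply Subtype.ext
    show (γ ((1 : unitInterval) : ℝ)).1 = φ.1
    have e : ((1 : unitInterval) : ℝ) = 1 := rfl
    rw [e, h1]

end H518SY
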