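import Mathlib
import Pool.Agent.H518R3.SY7

/-! A general criterion with a linear symplectic map `C`, and commutativity of `π₀`. -/

set_option linter.all false

namespace H518SY

open Function Set Filter TopologicalSpace
open scoped Topology NNReal ContDiff

variable {E : Type*} [NormedAddCommGroup E] [NormedSpace ℝ E] [FiniteDimensional ℝ E]

theorem exists_v3 {θ : E → E} (hθ : ContDiff ℝ ∞ θ) {K : Set E} (hK : IsCompact K)
    (hid : ∀ z, z ∉ K → θ z = z) (C : E →L[ℝ] E)
    (hspec : ∀ z : E, ∀ s : ℝ, 0 ≤ s → s ≤ 1 → ∀ x : E,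
      C x = (1 - s) • fderiv ℝ θ z x + s • x → x = 0) :
    ∃ v : E → E, ∃ L : Set E, IsCompact L ∧ ContDiff ℝ ∞ v ∧
      (∀ y, θ (y - v y) = y - C (v y)) ∧
      (∀ y, y ∉ L → v y = 0) ∧
      (∀ s : ℝ, 0 ≤ s → s ≤ 1 → Bijective fun w => w - s • v w) ∧
      (∀ s : ℝ, 0 ≤ s → s ≤ 1 → ∀ w y, y - s • fderiv ℝ v w y = 0 → y = 0) := by
  have hC1 : ∀ x, (ContinuousLinearMap.id ℝ E - C) x = 0 → x = 0 := by
    intro x hx
    have h1 : x - C x = 0 := hx
    apply hspec 0 1 zero_le_one le_rfl x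
    rw [sub_self, zero_smul, zero_add, one_smul]
    exact (sub_eq_zero.mp h1).symm
  obtain ⟨R, hR⟩ := equiv_of_inj _ hC1
  have hRx : ∀ x, R x = x - C x := by
    intro x
    have := congrArg (fun L : E →L[ℝ] E => L x) hR
    simpa using this
  set F : E → E := fun z => R.symm (θ z - C z) with hF
  have hFs : ContDiff ℝ ∞ F := R.symm.contDiff.comp (hθ.sub C.contDiff)
  have hFid : ∀ z, z ∉ K → F z = z := by
    intro z hz
    show R.symm (θ z - C z) = z
    rw [hid z hz, ← hRx, R.symm_apply_apply]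
  have hFD : ∀ x y, fderiv ℝ F x y = 0 → y = 0 := by
    intro x y h
    have h1 : HasFDerivAt F ((R.symm : E →L[ℝ] E).comp (fderiv ℝ θ x - C)) x :=
      (R.symm : E →L[ℝ] E).hasFDerivAt.comp x
        ((hθ.differentiable (by simp) x).hasFDerivAt.sub C.hasFDerivAt)
    rw [h1.fderiv] at h
    have h2 : R.symm (fderiv ℝ θ x y - C y) = 0 := h
    have h3 : fderiv ℝ θ x y - C y = 0 := by
      have := congrArg R h2
      rwa [R.apply_symm_apply, map_zero] at this
    apply hspec x 0 le_rfl zero_le_one y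
    rw [sub_zero, one_smul, zero_smul, add_zero]
    exact (sub_eq_zero.mp h3).symm
  obtain ⟨g, hgF, hFg⟩ := bijective_iff_has_inverse.mp (hadamard hFs hFD hK hFid)
  have hgs : ContDiff ℝ ∞ g := inv_smooth hFs hgF hFg hFD
  have hFK : IsCompact (F '' K) := hK.image hFs.continuous
  set v : E → E := fun y => y - g y with hv
  have hvs : ContDiff ℝ ∞ v := contDiff_id.sub hgs
  have hθv : ∀ y, θ (y - v y) = y - C (v y) := by
    intro y
    have h1 : y - v y = g y := by rw [hv]; simp
    rw [h1]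
    have h2 : R.symm (θ (g y) - C (g y)) = y := hFg y
    have h3 : θ (g y) - C (g y) = y - C y := by
      rw [← hRx]
      nth_rewrite 3 [← h2]
      rw [R.apply_symm_apply]
    have h4 : θ (g y) = (y - C y) + C (g y) := by rw [← h3]; abel
    rw [h4]
    show y - C y + C (g y) = y - C (y - g y)
    rw [map_sub]
    abel
  have hvz : ∀ y, y ∉ F '' K → v y = 0 := by
    intro y hy
    have h1 : g y ∉ K := fun h => hy ⟨g y, h, hFg y⟩
    have h2 := hFid _ h1
    rw [hFg] at h2
    show y - g y = 0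
    rw [← h2, sub_self]
  have hinj : ∀ s : ℝ, 0 ≤ s → s ≤ 1 → ∀ w y, y - s • fderiv ℝ v w y = 0 → y = 0 := by
    intro s hs0 hs1 w x h
    have hdv : HasFDerivAt v (fderiv ℝ v w) w := (hvs.differentiable (by simp) w).hasFDerivAt
    have hdθ : HasFDerivAt θ (fderiv ℝ θ (w - v w)) (w - v w) :=
      (hθ.differentiable (by simp) _).hasFDerivAt
    have h1 : HasFDerivAt (fun y => θ (y - v y))
        ((fderiv ℝ θ (w - v w)).comp (ContinuousLinearMap.id ℝ E - fderiv ℝ v w)) w :=
      HasFDerivAt.comp (f := fun y => y - v y) w hdθ ((hasFDerivAt_id w).sub hdv)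
    have h2 : HasFDerivAt (fun y => y - C (v y))
        (ContinuousLinearMap.id ℝ E - C.comp (fderiv ℝ v w)) w :=
      (hasFDerivAt_id w).sub (C.hasFDerivAt.comp w hdv)
    have h3 : (fun y => θ (y - v y)) = fun y => y - C (v y) := funext hθv
    rw [h3] at h1
    have h4 := h1.unique h2
    have h5 : fderiv ℝ θ (w - v w) (x - fderiv ℝ v w x) = x - C (fderiv ℝ v w x) := by
      have := congrArg (fun L : E →L[ℝ] E => L x) h4
      simpa using this
    set A := fderiv ℝ θ (w - v w) with hA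
    set b := fderiv ℝ v w x with hb
    have hx : x = s • b := sub_eq_zero.mp h
    apply hspec (w - v w) s hs0 hs1 x
    rw [← hA]
    have e1 : A (s • (x - b)) = s • (x - C b) := by rw [map_smul, h5]
    have e2 : s • (x - b) = (s - 1) • x := by
      rw [smul_sub, ← hx, sub_smul, one_smul]
    have e3 : s • (x - C b) = s • x - C x := by
      rw [smul_sub, ← map_smul, ← hx]
    rw [e2, e3, map_smul] at e1
    have e4 : C x = s • x - (s - 1) • A x := by rw [e1]; abel
    rw [e4, sub_smul, sub_smul]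
    abel
  refine ⟨v, F '' K, hFK, hvs, hθv, hvz, ?_, hinj⟩
  intro s hs0 hs1
  have hs : ContDiff ℝ ∞ (fun w => w - s • v w) := contDiff_id.sub (hvs.const_smul s)
  refine hadamard hs ?_ hFK ?_
  · intro w y h
    have h1 : HasFDerivAt (fun w => w - s • v w)
        (ContinuousLinearMap.id ℝ E - s • fderiv ℝ v w) w :=
      (hasFDerivAt_id w).sub ((hvs.differentiable (by simp) w).hasFDerivAt.const_smul s)
    rw [h1.fderiv] at h
    exact hinj s hs0 hs1 w y h
  · intro z hz
    show z - s • v z = z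
    rw [hvz z hz, smul_zero, sub_zero]

theorem skew_of3 {om : E →ₗ[ℝ] E →ₗ[ℝ] ℝ} {θ v : E → E} (hθ : ContDiff ℝ ∞ θ)
    (hom : ∀ z x y, om (fderiv ℝ θ z x) (fderiv ℝ θ z y) = om x y)
    (C : E →L[ℝ] E) (hC : ∀ x y, om (C x) (C y) = om x y)
    (hv : ContDiff ℝ ∞ v) (h : ∀ y, θ (y - v y) = y - C (v y)) (y a b : E) :
    om (C (fderiv ℝ v y a)) b + om a (C (fderiv ℝ v y b)) =
      om (fderiv ℝ v y a) b + om a (fderiv ℝ v y b) := by
  have hdv : HasFDerivAt v (fderiv ℝ v y) y := (hv.differentiable (by simp) y).hasFDerivAt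
  have hdθ : HasFDerivAt θ (fderiv ℝ θ (y - v y)) (y - v y) :=
    (hθ.differentiable (by simp) _).hasFDerivAt
  have h1 : HasFDerivAt (fun y => θ (y - v y))
      ((fderiv ℝ θ (y - v y)).comp (ContinuousLinearMap.id ℝ E - fderiv ℝ v y)) y := by
    have := HasFDerivAt.comp (f := fun y => y - v y) y hdθ ((hasFDerivAt_id y).sub hdv)
    exact this
  have h2 : HasFDerivAt (fun y => y - C (v y))
      (ContinuousLinearMap.id ℝ E - C.comp (fderiv ℝ v y)) y :=
    (hasFDerivAt_id y).sub (C.hasFDerivAt.comp y hdv)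
  have h3 : (fun y => θ (y - v y)) = fun y => y - C (v y) := funext h
  rw [h3] at h1
  have h4 := h1.unique h2
  have h5 : ∀ a, fderiv ℝ θ (y - v y) (a - fderiv ℝ v y a) = a - C (fderiv ℝ v y a) := by
    intro a
    have := congrArg (fun L : E →L[ℝ] E => L a) h4
    simpa using this
  have h6 := hom (y - v y) (a - fderiv ℝ v y a) (b - fderiv ℝ v y b)
  rw [h5, h5] at h6
  have h7 := hC (fderiv ℝ v y a) (fderiv ℝ v y b)
  simp only [map_sub, LinearMap.sub_apply] at h6
  linarith

/-- A smooth family supported in a compact set joins its ends. -/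
theorem joined_of_family {om : E →ₗ[ℝ] E →ₗ[ℝ] ℝ} {Γ : ℝ × E → E} (hΓ : ContDiff ℝ ∞ Γ)
    (K : Compacts E) (hG : ∀ t, IsSympl om (fun z => Γ (t, z)))
    (hs : ∀ t z, z ∉ K → Γ (t, z) = z) (φ ψ : G om) (hφ : ∀ z, φ.1 z = Γ (0, z))
    (hψ : ∀ z, ψ.1 z = Γ (1, z)) : Joined φ ψ := by
  set γ : ℝ → GK om K := fun t => ⟨fun z => Γ (t, z), hG t, hs t⟩ with hγ
  have hc : Continuous γ := by
    apply continuous_to_GK
    intro k
    apply ContinuousMap.continuous_of_continuous_uncurry
    exact continuous_slice hΓ k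
  refine ⟨⟨⟨fun t => incl om K (γ t), ?_⟩, ?_, ?_⟩⟩
  · exact (continuous_incl om K).comp (hc.comp continuous_subtype_val)
  · apply Subtype.ext
    funext z
    exact (hφ z).symm
  · apply Subtype.ext
    funext z
    exact (hψ z).symm

/-- The general criterion. -/
theorem joined_of_pencil {om : E →ₗ[ℝ] E →ₗ[ℝ] ℝ} (hnd : ∀ x, (∀ y, om x y = 0) → x = 0)
    (φ : G om) (C : E →L[ℝ] E) (hC : ∀ x y, om (C x) (C y) = om x y)
    (hspec : ∀ z : E, ∀ s : ℝ, 0 ≤ s → s ≤ 1 → ∀ x : E,
      C x = (1 - s) • fderiv ℝ φ.1 z x + s • x → x = 0) :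
    Joined (one om) φ := by
  obtain ⟨K, hK⟩ := φ.2.2
  have hθ := φ.2.1
  set θ := φ.1 with hθdef
  obtain ⟨v, L, hLc, hv, hθv, hsupp, hbij, hinj⟩ :=
    exists_v3 hθ.smooth K.isCompact hK C hspec
  have hskew := fun y a b => skew_of3 (om := om) hθ.smooth hθ.pres C hC hv hθv y a b
  set σ : ℝ → ℝ := Real.smoothTransition with hσ
  have hσs : ContDiff ℝ ∞ σ := Real.smoothTransition.contDiff
  have hσ0 : ∀ t, 0 ≤ σ t := Real.smoothTransition.nonneg
  have hσ1 : ∀ t, σ t ≤ 1 := Real.smoothTransition.le_one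
  obtain ⟨g, hgs, hg1, hg2⟩ := exists_g2 hv σ hσs (fun t => hbij _ (hσ0 t) (hσ1 t))
    (fun t => hinj _ (hσ0 t) (hσ1 t))
  set Γ : ℝ × E → E := fun p => g p - C (g p - p.2) with hΓ
  have hΓs : ContDiff ℝ ∞ Γ := hgs.sub (C.contDiff.comp (hgs.sub contDiff_snd))
  have hslice : ∀ {f : ℝ × E → E}, ContDiff ℝ ∞ f → ∀ t, ContDiff ℝ ∞ (fun z => f (t, z)) :=
    fun {f} hf t => hf.comp (contDiff_const.prodMk contDiff_id)
  have hpres : ∀ t z x y, om (fderiv ℝ (fun z => Γ (t, z)) z x)
      (fderiv ℝ (fun z => Γ (t, z)) z y) = om x y := by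
    intro t z x y
    have hgd : HasFDerivAt (fun z => g (t, z)) (fderiv ℝ (fun z => g (t, z)) z) z :=
      ((hslice hgs t).differentiable (by simp) z).hasFDerivAt
    set D := fderiv ℝ (fun z => g (t, z)) z with hDdef
    have h1 : HasFDerivAt (fun z => Γ (t, z))
        (D - C.comp (D - ContinuousLinearMap.id ℝ E)) z :=
      hgd.sub (C.hasFDerivAt.comp z (hgd.sub (hasFDerivAt_id z)))
    have hvd : HasFDerivAt v (fderiv ℝ v (g (t, z))) (g (t, z)) :=
      (hv.differentiable (by simp) _).hasFDerivAt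
    have h2 : HasFDerivAt (fun z => g (t, z) - σ t • v (g (t, z)))
        (D - σ t • (fderiv ℝ v (g (t, z))).comp D) z :=
      hgd.sub ((HasFDerivAt.comp (g := v) (f := fun z => g (t, z)) z hvd hgd).const_smul (σ t))
    have h3 : (fun z => g (t, z) - σ t • v (g (t, z))) = fun z => z := funext (hg1 t)
    rw [h3] at h2
    have h4 := h2.unique (hasFDerivAt_id z)
    have h5 : ∀ a, D a - σ t • fderiv ℝ v (g (t, z)) (D a) = a := by
      intro a
      have := congrArg (fun L : E →L[ℝ] E => L a) h4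
      simpa using this
    have h6 : ∀ a, fderiv ℝ (fun z => Γ (t, z)) z a =
        D a - σ t • C (fderiv ℝ v (g (t, z)) (D a)) := by
      intro a
      rw [h1.fderiv]
      have e1 : D a - a = σ t • fderiv ℝ v (g (t, z)) (D a) := by
        nth_rewrite 2 [← h5 a]
        abel
      show D a - C (D a - a) = _
      rw [e1, map_smul]
    rw [h6, h6]
    conv_rhs => rw [← h5 x, ← h5 y]
    have h7 := hskew (g (t, z)) (D x) (D y)
    have h8 := hC (fderiv ℝ v (g (t, z)) (D x)) (fderiv ℝ v (g (t, z)) (D y))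
    simp only [map_sub, map_smul, LinearMap.sub_apply,
      LinearMap.smul_apply, smul_eq_mul]
    linear_combination (-σ t) * h7 + (σ t) ^ 2 * h8
  have hΓsupp : ∀ t z, z ∉ L → Γ (t, z) = z := by
    intro t z hz
    have h0 : v z = 0 := hsupp z hz
    have h1 := hg2 t z
    rw [h0, smul_zero, sub_zero] at h1
    show g (t, z) - C (g (t, z) - z) = z
    rw [h1, sub_self, map_zero, sub_zero]
  have hΓinj : ∀ t z x, fderiv ℝ (fun z => Γ (t, z)) z x = 0 → x = 0 := by
    intro t z x hx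
    apply hnd
    intro y
    rw [← hpres t z x y, hx]
    simp
  have hΓG : ∀ t, IsSympl om (fun z => Γ (t, z)) := by
    intro t
    have hb : Bijective (fun z => Γ (t, z)) :=
      hadamard (hslice hΓs t) (hΓinj t) hLc (hΓsupp t)
    obtain ⟨ψ, h1, h2⟩ := bijective_iff_has_inverse.mp hb
    exact ⟨hslice hΓs t, ⟨ψ, inv_smooth (hslice hΓs t) h1 h2 (hΓinj t), h1, h2⟩, hpres t⟩
  refine joined_of_family hΓs ⟨L, hLc⟩ hΓG hΓsupp (one om) φ ?_ ?_
  · intro z
    show z = g (0, z) - C (g (0, z) - z)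
    have h1 := hg2 0 z
    have h0 : σ 0 = 0 := Real.smoothTransition.zero
    rw [h0, zero_smul, sub_zero] at h1
    rw [h1, sub_self, map_zero, sub_zero]
  · intro z
    show θ z = g (1, z) - C (g (1, z) - z)
    have h0 : σ 1 = 1 := Real.smoothTransition.one
    have h1 := hg1 1 z
    rw [h0, one_smul] at h1
    have h2 := hθv (g (1, z))
    rw [h1] at h2
    rw [h2]
    congr 2
    nth_rewrite 3 [← h1]
    abel

theorem isSympl_translate (om : E →ₗ[ℝ] E →ₗ[ℝ] ℝ) (b : E) :
    IsSympl om (fun z => z + b) := by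
  refine ⟨contDiff_id.add contDiff_const, ⟨fun z => z - b, contDiff_id.sub contDiff_const,
    fun z => add_sub_cancel_right z b, fun z => sub_add_cancel z b⟩, ?_⟩
  intro z x y
  have : HasFDerivAt (fun z : E => z + b) (ContinuousLinearMap.id ℝ E) z :=
    (hasFDerivAt_id z).add_const b
  rw [this.fderiv]
  rfl

/-- `φψ` and `ψφ` lie in the same path component. -/
theorem joined_comm {om : E →ₗ[ℝ] E →ₗ[ℝ] ℝ} (φ ψ a b : G om)
    (ha : ∀ z, a.1 z = φ.1 (ψ.1 z)) (hb : ∀ z, b.1 z = ψ.1 (φ.1 z)) : Joined a b := by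
  haveI : ProperSpace E := FiniteDimensional.proper ℝ E
  rcases subsingleton_or_nontrivial E with hs | hs
  · have : a = b := by
      apply Subtype.ext
      funext z
      exact Subsingleton.elim _ _
    rw [this]
  obtain ⟨K, hK⟩ := φ.2.2
  obtain ⟨K', hK'⟩ := ψ.2.2
  obtain ⟨R, hR⟩ := (K.isCompact.union K'.isCompact).isBounded.subset_closedBall (0 : E)
  have hφs : ∀ z, R < ‖z‖ → φ.1 z = z := by
    intro z hz
    apply hK
    intro h
    have := hR (Or.inl h)
    rw [mem_closedBall_zero_iff] at this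
    linarith
  have hψs : ∀ z, R < ‖z‖ → ψ.1 z = z := by
    intro z hz
    apply hK'
    intro h
    have := hR (Or.inr h)
    rw [mem_closedBall_zero_iff] at this
    linarith
  obtain ⟨u, hu⟩ := NormedSpace.exists_lt_norm ℝ E (2 * R)
  set σ : ℝ → ℝ := Real.smoothTransition with hσ
  have hσs : ContDiff ℝ ∞ σ := Real.smoothTransition.contDiff
  have hσ0 : ∀ t, 0 ≤ σ t := Real.smoothTransition.nonneg
  have hσ1 : ∀ t, σ t ≤ 1 := Real.smoothTransition.le_one
  -- the moving conjugate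
  set P : ℝ × E → E := fun p => φ.1 (p.2 - σ p.1 • u) + σ p.1 • u with hP
  have hPs : ContDiff ℝ ∞ P := by
    have h1 : ContDiff ℝ ∞ (fun p : ℝ × E => σ p.1 • u) :=
      (hσs.comp contDiff_fst).smul contDiff_const
    exact (φ.2.1.smooth.comp (contDiff_snd.sub h1)).add h1
  have hPG : ∀ t, IsSympl om (fun z => P (t, z)) := by
    intro t
    have h1 := (isSympl_translate om (σ t • u)).comp
      (φ.2.1.comp (isSympl_translate om (-(σ t • u))))
    have h2 : (fun z => P (t, z)) = fun z => φ.1 (z + -(σ t • u)) + σ t • u := by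
      funext z
      show φ.1 (z - σ t • u) + σ t • u = _
      rw [sub_eq_add_neg]
    rw [h2]
    exact h1
  set M : ℝ := R + ‖u‖ with hM
  have hPsupp : ∀ t z, M < ‖z‖ → P (t, z) = z := by
    intro t z hz
    show φ.1 (z - σ t • u) + σ t • u = z
    rw [hφs, sub_add_cancel]
    have h1 : ‖σ t • u‖ ≤ ‖u‖ := by
      rw [norm_smul, Real.norm_eq_abs, abs_of_nonneg (hσ0 t)]
      calc σ t * ‖u‖ ≤ 1 * ‖u‖ := mul_le_mul_of_nonneg_right (hσ1 t) (norm_nonneg _)
        _ = ‖u‖ := one_mul _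
    have h2 := norm_sub_norm_le z (σ t • u)
    linarith
  have hRM : ∀ z : E, M < ‖z‖ → R < ‖z‖ := by
    intro z hz
    have := norm_nonneg u
    linarith
  set B : Compacts E := ⟨Metric.closedBall 0 M, isCompact_closedBall 0 M⟩ with hB
  have hBn : ∀ z, z ∉ B → M < ‖z‖ := by
    intro z hz
    have h1 : z ∉ Metric.closedBall (0 : E) M := hz
    rw [mem_closedBall_zero_iff, not_le] at h1
    exact h1
  -- the common end
  have hPψ : ∀ z, P (1, ψ.1 z) = ψ.1 (P (1, z)) := by
    have h0 : σ 1 = 1 := Real.smoothTransition.one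
    have hP1 : ∀ z, P (1, z) = φ.1 (z - u) + u := by
      intro z
      show φ.1 (z - σ 1 • u) + σ 1 • u = _
      rw [h0, one_smul]
    have hPfar : ∀ z, R < ‖z - u‖ → P (1, z) = z := by
      intro z hz
      rw [hP1, hφs _ hz, sub_add_cancel]
    have hball : ∀ z, ‖z‖ ≤ R → R < ‖z - u‖ := by
      intro z hz
      have := norm_sub_norm_le u z
      rw [norm_sub_rev] at this
      linarith
    -- invariance of the balls
    have hψinj : Injective ψ.1 := by
      obtain ⟨η, _, h1, _⟩ := ψ.2.1.inv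
      exact h1.injective
    have hφinj : Injective φ.1 := by
      obtain ⟨η, _, h1, _⟩ := φ.2.1.inv
      exact h1.injective
    have hψball : ∀ z, ‖z‖ ≤ R → ‖ψ.1 z‖ ≤ R := by
      intro z hz
      by_contra h
      push Not at h
      have h1 := hψs _ h
      have h2 := hψinj h1
      rw [h2] at h
      linarith
    have hφball : ∀ z, ‖z‖ ≤ R → ‖φ.1 z‖ ≤ R := by
      intro z hz
      by_contra h
      push Not at h
      have h1 := hφs _ h
      have h2 := hφinj h1
      rw [h2] at h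
      linarith
    intro z
    by_cases hz : ‖z‖ ≤ R
    · rw [hPfar _ (hball _ (hψball z hz)), hPfar _ (hball z hz)]
    · push Not at hz
      rw [hψs z hz]
      symm
      apply hψs
      by_cases hz2 : ‖z - u‖ ≤ R
      · rw [hP1]
        have h3 := hφball _ hz2
        have h4 := norm_sub_norm_le u (-(φ.1 (z - u)))
        rw [norm_neg, sub_neg_eq_add, add_comm u] at h4
        linarith
      · push Not at hz2
        rw [hPfar z hz2]
        exact hz
  set m : G om := ⟨fun z => P (1, ψ.1 z), (hPG 1).comp ψ.2.1, B, by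
    intro z hz
    show P (1, ψ.1 z) = z
    rw [hψs z (hRM z (hBn z hz)), hPsupp 1 z (hBn z hz)]⟩ with hm
  have h1 : Joined a m := by
    refine joined_of_family (Γ := fun p => P (p.1, ψ.1 p.2))
      (hPs.comp (contDiff_fst.prodMk (ψ.2.1.smooth.comp contDiff_snd))) B
      (fun t => (hPG t).comp ψ.2.1) ?_ a m ?_ ?_
    · intro t z hz
      show P (t, ψ.1 z) = z
      rw [hψs z (hRM z (hBn z hz)), hPsupp t z (hBn z hz)]
    · intro z
      have h0 : σ 0 = 0 := Real.smoothTransition.zero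
      rw [ha z]
      show φ.1 (ψ.1 z) = φ.1 (ψ.1 z - σ 0 • u) + σ 0 • u
      rw [h0, zero_smul, sub_zero, add_zero]
    · intro z
      rfl
  have h2 : Joined b m := by
    refine joined_of_family (Γ := fun p => ψ.1 (P p)) (ψ.2.1.smooth.comp hPs) B
      (fun t => ψ.2.1.comp (hPG t)) ?_ b m ?_ ?_
    · intro t z hz
      show ψ.1 (P (t, z)) = z
      rw [hPsupp t z (hBn z hz), hψs z (hRM z (hBn z hz))]
    · intro z
      have h0 : σ 0 = 0 := Real.smoothTransition.zero
      rw [hb z]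
      show ψ.1 (φ.1 z) = ψ.1 (φ.1 (z - σ 0 • u) + σ 0 • u)
      rw [h0, zero_smul, sub_zero, add_zero]
    · intro z
      exact hPψ z
  exact h1.trans h2.symm

end H518SY
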