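import Mathlib
import Pool.Agent.H518R3.SY8

/-! Families of maps depending continuously on a parameter in the `C^∞` topology. -/

set_option linter.all false

namespace H518SY

open Function Set Filter TopologicalSpace
open scoped Topology NNReal ContDiff

universe u v

/-- fibrewise differentiable up to order `k`, with jointly continuous derivatives -/
def FC {X : Type v} [TopologicalSpace X] {E : Type u} [NormedAddCommGroup E]
    [NormedSpace ℝ E] : ℕ → ∀ {F : Type u} [NormedAddCommGroup F] [NormedSpace ℝ F],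
    (X → E → F) → Prop
  | 0, _, _, _, f => Continuous (fun p : X × E => f p.1 p.2)
  | k + 1, F, _, _, f => Continuous (fun p : X × E => f p.1 p.2) ∧
      ∃ f' : X → E → (E →L[ℝ] F), (∀ x z, HasFDerivAt (f x) (f' x z) z) ∧ FC k f'

section fam
variable {X : Type v} [TopologicalSpace X] {E : Type u} [NormedAddCommGroup E]
  [NormedSpace ℝ E]

theorem FC.cont {k : ℕ} {F : Type u} [NormedAddCommGroup F] [NormedSpace ℝ F] {f : X → E → F}
    (h : FC k f) : Continuous (fun p : X × E => f p.1 p.2) := by
  cases k with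
  | zero => exact h
  | succ k => exact h.1

theorem FC.pred {k : ℕ} : ∀ {F : Type u} [NormedAddCommGroup F] [NormedSpace ℝ F]
    {f : X → E → F}, FC (k + 1) f → FC k f := by
  induction k with
  | zero =>
    intro F _ _ f h
    exact h.1
  | succ k ih =>
    intro F _ _ f h
    obtain ⟨hc, f', hf', h'⟩ := h
    exact ⟨hc, f', hf', ih h'⟩

theorem FC.const {k : ℕ} : ∀ {F : Type u} [NormedAddCommGroup F] [NormedSpace ℝ F]
    {c : X → F}, Continuous c → FC k (fun (x : X) (_ : E) => c x) := by
  induction k with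
  | zero =>
    intro F _ _ c hc
    exact hc.comp continuous_fst
  | succ k ih =>
    intro F _ _ c hc
    exact ⟨hc.comp continuous_fst, fun _ _ => 0, fun x z => hasFDerivAt_const _ _,
      ih (c := fun _ => (0 : E →L[ℝ] F)) continuous_const⟩

theorem FC.id {k : ℕ} : FC k (fun (_ : X) (z : E) => z) := by
  cases k with
  | zero => exact continuous_snd
  | succ k => exact ⟨continuous_snd, fun _ _ => ContinuousLinearMap.id ℝ E,
      fun x z => hasFDerivAt_id z, FC.const continuous_const⟩

theorem FC.clm {k : ℕ} : ∀ {F H : Type u} [NormedAddCommGroup F] [NormedSpace ℝ F]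
    [NormedAddCommGroup H] [NormedSpace ℝ H] (L : F →L[ℝ] H) {f : X → E → F},
    FC k f → FC k (fun x z => L (f x z)) := by
  induction k with
  | zero =>
    intro F H _ _ _ _ L f h
    exact L.continuous.comp h
  | succ k ih =>
    intro F H _ _ _ _ L f h
    obtain ⟨hc, f', hf', h'⟩ := h
    refine ⟨L.continuous.comp hc, fun x z => L.comp (f' x z), fun x z =>
      L.hasFDerivAt.comp z (hf' x z), ?_⟩
    exact ih (ContinuousLinearMap.compL ℝ E F H L) h'

theorem FC.add {k : ℕ} : ∀ {F : Type u} [NormedAddCommGroup F] [NormedSpace ℝ F]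
    {f g : X → E → F}, FC k f → FC k g → FC k (fun x z => f x z + g x z) := by
  induction k with
  | zero =>
    intro F _ _ f g hf hg
    exact Continuous.add hf hg
  | succ k ih =>
    intro F _ _ f g hf hg
    obtain ⟨hc, f', hf', h'⟩ := hf
    obtain ⟨hd, g', hg', k'⟩ := hg
    exact ⟨hc.add hd, fun x z => f' x z + g' x z, fun x z => (hf' x z).add (hg' x z), ih h' k'⟩

theorem FC.bilin {k : ℕ} : ∀ {F H G : Type u} [NormedAddCommGroup F] [NormedSpace ℝ F]
    [NormedAddCommGroup H] [NormedSpace ℝ H] [NormedAddCommGroup G] [NormedSpace ℝ G]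
    (B : F →L[ℝ] H →L[ℝ] G) {f : X → E → F} {g : X → E → H},
    FC k f → FC k g → FC k (fun x z => B (f x z) (g x z)) := by
  induction k with
  | zero =>
    intro F H G _ _ _ _ _ _ B f g hf hg
    exact (B.continuous.comp hf).clm_apply hg
  | succ k ih =>
    intro F H G _ _ _ _ _ _ B f g hf hg
    have hf0 := hf.pred
    have hg0 := hg.pred
    obtain ⟨hc, f', hf', h'⟩ := hf
    obtain ⟨hd, g', hg', k'⟩ := hg
    refine ⟨(B.continuous.comp hc).clm_apply hd,
      fun x z => B.precompR E (f x z) (g' x z) + B.precompL E (f' x z) (g x z),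
      fun x z => B.hasFDerivAt_of_bilinear (hf' x z) (hg' x z), ?_⟩
    exact (ih (B.precompR E) hf0 k').add (ih (B.precompL E) h' hg0)

theorem FC.comp {k : ℕ} : ∀ {F : Type u} [NormedAddCommGroup F] [NormedSpace ℝ F]
    {f : X → E → F} {g : X → E → E}, FC k f → FC k g → FC k (fun x z => f x (g x z)) := by
  induction k with
  | zero =>
    intro F _ _ f g hf hg
    exact Continuous.comp (g := fun p : X × E => f p.1 p.2) hf (continuous_fst.prodMk hg)
  | succ k ih =>
    intro F _ _ f g hf hg
    have hg0 := hg.pred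
    obtain ⟨hc, f', hf', h'⟩ := hf
    obtain ⟨hd, g', hg', k'⟩ := hg
    refine ⟨Continuous.comp (g := fun p : X × E => f p.1 p.2) hc (continuous_fst.prodMk hd),
      fun x z => (f' x (g x z)).comp (g' x z), fun x z => (hf' x (g x z)).comp z (hg' x z), ?_⟩
    exact (ih h' hg0).bilin (ContinuousLinearMap.compL ℝ E E F) k'

theorem FC.param {Y : Type v} [TopologicalSpace Y] {p : Y → X} (hp : Continuous p) {k : ℕ} :
    ∀ {F : Type u} [NormedAddCommGroup F] [NormedSpace ℝ F] {f : X → E → F}, FC k f →
    FC k (fun y z => f (p y) z) := by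
  induction k with
  | zero =>
    intro F _ _ f hf
    exact Continuous.comp (g := fun q : X × E => f q.1 q.2) hf
      ((hp.comp continuous_fst).prodMk continuous_snd)
  | succ k ih =>
    intro F _ _ f hf
    obtain ⟨hc, f', hf', h'⟩ := hf
    exact ⟨Continuous.comp (g := fun q : X × E => f q.1 q.2) hc
      ((hp.comp continuous_fst).prodMk continuous_snd), fun y z => f' (p y) z,
      fun y z => hf' (p y) z, ih h'⟩

/-- inverses of operator valued families -/
theorem FC.opInv [CompleteSpace E] {k : ℕ} {a : X → E → (E →L[ℝ] E)}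
    (hu : ∀ x z, IsUnit (a x z)) (ha : FC k a) : FC k (fun x z => Ring.inverse (a x z)) := by
  have hcont : ∀ {a : X → E → (E →L[ℝ] E)}, (∀ x z, IsUnit (a x z)) →
      Continuous (fun p : X × E => a p.1 p.2) →
      Continuous (fun p : X × E => Ring.inverse (a p.1 p.2)) := by
    intro a hu hc
    rw [continuous_iff_continuousAt]
    rintro ⟨x, z⟩
    obtain ⟨U, hU⟩ := hu x z
    have h1 : ContinuousAt Ring.inverse ((fun p : X × E => a p.1 p.2) (x, z)) := by
      show ContinuousAt Ring.inverse (a x z)
      rw [← hU]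
      exact NormedRing.inverse_continuousAt U
    exact ContinuousAt.comp (g := Ring.inverse) (f := fun p : X × E => a p.1 p.2) h1
      hc.continuousAt
  induction k with
  | zero => exact hcont hu ha
  | succ k ih =>
    have hb := ih ha.pred
    obtain ⟨hc, a', ha', h'⟩ := ha
    let B : (E →L[ℝ] E) →L[ℝ] (E →L[ℝ] E) →L[ℝ] ((E →L[ℝ] E) →L[ℝ] (E →L[ℝ] E)) :=
      ContinuousLinearMap.mulLeftRight ℝ (E →L[ℝ] E)
    refine ⟨hcont hu hc, fun x z => (-(B (Ring.inverse (a x z)) (Ring.inverse (a x z)))).comp
      (a' x z), ?_, ?_⟩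
    · intro x z
      show HasFDerivAt (fun z => Ring.inverse (a x z))
        ((-(B (Ring.inverse (a x z)) (Ring.inverse (a x z)))).comp (a' x z)) z
      obtain ⟨U, hU⟩ := hu x z
      have h1 := hasFDerivAt_ringInverse (𝕜 := ℝ) U
      have h2 : Ring.inverse (a x z) = ((U⁻¹ : (E →L[ℝ] E)ˣ) : E →L[ℝ] E) := by
        rw [← hU, Ring.inverse_unit]
      rw [h2]
      have h3 : HasFDerivAt Ring.inverse (-(B
          ((U⁻¹ : (E →L[ℝ] E)ˣ) : E →L[ℝ] E) ((U⁻¹ : (E →L[ℝ] E)ˣ) : E →L[ℝ] E))) (a x z) := by
        rw [← hU]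
        exact h1
      exact h3.comp z (ha' x z)
    · have h1 := FC.bilin (F := E →L[ℝ] E) (H := E →L[ℝ] E)
        (G := (E →L[ℝ] E) →L[ℝ] (E →L[ℝ] E)) B hb hb
      have h2 := FC.clm (F := (E →L[ℝ] E) →L[ℝ] (E →L[ℝ] E))
        (H := (E →L[ℝ] E) →L[ℝ] (E →L[ℝ] E))
        (-(ContinuousLinearMap.id ℝ ((E →L[ℝ] E) →L[ℝ] (E →L[ℝ] E)))) h1
      exact FC.bilin (F := (E →L[ℝ] E) →L[ℝ] (E →L[ℝ] E)) (H := E →L[ℝ] (E →L[ℝ] E))
        (G := E →L[ℝ] (E →L[ℝ] E))
        (ContinuousLinearMap.compL ℝ E (E →L[ℝ] E) (E →L[ℝ] E)) h2 h'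

/-- inverses of families of diffeomorphisms -/
theorem FC.inv [FiniteDimensional ℝ E] {k : ℕ} {f g : X → E → E}
    (hfg : ∀ x y, f x (g x y) = y) (hgc : Continuous (fun p : X × E => g p.1 p.2))
    (hinj : ∀ x z y, fderiv ℝ (f x) z y = 0 → y = 0) (hf : FC k f) : FC k g := by
  haveI : CompleteSpace E := FiniteDimensional.complete ℝ E
  induction k with
  | zero => exact hgc
  | succ k ih =>
    have hg0 := ih hf.pred
    obtain ⟨hc, f', hf', h'⟩ := hf
    have hu : ∀ x y, IsUnit (f' x (g x y)) := by
      intro x y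
      obtain ⟨L, hL⟩ := equiv_of_inj (f' x (g x y)) (by
        intro w hw
        apply hinj x (g x y) w
        rwa [(hf' x (g x y)).fderiv])
      refine ⟨(ContinuousLinearEquiv.unitsEquiv ℝ E).symm L, ?_⟩
      rw [← hL]
      rfl
    refine ⟨hgc, fun x y => Ring.inverse (f' x (g x y)), ?_, ?_⟩
    · intro x y
      obtain ⟨L, hL⟩ := equiv_of_inj (f' x (g x y)) (by
        intro w hw
        apply hinj x (g x y) w
        rwa [(hf' x (g x y)).fderiv])
      have h1 : HasFDerivAt (f x) (L : E →L[ℝ] E) (g x y) := by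
        rw [hL]
        exact hf' x (g x y)
      have h2 : ContinuousAt (g x) y :=
        (Continuous.comp (g := fun p : X × E => g p.1 p.2) hgc
          (continuous_const.prodMk continuous_id)).continuousAt
      have h3 := HasFDerivAt.of_local_left_inverse h2 h1 (Filter.Eventually.of_forall (hfg x))
      show HasFDerivAt (g x) (Ring.inverse (f' x (g x y))) y
      rw [← hL, ContinuousLinearMap.ringInverse_equiv, ContinuousLinearMap.inverse_equiv]
      exact h3
    · exact FC.opInv hu (h'.comp hg0)

/-- joint continuity of the inverses of a family which is the identity outside `K` -/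
theorem continuous_inverse [FiniteDimensional ℝ E] {f g : X → E → E} {K : Set E}
    (hK : IsCompact K) (hfc : Continuous (fun p : X × E => f p.1 p.2))
    (hfg : ∀ x y, f x (g x y) = y) (hgf : ∀ x z, g x (f x z) = z)
    (hid : ∀ x z, z ∉ K → f x z = z) : Continuous (fun p : X × E => g p.1 p.2) := by
  haveI : ProperSpace E := FiniteDimensional.proper ℝ E
  rw [continuous_iff_continuousAt]
  rintro ⟨x₀, y₀⟩
  rw [ContinuousAt, Filter.tendsto_def]
  intro U hU
  set C := Metric.closedBall y₀ 1 with hC
  have hS : IsCompact ((K ∪ C) \ interior U) :=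
    (hK.union (isCompact_closedBall y₀ 1)).diff isOpen_interior
  have h1 : ∀ᶠ p : X × E in 𝓝 (x₀, y₀), ∀ z ∈ (K ∪ C) \ interior U, f p.1 z ≠ p.2 := by
    apply hS.eventually_forall_of_forall_eventually
    intro z hz
    have h2 : f x₀ z ≠ y₀ := by
      intro h
      apply hz.2
      have : g x₀ y₀ = z := by rw [← h, hgf]
      rw [← this]
      exact mem_interior_iff_mem_nhds.mpr hU
    have h3 : IsOpen {q : (X × E) × E | f q.1.1 q.2 ≠ q.1.2} := by
      apply isOpen_ne_fun
      · exact Continuous.comp (g := fun p : X × E => f p.1 p.2) hfc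
          ((continuous_fst.comp continuous_fst).prodMk continuous_snd)
      · exact continuous_snd.comp continuous_fst
    exact h3.mem_nhds h2
  have h2 : ∀ᶠ p : X × E in 𝓝 (x₀, y₀), p.2 ∈ C :=
    continuous_snd.continuousAt.eventually (Metric.closedBall_mem_nhds y₀ one_pos)
  filter_upwards [h1, h2] with p hp1 hp2
  show g p.1 p.2 ∈ U
  by_contra h
  apply hp1 (g p.1 p.2) _ (hfg p.1 p.2)
  refine ⟨?_, fun h' => h (interior_subset h')⟩
  by_cases hz : g p.1 p.2 ∈ K
  · exact Or.inl hz
  · right
    have := hid p.1 _ hz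
    rw [hfg] at this
    rw [← this]
    exact hp2

/-- jets to `FC` -/
theorem FC.of_jets {k : ℕ} : ∀ {F : Type u} [NormedAddCommGroup F] [NormedSpace ℝ F]
    {f : X → E → F}, (∀ x, ContDiff ℝ ∞ (f x)) →
    (∀ j : ℕ, Continuous (fun p : X × E => iteratedFDeriv ℝ j (f p.1) p.2)) → FC k f := by
  induction k with
  | zero =>
    intro F _ _ f hs hj
    have h1 : (fun p : X × E => f p.1 p.2) = fun p : X × E =>
        (continuousMultilinearCurryFin0 ℝ E F) (iteratedFDeriv ℝ 0 (f p.1) p.2) := by
      funext p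
      simp [iteratedFDeriv_zero_eq_comp]
    show Continuous (fun p : X × E => f p.1 p.2)
    rw [h1]
    exact (continuousMultilinearCurryFin0 ℝ E F).continuous.comp (hj 0)
  | succ k ih =>
    intro F _ _ f hs hj
    refine ⟨?_, fun x z => fderiv ℝ (f x) z, fun x z =>
      ((hs x).differentiable (by simp) z).hasFDerivAt, ?_⟩
    · have h1 : (fun p : X × E => f p.1 p.2) = fun p : X × E =>
          (continuousMultilinearCurryFin0 ℝ E F) (iteratedFDeriv ℝ 0 (f p.1) p.2) := by
        funext p
        simp [iteratedFDeriv_zero_eq_comp]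
      rw [h1]
      exact (continuousMultilinearCurryFin0 ℝ E F).continuous.comp (hj 0)
    · apply ih
      · intro x
        exact (hs x).fderiv_right (by simp)
      · intro j
        have h1 : (fun p : X × E => iteratedFDeriv ℝ j (fun z => fderiv ℝ (f p.1) z) p.2) =
            fun p : X × E => (continuousMultilinearCurryRightEquiv' ℝ j E F)
              (iteratedFDeriv ℝ (j + 1) (f p.1) p.2) := by
          funext p
          rw [iteratedFDeriv_succ_eq_comp_right]
          simp
        rw [h1]
        exact (continuousMultilinearCurryRightEquiv' ℝ j E F).continuous.comp (hj (j + 1))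

/-- `FC` to jets -/
theorem FC.jets {j : ℕ} : ∀ {F : Type u} [NormedAddCommGroup F] [NormedSpace ℝ F]
    {f : X → E → F}, FC j f →
    Continuous (fun p : X × E => iteratedFDeriv ℝ j (f p.1) p.2) := by
  induction j with
  | zero =>
    intro F _ _ f hf
    have h1 : (fun p : X × E => iteratedFDeriv ℝ 0 (f p.1) p.2) = fun p : X × E =>
        (continuousMultilinearCurryFin0 ℝ E F).symm (f p.1 p.2) := by
      funext p
      rw [iteratedFDeriv_zero_eq_comp]
      rfl
    rw [h1]
    exact (continuousMultilinearCurryFin0 ℝ E F).symm.continuous.comp hf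
  | succ j ih =>
    intro F _ _ f hf
    obtain ⟨hc, f', hf', h'⟩ := hf
    have h1 : (fun p : X × E => iteratedFDeriv ℝ (j + 1) (f p.1) p.2) = fun p : X × E =>
        (continuousMultilinearCurryRightEquiv' ℝ j E F).symm
          (iteratedFDeriv ℝ j (f' p.1) p.2) := by
      funext p
      rw [iteratedFDeriv_succ_eq_comp_right]
      have h2 : (fun y => fderiv ℝ (f p.1) y) = f' p.1 := by
        funext y
        exact (hf' p.1 y).fderiv
      rw [h2]
      rfl
    rw [h1]
    exact (continuousMultilinearCurryRightEquiv' ℝ j E F).symm.continuous.comp (ih h')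

end fam

end H518SY
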