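import Mathlib
import Pool.Agent.H518R3.SY9

/-! The Cayley path with parameters. -/

set_option linter.all false

namespace H518SY

open Function Set Filter TopologicalSpace
open scoped Topology NNReal ContDiff

variable {E : Type} [NormedAddCommGroup E] [NormedSpace ℝ E] [FiniteDimensional ℝ E]

theorem cayley_sympl {om : E →ₗ[ℝ] E →ₗ[ℝ] ℝ} (hnd : ∀ x, (∀ y, om x y = 0) → x = 0)
    {v g : E → E} {L : Set E} (hL : IsCompact L) (hv : ContDiff ℝ ∞ v) (hgs : ContDiff ℝ ∞ g)
    (s : ℝ) (hskew : ∀ y a b, om (fderiv ℝ v y a) b + om a (fderiv ℝ v y b) = 0)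
    (hg1 : ∀ z, g z - s • v (g z) = z) (hg2 : ∀ w, g (w - s • v w) = w)
    (hsupp : ∀ y, y ∉ L → v y = 0) :
    IsSympl om (fun z => (2 : ℝ) • g z - z) ∧ ∀ z, z ∉ L → (2 : ℝ) • g z - z = z := by
  set Γ : E → E := fun z => (2 : ℝ) • g z - z with hΓ
  have hΓs : ContDiff ℝ ∞ Γ := (hgs.const_smul _).sub contDiff_id
  have hpres : ∀ z x y, om (fderiv ℝ Γ z x) (fderiv ℝ Γ z y) = om x y := by
    intro z x y
    have hgd : HasFDerivAt g (fderiv ℝ g z) z := (hgs.differentiable (by simp) z).hasFDerivAt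
    set D := fderiv ℝ g z with hDdef
    have h1 : HasFDerivAt Γ ((2 : ℝ) • D - ContinuousLinearMap.id ℝ E) z :=
      (hgd.const_smul (2 : ℝ)).sub (hasFDerivAt_id z)
    have hvd : HasFDerivAt v (fderiv ℝ v (g z)) (g z) :=
      (hv.differentiable (by simp) _).hasFDerivAt
    have h2 : HasFDerivAt (fun z => g z - s • v (g z))
        (D - s • (fderiv ℝ v (g z)).comp D) z :=
      hgd.sub ((HasFDerivAt.comp (g := v) (f := fun z => g z) z hvd hgd).const_smul s)
    have h3 : (fun z => g z - s • v (g z)) = fun z => z := funext hg1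
    rw [h3] at h2
    have h4 := h2.unique (hasFDerivAt_id z)
    have h5 : ∀ a, D a - s • fderiv ℝ v (g z) (D a) = a := by
      intro a
      have := congrArg (fun L : E →L[ℝ] E => L a) h4
      simpa using this
    have h6 : ∀ a, fderiv ℝ Γ z a = D a + s • fderiv ℝ v (g z) (D a) := by
      intro a
      rw [h1.fderiv]
      have := h5 a
      simp only [ContinuousLinearMap.sub_apply, ContinuousLinearMap.smul_apply,
        ContinuousLinearMap.id_apply]
      rw [two_smul]
      nth_rewrite 3 [← this]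
      abel
    rw [h6, h6]
    conv_rhs => rw [← h5 x, ← h5 y]
    have h7 := hskew (g z) (D x) (D y)
    simp only [map_add, map_sub, map_smul, LinearMap.add_apply, LinearMap.sub_apply,
      LinearMap.smul_apply, smul_eq_mul]
    linear_combination (2 * s) * h7
  have hΓsupp : ∀ z, z ∉ L → Γ z = z := by
    intro z hz
    have h0 : v z = 0 := hsupp z hz
    have h1 := hg2 z
    rw [h0, smul_zero, sub_zero] at h1
    show (2 : ℝ) • g z - z = z
    rw [h1, two_smul]
    abel
  have hΓinj : ∀ z x, fderiv ℝ Γ z x = 0 → x = 0 := by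
    intro z x hx
    apply hnd
    intro y
    rw [← hpres z x y, hx]
    simp
  refine ⟨⟨hΓs, ?_, hpres⟩, hΓsupp⟩
  obtain ⟨ψ, h1, h2⟩ := bijective_iff_has_inverse.mp (hadamard hΓs hΓinj hL hΓsupp)
  exact ⟨ψ, inv_smooth hΓs h1 h2 hΓinj, h1, h2⟩

theorem IsSympl.inj {om : E →ₗ[ℝ] E →ₗ[ℝ] ℝ} (hnd : ∀ x, (∀ y, om x y = 0) → x = 0)
    {φ : E → E} (h : IsSympl om φ) (z x : E) (hx : fderiv ℝ φ z x = 0) : x = 0 := by
  apply hnd
  intro y
  rw [← h.pres z x y, hx]
  simp

theorem FC.of_GK {X : Type} [TopologicalSpace X] {om : E →ₗ[ℝ] E →ₗ[ℝ] ℝ} {K : Compacts E}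
    {α : X → GK om K} (hα : Continuous α) (k : ℕ) : FC k (fun x z => (α x).1 z) := by
  haveI : ProperSpace E := FiniteDimensional.proper ℝ E
  apply FC.of_jets
  · intro x
    exact (α x).2.1.smooth
  · intro j
    have h1 : Continuous (fun x => jet j (α x)) := (continuous_jet j).comp hα
    exact (h1.comp continuous_fst).eval continuous_snd

theorem param_path {X : Type} [TopologicalSpace X] {om : E →ₗ[ℝ] E →ₗ[ℝ] ℝ}
    (hnd : ∀ x, (∀ y, om x y = 0) → x = 0) {K : Compacts E}
    (α β : X → GK om K) (hα : Continuous α) (hβ : Continuous β)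
    (hnear : ∀ x z u, ‖fderiv ℝ (β x).1 z u - fderiv ℝ (α x).1 z u‖ ≤
      (1 / 2) * ‖fderiv ℝ (α x).1 z u‖) :
    ∃ K' : Compacts E, ∃ H : X × ℝ → GK om K', Continuous H ∧
      (∀ x, (H (x, 0)).1 = (α x).1) ∧ (∀ x, (H (x, 1)).1 = (β x).1) ∧
      (∀ x t, α x = β x → (H (x, t)).1 = (α x).1) := by
  haveI : ProperSpace E := FiniteDimensional.proper ℝ E
  have hαF : ∀ k, FC k (fun x z => (α x).1 z) := FC.of_GK hα
  have hβF : ∀ k, FC k (fun x z => (β x).1 z) := FC.of_GK hβ
  -- inverses of `α x`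
  choose A hA1 hA2 hA3 using fun x => (α x).2.1.inv
  have hAS : ∀ x, IsSympl om (A x) := fun x => (α x).2.1.symm (hA1 x) (hA2 x) (hA3 x)
  have hAK : ∀ x z, z ∉ K → A x z = z := by
    intro x z hz
    have := hA2 x z
    rwa [(α x).2.2 z hz] at this
  have hAc : Continuous (fun p : X × E => A p.1 p.2) :=
    continuous_inverse (f := fun x z => (α x).1 z) K.isCompact (hαF 0).cont
      (fun x y => hA3 x y) (fun x z => hA2 x z) (fun x z hz => (α x).2.2 z hz)
  have hAF : ∀ k, FC k A := fun k =>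
    FC.inv (f := fun x z => (α x).1 z) (fun x y => hA3 x y) hAc
      (fun x z y h => (α x).2.1.inj hnd z y h) (hαF k)
  -- the quotient family
  set θ : X → E → E := fun x z => (β x).1 (A x z) with hθ
  have hθF : ∀ k, FC k θ := fun k => (hβF k).comp (hAF k)
  have hθS : ∀ x, IsSympl om (θ x) := fun x => (β x).2.1.comp (hAS x)
  have hθK : ∀ x z, z ∉ K → θ x z = z := by
    intro x z hz
    show (β x).1 (A x z) = z
    rw [hAK x z hz, (β x).2.2 z hz]
  have hθK' : ∀ x z, z ∈ K → θ x z ∈ K := by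
    intro x z hz
    by_contra h
    have h1 := hθK x _ h
    obtain ⟨η, _, h2, _⟩ := (hθS x).inv
    have h3 := h2.injective h1
    rw [h3] at h
    exact h hz
  have hθD : ∀ x z y, ‖fderiv ℝ (θ x) z y - y‖ ≤ (1 / 2) * ‖y‖ := by
    intro x z y
    have hder : HasFDerivAt (θ x) ((fderiv ℝ (β x).1 (A x z)).comp (fderiv ℝ (A x) z)) z :=
      HasFDerivAt.comp z ((β x).2.1.smooth.differentiable (by simp) _).hasFDerivAt
        ((hA1 x).differentiable (by simp) _).hasFDerivAt
    have hder2 : HasFDerivAt (fun z => (α x).1 (A x z))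
        ((fderiv ℝ (α x).1 (A x z)).comp (fderiv ℝ (A x) z)) z :=
      HasFDerivAt.comp z ((α x).2.1.smooth.differentiable (by simp) _).hasFDerivAt
        ((hA1 x).differentiable (by simp) _).hasFDerivAt
    have h2 : (fun z => (α x).1 (A x z)) = fun z => z := funext (hA3 x)
    rw [h2] at hder2
    have h3 := hder2.unique (hasFDerivAt_id z)
    have h4 : fderiv ℝ (α x).1 (A x z) (fderiv ℝ (A x) z y) = y := by
      have := congrArg (fun L : E →L[ℝ] E => L y) h3
      simpa using this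
    have h5 := hnear x (A x z) (fderiv ℝ (A x) z y)
    rw [h4] at h5
    rw [hder.fderiv]
    exact h5
  have hspec : ∀ x, ∀ z : E, ∀ μ : ℝ, μ ≤ -1 → ∀ y : E, fderiv ℝ (θ x) z y = μ • y → y = 0 := by
    intro x z μ hμ y hy
    have h1 := hθD x z y
    rw [hy] at h1
    have h2 : μ • y - y = (μ - 1) • y := by rw [sub_smul, one_smul]
    rw [h2, norm_smul, Real.norm_eq_abs, abs_of_nonpos (by linarith)] at h1
    have h3 : ‖y‖ = 0 := by nlinarith [norm_nonneg y]
    exact norm_eq_zero.mp h3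
  choose V hV1 hV2 hV3 hV4 hV5 using fun x =>
    exists_v2 (hθS x).smooth K.isCompact (hθK x) (hspec x)
  -- the midpoint family and its inverse
  set F : X → E → E := fun x z => (2⁻¹ : ℝ) • (z + θ x z) with hF
  set g : X → E → E := fun x y => y - V x y with hg
  have hFg : ∀ x y, F x (g x y) = y := by
    intro x y
    show (2⁻¹ : ℝ) • ((y - V x y) + θ x (y - V x y)) = y
    rw [hV2]
    have : (y - V x y) + (y + V x y) = (2 : ℝ) • y := by rw [two_smul]; abel
    rw [this, smul_smul]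
    norm_num
  have hFs : ∀ x, ContDiff ℝ ∞ (F x) := fun x => (contDiff_id.add (hθS x).smooth).const_smul _
  have hFid : ∀ x z, z ∉ K → F x z = z := by
    intro x z hz
    show (2⁻¹ : ℝ) • (z + θ x z) = z
    rw [hθK x z hz, ← two_smul ℝ z, smul_smul]
    norm_num
  have hFD : ∀ x z y, fderiv ℝ (F x) z y = 0 → y = 0 := by
    intro x z y h
    have h1 : HasFDerivAt (F x)
        ((2⁻¹ : ℝ) • (ContinuousLinearMap.id ℝ E + fderiv ℝ (θ x) z)) z :=
      ((hasFDerivAt_id z).add
        ((hθS x).smooth.differentiable (by simp) z).hasFDerivAt).const_smul (2⁻¹ : ℝ)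
    rw [h1.fderiv] at h
    have h2 : (2⁻¹ : ℝ) • (y + fderiv ℝ (θ x) z y) = 0 := h
    have h3 : y + fderiv ℝ (θ x) z y = 0 := by
      rcases smul_eq_zero.mp h2 with h | h
      · norm_num at h
      · exact h
    apply hspec x z (-1) le_rfl y
    rw [neg_one_smul]
    exact (eq_neg_of_add_eq_zero_right h3)
  have hFinj : ∀ x, Injective (F x) := fun x =>
    (hadamard (hFs x) (hFD x) K.isCompact (hFid x)).1
  have hgF : ∀ x z, g x (F x z) = z := fun x z => hFinj x (hFg x (F x z))
  have hFF : ∀ k, FC k F := fun k =>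
    FC.clm ((2⁻¹ : ℝ) • ContinuousLinearMap.id ℝ E) (FC.id.add (hθF k))
  have hgc : Continuous (fun p : X × E => g p.1 p.2) :=
    continuous_inverse (f := F) K.isCompact (hFF 0).cont hFg hgF hFid
  have hgF' : ∀ k, FC k g := fun k => FC.inv hFg hgc hFD (hFF k)
  have hVF : ∀ k, FC k V := by
    intro k
    have h1 : FC k (fun x z => z + (-(ContinuousLinearMap.id ℝ E)) (g x z)) :=
      FC.id.add (FC.clm _ (hgF' k))
    have h2 : V = fun x z => z + (-(ContinuousLinearMap.id ℝ E)) (g x z) := by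
      funext x z
      show V x z = z + -(z - V x z)
      abel
    rw [h2]
    exact h1
  -- a common support
  set L : Set E := (fun p : E × E => (2⁻¹ : ℝ) • (p.1 + p.2)) '' ((K : Set E) ×ˢ (K : Set E))
    with hL
  have hLc : IsCompact L := (K.isCompact.prod K.isCompact).image
    ((continuous_fst.add continuous_snd).const_smul _)
  have hVL : ∀ x y, y ∉ L → V x y = 0 := by
    intro x y hy
    apply hV3 x y
    rintro ⟨z, hz, rfl⟩
    exact hy ⟨(z, θ x z), ⟨hz, hθK' x z hz⟩, rfl⟩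
  -- the time dependent inverse
  set σ : ℝ → ℝ := Real.smoothTransition with hσ
  have hσc : Continuous σ := Real.smoothTransition.continuous
  have hσ0 : ∀ t, 0 ≤ σ t := Real.smoothTransition.nonneg
  have hσ1 : ∀ t, σ t ≤ 1 := Real.smoothTransition.le_one
  choose G hG1 hG2 using fun p : X × ℝ =>
    bijective_iff_has_inverse.mp (hV4 p.1 (σ p.2) (hσ0 _) (hσ1 _))
  set T : X × ℝ → E → E := fun p w => w - σ p.2 • V p.1 w with hT
  have hTF : ∀ k, FC k T := by
    intro k
    have hVp : FC k (fun (p : X × ℝ) w => V p.1 w) := (hVF k).param continuous_fst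
    have hσp : FC k (fun (p : X × ℝ) (_ : E) => -σ p.2) :=
      FC.const (c := fun p : X × ℝ => -σ p.2) (hσc.comp continuous_snd).neg
    have h1 : FC k (fun (p : X × ℝ) w =>
        w + (ContinuousLinearMap.lsmul ℝ ℝ : ℝ →L[ℝ] E →L[ℝ] E) (-σ p.2) (V p.1 w)) :=
      FC.id.add (FC.bilin (F := ℝ) (H := E) (G := E) _ hσp hVp)
    have h2 : T = fun (p : X × ℝ) w =>
        w + (ContinuousLinearMap.lsmul ℝ ℝ : ℝ →L[ℝ] E →L[ℝ] E) (-σ p.2) (V p.1 w) := by
      funext p w
      show w - σ p.2 • V p.1 w = w + (-σ p.2) • V p.1 w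
      rw [neg_smul, sub_eq_add_neg]
    rw [h2]
    exact h1
  have hTs : ∀ p, ContDiff ℝ ∞ (T p) := fun p => contDiff_id.sub ((hV1 p.1).const_smul _)
  have hTD : ∀ p w y, fderiv ℝ (T p) w y = 0 → y = 0 := by
    intro p w y h
    have h1 : HasFDerivAt (T p)
        (ContinuousLinearMap.id ℝ E - σ p.2 • fderiv ℝ (V p.1) w) w :=
      (hasFDerivAt_id w).sub
        (((hV1 p.1).differentiable (by simp) w).hasFDerivAt.const_smul (σ p.2))
    rw [h1.fderiv] at h
    exact hV5 p.1 (σ p.2) (hσ0 _) (hσ1 _) w y h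
  have hTL : ∀ p w, w ∉ L → T p w = w := by
    intro p w hw
    show w - σ p.2 • V p.1 w = w
    rw [hVL _ w hw, smul_zero, sub_zero]
  have hGc : Continuous (fun q : (X × ℝ) × E => G q.1 q.2) :=
    continuous_inverse (f := T) hLc (hTF 0).cont (fun p y => hG2 p y) (fun p z => hG1 p z) hTL
  have hGF : ∀ k, FC k G := fun k => FC.inv (f := T) (fun p y => hG2 p y) hGc hTD (hTF k)
  have hGs : ∀ p, ContDiff ℝ ∞ (G p) := fun p =>
    inv_smooth (hTs p) (fun z => hG1 p z) (fun y => hG2 p y) (hTD p)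
  have hΓ : ∀ p : X × ℝ, IsSympl om (fun z => (2 : ℝ) • G p z - z) ∧
      ∀ z, z ∉ L → (2 : ℝ) • G p z - z = z := by
    intro p
    refine cayley_sympl hnd hLc (hV1 p.1) (hGs p) (σ p.2) ?_ (fun z => hG2 p z)
      (fun w => hG1 p w) (hVL p.1)
    intro y a b
    exact skew_of (om := om) (hθS p.1).smooth (hθS p.1).pres (hV1 p.1) (hV2 p.1) y a b
  set K' : Compacts E := K ⊔ ⟨L, hLc⟩ with hK'
  have hmem : ∀ z, z ∉ K' → z ∉ K ∧ z ∉ L := by
    intro z hz
    rw [hK'] at hz
    have : z ∉ ((K ⊔ ⟨L, hLc⟩ : Compacts E) : Set E) := hz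
    rw [Compacts.coe_sup] at this
    exact ⟨fun h => this (Or.inl h), fun h => this (Or.inr h)⟩
  have hprop : ∀ p : X × ℝ, IsSympl om (fun z => (2 : ℝ) • G p ((α p.1).1 z) - (α p.1).1 z) ∧
      ∀ z, z ∉ K' → (2 : ℝ) • G p ((α p.1).1 z) - (α p.1).1 z = z := by
    intro p
    refine ⟨(hΓ p).1.comp (α p.1).2.1, ?_⟩
    intro z hz
    obtain ⟨h1, h2⟩ := hmem z hz
    rw [(α p.1).2.2 z h1]
    exact (hΓ p).2 z h2
  refine ⟨K', fun p => ⟨fun z => (2 : ℝ) • G p ((α p.1).1 z) - (α p.1).1 z, hprop p⟩,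
    ?_, ?_, ?_, ?_⟩
  · apply continuous_to_GK
    intro k
    apply ContinuousMap.continuous_of_continuous_uncurry
    have hαp : FC k (fun (p : X × ℝ) z => (α p.1).1 z) := (hαF k).param continuous_fst
    have h1 : FC k (fun (p : X × ℝ) z =>
        ((2 : ℝ) • ContinuousLinearMap.id ℝ E) (G p ((α p.1).1 z)) +
        (-(ContinuousLinearMap.id ℝ E)) ((α p.1).1 z)) :=
      (FC.clm _ ((hGF k).comp hαp)).add (FC.clm _ hαp)
    have h2 : (fun (p : X × ℝ) z =>
        ((2 : ℝ) • ContinuousLinearMap.id ℝ E) (G p ((α p.1).1 z)) +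
        (-(ContinuousLinearMap.id ℝ E)) ((α p.1).1 z)) =
        fun (p : X × ℝ) z => (2 : ℝ) • G p ((α p.1).1 z) - (α p.1).1 z := by
      funext p z
      simp [sub_eq_add_neg]
    rw [h2] at h1
    exact h1.jets
  · intro x
    funext z
    have h0 : σ 0 = 0 := Real.smoothTransition.zero
    have h1 := hG1 (x, 0) ((α x).1 z)
    simp only [h0, zero_smul, sub_zero] at h1
    show (2 : ℝ) • G (x, 0) ((α x).1 z) - (α x).1 z = (α x).1 z
    rw [h1, two_smul]
    abel
  · intro x
    funext z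
    have h0 : σ 1 = 1 := Real.smoothTransition.one
    have h1 := hG2 (x, 1) ((α x).1 z)
    simp only [h0, one_smul] at h1
    have h2 := hV2 x (G (x, 1) ((α x).1 z))
    rw [h1] at h2
    have h3 : θ x ((α x).1 z) = (β x).1 z := by
      show (β x).1 (A x ((α x).1 z)) = (β x).1 z
      rw [hA2 x z]
    rw [h3] at h2
    show (2 : ℝ) • G (x, 1) ((α x).1 z) - (α x).1 z = (β x).1 z
    rw [h2, two_smul]
    nth_rewrite 3 [← h1]
    abel
  · intro x t hx
    funext z
    have h1 : ∀ w, V x w = 0 := by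
      intro w
      have h2 := hV2 x w
      have h3 : ∀ y, θ x y = y := by
        intro y
        show (β x).1 (A x y) = y
        rw [← hx]
        exact hA3 x y
      rw [h3] at h2
      have h4 : (2 : ℝ) • V x w = 0 := by
        rw [two_smul]
        have : w + V x w - (w - V x w) = 0 := by rw [← h2]; abel
        calc V x w + V x w = w + V x w - (w - V x w) := by abel
          _ = 0 := this
      rcases smul_eq_zero.mp h4 with h | h
      · norm_num at h
      · exact h
    have h2 := hG1 (x, t) ((α x).1 z)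
    simp only [h1, smul_zero, sub_zero] at h2
    show (2 : ℝ) • G (x, t) ((α x).1 z) - (α x).1 z = (α x).1 z
    rw [h2, two_smul]
    abel

end H518SY
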