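import Mathlib
import Pool.Agent.H518R3.SY10

/-! Countability of all homotopy groups. -/

set_option linter.all false

namespace H518SY

open Function Set Filter TopologicalSpace
open scoped Topology NNReal ContDiff unitInterval

variable {E : Type} [NormedAddCommGroup E] [NormedSpace ℝ E] [FiniteDimensional ℝ E]

theorem continuous_D (om : E →ₗ[ℝ] E →ₗ[ℝ] ℝ) (K : Compacts E) :
    Continuous (fun p : GK om K × E => fderiv ℝ p.1.1 p.2) := by
  haveI : ProperSpace E := FiniteDimensional.proper ℝ E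
  have h1 : Continuous (fun p : GK om K × E => (jet 1 p.1) p.2) :=
    ((continuous_jet 1).comp continuous_fst).eval continuous_snd
  have h2 : (fun p : GK om K × E => fderiv ℝ p.1.1 p.2) = fun p : GK om K × E =>
      (continuousMultilinearCurryFin1 ℝ E E) ((jet 1 p.1) p.2) := by
    funext p
    ext u
    simp [jet, iteratedFDeriv_one_apply]
  rw [h2]
  exact (continuousMultilinearCurryFin1 ℝ E E).continuous.comp h1

theorem fderiv_outside {om : E →ₗ[ℝ] E →ₗ[ℝ] ℝ} {K : Compacts E} (φ : GK om K) {z : E}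
    (hz : z ∉ K) : fderiv ℝ φ.1 z = ContinuousLinearMap.id ℝ E := by
  have hopen : IsOpen ((K : Set E)ᶜ) := K.isCompact.isClosed.isOpen_compl
  have heq : φ.1 =ᶠ[𝓝 z] fun z => z := by
    filter_upwards [hopen.mem_nhds hz] with w hw
    exact φ.2.2 w hw
  rw [heq.fderiv_eq]
  exact (hasFDerivAt_id z).fderiv

theorem near_nhds {X : Type} [TopologicalSpace X] [CompactSpace X] [LocallyCompactSpace X]
    {om : E →ₗ[ℝ] E →ₗ[ℝ] ℝ} (hnd : ∀ x, (∀ y, om x y = 0) → x = 0) {K : Compacts E}
    (α : C(X, GK om K)) :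
    ∀ᶠ β : C(X, GK om K) in 𝓝 α, ∀ x z u,
      ‖fderiv ℝ (β x).1 z u - fderiv ℝ (α x).1 z u‖ ≤ (1 / 2) * ‖fderiv ℝ (α x).1 z u‖ := by
  haveI : ProperSpace E := FiniteDimensional.proper ℝ E
  set S : Set (X × E × E) := univ ×ˢ ((K : Set E) ×ˢ Metric.sphere (0 : E) 1) with hS
  have hSc : IsCompact S := isCompact_univ.prod (K.isCompact.prod (isCompact_sphere 0 1))
  have hD := continuous_D om K
  have hcβ : Continuous (fun q : C(X, GK om K) × (X × E × E) =>
      fderiv ℝ (q.1 q.2.1).1 q.2.2.1 q.2.2.2) := by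
    have h1 : Continuous (fun q : C(X, GK om K) × (X × E × E) => q.1 q.2.1) :=
      continuous_fst.eval (continuous_fst.comp continuous_snd)
    have h2 : Continuous (fun q : C(X, GK om K) × (X × E × E) =>
        fderiv ℝ (q.1 q.2.1).1 q.2.2.1) :=
      hD.comp (h1.prodMk (continuous_fst.comp (continuous_snd.comp continuous_snd)))
    exact h2.clm_apply (continuous_snd.comp (continuous_snd.comp continuous_snd))
  have hcα : Continuous (fun q : C(X, GK om K) × (X × E × E) =>
      fderiv ℝ (α q.2.1).1 q.2.2.1 q.2.2.2) :=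
    hcβ.comp (continuous_const.prodMk continuous_snd)
  have hev : ∀ᶠ β : C(X, GK om K) in 𝓝 α, ∀ q ∈ S,
      ‖fderiv ℝ (β q.1).1 q.2.1 q.2.2 - fderiv ℝ (α q.1).1 q.2.1 q.2.2‖ <
        (1 / 2) * ‖fderiv ℝ (α q.1).1 q.2.1 q.2.2‖ := by
    apply hSc.eventually_forall_of_forall_eventually
    intro q hq
    have hopen : IsOpen {p : C(X, GK om K) × (X × E × E) |
        ‖fderiv ℝ (p.1 p.2.1).1 p.2.2.1 p.2.2.2 - fderiv ℝ (α p.2.1).1 p.2.2.1 p.2.2.2‖ <
        (1 / 2) * ‖fderiv ℝ (α p.2.1).1 p.2.2.1 p.2.2.2‖} :=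
      isOpen_lt (hcβ.sub hcα).norm (continuous_const.mul hcα.norm)
    apply hopen.mem_nhds
    show ‖fderiv ℝ (α q.1).1 q.2.1 q.2.2 - fderiv ℝ (α q.1).1 q.2.1 q.2.2‖ <
      (1 / 2) * ‖fderiv ℝ (α q.1).1 q.2.1 q.2.2‖
    rw [sub_self, norm_zero]
    have h1 : fderiv ℝ (α q.1).1 q.2.1 q.2.2 ≠ 0 := by
      intro h
      have h2 := (α q.1).2.1.inj hnd _ _ h
      have h3 : q.2.2 ∈ Metric.sphere (0 : E) 1 := hq.2.2
      rw [h2] at h3
      simp at h3
    have := norm_pos_iff.mpr h1
    positivity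
  filter_upwards [hev] with β hβ x z u
  by_cases hz : z ∈ K
  · by_cases hu : u = 0
    · rw [hu]
      simp
    · have hn : 0 < ‖u‖ := norm_pos_iff.mpr hu
      have h1 := hβ (x, z, ‖u‖⁻¹ • u) ⟨trivial, hz, by
        simp [norm_smul, hn.ne']⟩
      simp only [map_smul, ← smul_sub, norm_smul, norm_inv, norm_norm] at h1
      have h2 := (mul_lt_mul_of_pos_left h1 hn).le
      have e1 : ‖u‖ * (‖u‖⁻¹ * ‖fderiv ℝ (β x).1 z u - fderiv ℝ (α x).1 z u‖) =
          ‖fderiv ℝ (β x).1 z u - fderiv ℝ (α x).1 z u‖ := by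
        field_simp
      have e2 : ‖u‖ * (1 / 2 * (‖u‖⁻¹ * ‖fderiv ℝ (α x).1 z u‖)) =
          1 / 2 * ‖fderiv ℝ (α x).1 z u‖ := by
        field_simp
      rw [e1, e2] at h2
      exact h2
  · rw [fderiv_outside (β x) hz, fderiv_outside (α x) hz, sub_self, norm_zero]
    positivity

/-- the composite with the inclusion -/
noncomputable def toG {X : Type} [TopologicalSpace X] {om : E →ₗ[ℝ] E →ₗ[ℝ] ℝ} {K : Compacts E}
    (α : C(X, GK om K)) : C(X, G om) :=
  ⟨fun x => incl om K (α x), (continuous_incl om K).comp α.continuous⟩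

theorem homotopic_of_near {X : Type} [TopologicalSpace X] {om : E →ₗ[ℝ] E →ₗ[ℝ] ℝ}
    (hnd : ∀ x, (∀ y, om x y = 0) → x = 0) {K : Compacts E} (α β : C(X, GK om K))
    (hnear : ∀ x z u, ‖fderiv ℝ (β x).1 z u - fderiv ℝ (α x).1 z u‖ ≤
      (1 / 2) * ‖fderiv ℝ (α x).1 z u‖) (S : Set X) (hS : ∀ x ∈ S, α x = β x) :
    (toG α).HomotopicRel (toG β) S := by
  obtain ⟨K', H, hH, h0, h1, hrel⟩ := param_path hnd (fun x => α x) (fun x => β x)
    α.continuous β.continuous hnear
  refine ⟨⟨⟨⟨fun q : I × X => incl om K' (H (q.2, (q.1 : ℝ))), ?_⟩, ?_, ?_⟩, ?_⟩⟩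
  · exact (continuous_incl om K').comp
      (hH.comp (continuous_snd.prodMk (continuous_subtype_val.comp continuous_fst)))
  · intro x
    apply Subtype.ext
    exact h0 x
  · intro x
    apply Subtype.ext
    exact h1 x
  · intro t x hx
    apply Subtype.ext
    exact hrel x t (hS x hx)

theorem continuous_jetG (om : E →ₗ[ℝ] E →ₗ[ℝ] ℝ) (k : ℕ) :
    Continuous (fun φ : G om => (⟨iteratedFDeriv ℝ k φ.1,
      φ.2.1.smooth.continuous_iteratedFDeriv (by exact_mod_cast le_top)⟩ :
        C(E, E [×k]→L[ℝ] E))) := by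
  refine continuous_iSup_dom.mpr fun K => continuous_coinduced_dom.mpr ?_
  exact continuous_jet (om := om) (K := K) k

theorem continuous_evalGK {om : E →ₗ[ℝ] E →ₗ[ℝ] ℝ} {K : Compacts E} (z : E) :
    Continuous (fun φ : GK om K => φ.1 z) := by
  have h := (FC.of_GK (om := om) (K := K) (α := fun x : GK om K => x) continuous_id 0).cont
  exact Continuous.comp (g := fun p : GK om K × E => p.1.1 p.2) h
    (continuous_id.prodMk continuous_const)

/-- A continuous image of a compact space in `G` has uniformly bounded supports. -/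
theorem exists_ball {X : Type} [TopologicalSpace X] [CompactSpace X]
    {om : E →ₗ[ℝ] E →ₗ[ℝ] ℝ} {f : X → G om} (hf : Continuous f) :
    ∃ m : ℕ, ∀ x z, (m : ℝ) < ‖z‖ → (f x).1 z = z := by
  haveI : ProperSpace E := FiniteDimensional.proper ℝ E
  by_contra hcon
  push Not at hcon
  choose xs zs hz hne using hcon
  set c : ℕ → ℝ := fun j => ‖(f (xs j)).1 (zs j) - zs j‖ with hc
  have hcpos : ∀ j, 0 < c j := fun j => norm_pos_iff.mpr (sub_ne_zero.mpr (hne j))
  set T : ℕ → G om → ℝ := fun j φ => (j : ℝ) / c j * ‖φ.1 (zs j) - zs j‖ with hT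
  have hT0 : ∀ j φ, 0 ≤ T j φ := fun j φ =>
    mul_nonneg (div_nonneg (Nat.cast_nonneg j) (hcpos j).le) (norm_nonneg _)
  -- local finiteness
  have hfin : ∀ K : Compacts E, ∃ m : ℕ, ∀ j, j ∉ Finset.range m → ∀ φ : GK om K,
      T j (incl om K φ) = 0 := by
    intro K
    obtain ⟨R, hR⟩ := K.isCompact.isBounded.subset_closedBall (0 : E)
    obtain ⟨m, hm⟩ := exists_nat_ge R
    refine ⟨m, ?_⟩
    intro j hj φ
    rw [Finset.mem_range, not_lt] at hj
    have h1 : zs j ∉ K := by
      intro h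
      have h2 := hR h
      rw [mem_closedBall_zero_iff] at h2
      have h3 := hz j
      have h4 : (m : ℝ) ≤ j := by exact_mod_cast hj
      linarith
    show (j : ℝ) / c j * ‖φ.1 (zs j) - zs j‖ = 0
    rw [φ.2.2 _ h1, sub_self, norm_zero, mul_zero]
  set F : G om → ℝ := fun φ => ∑' j, T j φ with hF
  have hFc : Continuous F := by
    refine continuous_iSup_dom.mpr fun K => continuous_coinduced_dom.mpr ?_
    obtain ⟨m, hm⟩ := hfin K
    have h1 : F ∘ incl om K = fun φ => ∑ j ∈ Finset.range m, T j (incl om K φ) := by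
      funext φ
      show ∑' j, T j (incl om K φ) = _
      exact tsum_eq_sum (fun j hj => hm j hj φ)
    rw [h1]
    apply continuous_finset_sum
    intro j _
    exact continuous_const.mul ((continuous_evalGK (zs j)).sub continuous_const).norm
  obtain ⟨M, hM⟩ := (isCompact_range (hFc.comp hf)).bddAbove
  obtain ⟨j, hj⟩ := exists_nat_gt M
  have h1 : F (f (xs j)) ≤ M := hM ⟨xs j, rfl⟩
  have h2 : (j : ℝ) ≤ F (f (xs j)) := by
    obtain ⟨K, hK⟩ := (f (xs j)).2.2
    obtain ⟨m, hm⟩ := hfin K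
    have h3 : f (xs j) = incl om K ⟨(f (xs j)).1, (f (xs j)).2.1, hK⟩ := rfl
    have hsum : Summable (fun i => T i (f (xs j))) := by
      apply summable_of_ne_finset_zero (s := Finset.range m)
      intro i hi
      exact hm i hi ⟨(f (xs j)).1, (f (xs j)).2.1, hK⟩
    have h4 : T j (f (xs j)) ≤ ∑' i, T i (f (xs j)) :=
      hsum.le_tsum j (fun i _ => hT0 i _)
    have h5 : T j (f (xs j)) = j := by
      show (j : ℝ) / c j * c j = j
      rw [div_mul_cancel₀ _ (hcpos j).ne']
    rw [← h5]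
    exact h4
  linarith

theorem countable_homotopyGroup {om : E →ₗ[ℝ] E →ₗ[ℝ] ℝ}
    (hnd : ∀ x, (∀ y, om x y = 0) → x = 0) (N : Type) [Finite N] (e : G om) :
    Countable (HomotopyGroup N (G om) e) := by
  haveI : ProperSpace E := FiniteDimensional.proper ℝ E
  haveI := Fintype.ofFinite N
  let B : ℕ → Compacts E := fun j => ⟨Metric.closedBall (0 : E) j, isCompact_closedBall 0 j⟩
  let Q : ℕ → Type := fun j =>
    {p : C(N → I, GK om (B j)) // ∀ y ∈ Cube.boundary N, incl om (B j) (p y) = e}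
  let Φ : ∀ j, Q j → HomotopyGroup N (G om) e := fun j p =>
    Quotient.mk (GenLoop.Homotopic.setoid N e) ⟨toG p.1, p.2⟩
  have h1 : ∀ j, (range (Φ j)).Countable := by
    intro j
    haveI := secondCountable_GK om (B j)
    haveI : SecondCountableTopology C(N → I, GK om (B j)) := inferInstance
    haveI : SecondCountableTopology (Q j) :=
      TopologicalSpace.Subtype.secondCountableTopology
        {p : C(N → I, GK om (B j)) | ∀ y ∈ Cube.boundary N, incl om (B j) (p y) = e}
    have hloc : ∀ p : Q j, {q : Q j | Φ j p = Φ j q} ∈ 𝓝 p := by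
      intro p
      have h2 := (continuous_subtype_val (p := fun p : C(N → I, GK om (B j)) =>
        ∀ y ∈ Cube.boundary N, incl om (B j) (p y) = e)).continuousAt (x := p)
      have h3 := h2.eventually (near_nhds hnd p.1)
      refine mem_of_superset h3 ?_
      intro q hq
      apply Quotient.sound
      show (toG p.1).HomotopicRel (toG q.1) (Cube.boundary N)
      apply homotopic_of_near hnd p.1 q.1 hq
      intro y hy
      have h4 := (p.2 y hy).trans (q.2 y hy).symm
      apply Subtype.ext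
      exact congrArg (fun φ : G om => φ.1) h4
    obtain ⟨s, hs, hsu⟩ := TopologicalSpace.countable_cover_nhds hloc
    refine (hs.image (Φ j)).mono ?_
    rintro _ ⟨q, rfl⟩
    have : q ∈ ⋃ x ∈ s, {q | Φ j x = Φ j q} := by
      rw [hsu]; trivial
    rw [mem_iUnion₂] at this
    obtain ⟨p, hp, hj⟩ := this
    exact ⟨p, hp, hj⟩
  have h2 : (univ : Set (HomotopyGroup N (G om) e)) ⊆ ⋃ j, range (Φ j) := by
    intro x _
    obtain ⟨γ, rfl⟩ := Quotient.exists_rep x
    obtain ⟨m, hm⟩ := exists_ball (om := om) (f := fun y => γ.1 y) γ.1.continuous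
    have hsupp : ∀ y z, z ∉ B m → (γ.1 y).1 z = z := by
      intro y z hz
      apply hm
      have h1 : z ∉ Metric.closedBall (0 : E) m := hz
      rw [mem_closedBall_zero_iff, not_le] at h1
      exact h1
    let p : C(N → I, GK om (B m)) := ⟨fun y => ⟨(γ.1 y).1, (γ.1 y).2.1, hsupp y⟩, by
      apply continuous_to_GK
      intro k
      exact (continuous_jetG om k).comp γ.1.continuous⟩
    have hp : ∀ y, incl om (B m) (p y) = γ.1 y := fun y => rfl
    refine mem_iUnion.mpr ⟨m, ⟨p, fun y hy => by rw [hp]; exact γ.2 y hy⟩, ?_⟩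
    show Quotient.mk (GenLoop.Homotopic.setoid N e) _ = Quotient.mk _ γ
    congr 1
  rw [← Set.countable_univ_iff]
  exact (Set.countable_iUnion h1).mono h2

end H518SY
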