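import Mathlib
import Pool.Agent.H518R3.SY11

/-! Products and conjugations on `π₀`. -/

set_option linter.all false

namespace H518SY

open Function Set Filter TopologicalSpace
open scoped Topology NNReal ContDiff unitInterval

variable {E : Type} [NormedAddCommGroup E] [NormedSpace ℝ E] [FiniteDimensional ℝ E]

/-- A family which is continuous in the `C^∞` sense and has uniform support joins its ends. -/
theorem joined_of_FC {om : E →ₗ[ℝ] E →ₗ[ℝ] ℝ} {Γ : I → E → E} (hΓ : ∀ k, FC k Γ)
    (K : Compacts E) (hG : ∀ t, IsSympl om (Γ t)) (hs : ∀ t z, z ∉ K → Γ t z = z)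
    (φ ψ : G om) (hφ : ∀ z, φ.1 z = Γ 0 z) (hψ : ∀ z, ψ.1 z = Γ 1 z) : Joined φ ψ := by
  set γ : I → GK om K := fun t => ⟨Γ t, hG t, hs t⟩ with hγ
  have hc : Continuous γ := by
    apply continuous_to_GK
    intro k
    apply ContinuousMap.continuous_of_continuous_uncurry
    exact (hΓ k).jets
  refine ⟨⟨⟨fun t => incl om K (γ t), (continuous_incl om K).comp hc⟩, ?_, ?_⟩⟩
  · apply Subtype.ext
    funext z
    exact (hφ z).symm
  · apply Subtype.ext
    funext z
    exact (hψ z).symm

/-- A path in `G` is a family as above. -/
theorem FC_of_joined {om : E →ₗ[ℝ] E →ₗ[ℝ] ℝ} {φ ψ : G om} (h : Joined φ ψ) :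
    ∃ (Γ : I → E → E) (K : Compacts E), (∀ k, FC k Γ) ∧ (∀ t, IsSympl om (Γ t)) ∧
      (∀ t z, z ∉ K → Γ t z = z) ∧ Γ 0 = φ.1 ∧ Γ 1 = ψ.1 := by
  haveI : ProperSpace E := FiniteDimensional.proper ℝ E
  obtain ⟨p⟩ := h
  obtain ⟨m, hm⟩ := exists_ball (om := om) (f := fun t => p t) p.continuous
  set B : Compacts E := ⟨Metric.closedBall (0 : E) m, isCompact_closedBall 0 m⟩ with hB
  have hsupp : ∀ t z, z ∉ B → (p t).1 z = z := by
    intro y z hz
    apply hm
    have h1 : z ∉ Metric.closedBall (0 : E) m := hz
    rw [mem_closedBall_zero_iff, not_le] at h1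
    exact h1
  let q : I → GK om B := fun t => ⟨(p t).1, (p t).2.1, hsupp t⟩
  have hq : Continuous q := by
    apply continuous_to_GK
    intro k
    exact (continuous_jetG om k).comp p.continuous
  refine ⟨fun t => (p t).1, B, ?_, fun t => (p t).2.1, hsupp, ?_, ?_⟩
  · intro k
    exact FC.of_GK hq k
  · exact congrArg (fun φ : G om => φ.1) p.source
  · exact congrArg (fun φ : G om => φ.1) p.target

/-- Composition is compatible with path components. -/
theorem joined_mul {om : E →ₗ[ℝ] E →ₗ[ℝ] ℝ} {φ φ' ψ ψ' a a' : G om} (h : Joined φ φ')
    (h' : Joined ψ ψ') (ha : ∀ z, a.1 z = φ.1 (ψ.1 z)) (ha' : ∀ z, a'.1 z = φ'.1 (ψ'.1 z)) :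
    Joined a a' := by
  obtain ⟨Γ, K, h1, h2, h3, h4, h5⟩ := FC_of_joined h
  obtain ⟨Δ, L, k1, k2, k3, k4, k5⟩ := FC_of_joined h'
  refine joined_of_FC (Γ := fun t z => Γ t (Δ t z)) (fun k => (h1 k).comp (k1 k)) (K ⊔ L)
    (fun t => (h2 t).comp (k2 t)) ?_ a a' ?_ ?_
  · intro t z hz
    have hz' : z ∉ ((K ⊔ L : Compacts E) : Set E) := hz
    rw [Compacts.coe_sup] at hz'
    have hK : z ∉ K := fun h => hz' (Or.inl h)
    have hL : z ∉ L := fun h => hz' (Or.inr h)
    show Γ t (Δ t z) = z
    rw [k3 t z hL, h3 t z hK]
  · intro z
    rw [ha, h4, k4]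
  · intro z
    rw [ha', h5, k5]

/-- The product of `φ` and `ψ` and the product in the other order, up to path components. -/
theorem joined_mul_comm {om : E →ₗ[ℝ] E →ₗ[ℝ] ℝ} {φ φ' ψ ψ' a a' : G om} (h : Joined φ φ')
    (h' : Joined ψ ψ') (ha : ∀ z, a.1 z = φ.1 (ψ.1 z)) (ha' : ∀ z, a'.1 z = ψ'.1 (φ'.1 z)) :
    Joined a a' := by
  obtain ⟨K, hK⟩ := φ.2.2
  obtain ⟨L, hL⟩ := ψ.2.2
  let b : G om := ⟨fun z => ψ.1 (φ.1 z), ψ.2.1.comp φ.2.1, K ⊔ L, by
    intro z hz
    have hz' : z ∉ ((K ⊔ L : Compacts E) : Set E) := hz
    rw [Compacts.coe_sup] at hz'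
    have h1 : z ∉ K := fun h => hz' (Or.inl h)
    have h2 : z ∉ L := fun h => hz' (Or.inr h)
    show ψ.1 (φ.1 z) = z
    rw [hK z h1, hL z h2]⟩
  exact (joined_comm φ ψ a b ha (fun z => rfl)).trans
    (joined_mul h' h (fun z => rfl) ha')

section transvection

/-- the transvection `x ↦ x + c ω(v, x) v` -/
noncomputable def transv (om : E →ₗ[ℝ] E →ₗ[ℝ] ℝ) (v : E) (c : ℝ) : E →ₗ[ℝ] E :=
  LinearMap.id + (c • om v).smulRight v

theorem transv_apply (om : E →ₗ[ℝ] E →ₗ[ℝ] ℝ) (v : E) (c : ℝ) (x : E) :
    transv om v c x = x + (c * om v x) • v := by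
  simp [transv]

theorem transv_inv {om : E →ₗ[ℝ] E →ₗ[ℝ] ℝ} (halt : ∀ x, om x x = 0) (v : E) (c : ℝ) (x : E) :
    transv om v (-c) (transv om v c x) = x := by
  rw [transv_apply, transv_apply]
  simp only [map_add, map_smul, halt, smul_eq_mul, mul_zero, add_zero]
  rw [neg_mul, neg_smul]
  abel

theorem skew_of_alt {om : E →ₗ[ℝ] E →ₗ[ℝ] ℝ} (halt : ∀ x, om x x = 0) (x y : E) :
    om x y = - om y x := by
  have := halt (x + y)
  simp only [map_add, LinearMap.add_apply, halt] at this
  linarith

theorem transv_pres {om : E →ₗ[ℝ] E →ₗ[ℝ] ℝ} (halt : ∀ x, om x x = 0) (v : E) (c : ℝ)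
    (x y : E) : om (transv om v c x) (transv om v c y) = om x y := by
  rw [transv_apply, transv_apply]
  simp only [map_add, map_smul, LinearMap.add_apply, LinearMap.smul_apply, halt, smul_eq_mul]
  rw [skew_of_alt halt x v]
  ring

/-- Linear maps preserving a nondegenerate alternating form are products of transvections. -/
theorem transvection_induction {om : E →ₗ[ℝ] E →ₗ[ℝ] ℝ} (halt : ∀ x, om x x = 0)
    (hnd : ∀ x, (∀ y, om x y = 0) → x = 0) (P : (E →ₗ[ℝ] E) → Prop) (h1 : P LinearMap.id)
    (hmul : ∀ v c A, (∀ x y, om (A x) (A y) = om x y) → P A → P ((transv om v c).comp A)) :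
    ∀ (A : E →ₗ[ℝ] E), (∀ x y, om (A x) (A y) = om x y) → P A := by
  -- induction on the codimension of the fixed space
  have key : ∀ (m : ℕ) (A : E →ₗ[ℝ] E), (∀ x y, om (A x) (A y) = om x y) →
      Module.finrank ℝ E - Module.finrank ℝ (LinearMap.ker (A - LinearMap.id)) ≤ m → P A := by
    intro m
    induction m with
    | zero =>
      intro A hA hm
      have h2 : Module.finrank ℝ (LinearMap.ker (A - LinearMap.id)) = Module.finrank ℝ E := by
        have := Submodule.finrank_le (LinearMap.ker (A - LinearMap.id))
        omega
      have h3 := Submodule.eq_top_of_finrank_eq h2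
      have h4 : A = LinearMap.id := by
        have := LinearMap.ker_eq_top.mp h3
        exact sub_eq_zero.mp this
      rw [h4]
      exact h1
    | succ m ih =>
      intro A hA hm
      -- the first kind of step
      have step : ∀ (A : E →ₗ[ℝ] E), (∀ x y, om (A x) (A y) = om x y) →
          Module.finrank ℝ E - Module.finrank ℝ (LinearMap.ker (A - LinearMap.id)) ≤ m + 1 →
          ∀ x, om (A x) x ≠ 0 → P A := by
        intro A hA hm x hx
        set w := A x - x with hw
        have hwx : om w x = om (A x) x := by
          rw [hw, map_sub, LinearMap.sub_apply, halt, sub_zero]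
        set c : ℝ := (om w x)⁻¹ with hc
        have hT : transv om w c x = A x := by
          rw [transv_apply, hc, inv_mul_cancel₀ (by rw [hwx]; exact hx), one_smul, hw]
          abel
        set A' : E →ₗ[ℝ] E := (transv om w (-c)).comp A with hA'
        have hA'p : ∀ x y, om (A' x) (A' y) = om x y := by
          intro x y
          rw [hA']
          simp only [LinearMap.comp_apply]
          rw [transv_pres halt, hA]
        have hA'A : A = (transv om w c).comp A' := by
          ext y
          rw [hA']
          simp only [LinearMap.comp_apply]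
          have := transv_inv halt w (-c) (A y)
          rw [neg_neg] at this
          rw [this]
        rw [hA'A]
        apply hmul _ _ _ hA'p
        apply ih A' hA'p
        -- the fixed space has grown
        have hle : LinearMap.ker (A - LinearMap.id) < LinearMap.ker (A' - LinearMap.id) := by
          rw [SetLike.lt_iff_le_and_exists]
          constructor
          · intro y hy
            rw [LinearMap.mem_ker] at hy ⊢
            have hy' : A y = y := sub_eq_zero.mp hy
            have h5 : om w y = 0 := by
              rw [hw, map_sub, LinearMap.sub_apply]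
              nth_rewrite 1 [← hy']
              rw [hA, sub_self]
            show A' y - y = 0
            rw [hA']
            simp only [LinearMap.comp_apply]
            rw [hy', transv_apply, h5, mul_zero, zero_smul, add_zero, sub_self]
          · refine ⟨x, ?_, ?_⟩
            · rw [LinearMap.mem_ker]
              show A' x - x = 0
              rw [hA']
              simp only [LinearMap.comp_apply]
              rw [← hT, transv_inv halt, sub_self]
            · rw [LinearMap.mem_ker]
              intro h
              have h' : A x = x := sub_eq_zero.mp h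
              apply hx
              rw [h', halt]
        have hlt := Submodule.finrank_lt_finrank_of_lt hle
        have hub := Submodule.finrank_le (LinearMap.ker (A' - LinearMap.id))
        omega
      by_cases hyp : ∃ x, om (A x) x ≠ 0
      · obtain ⟨x, hx⟩ := hyp
        exact step A hA hm x hx
      · push Not at hyp
        by_cases hA1 : A = LinearMap.id
        · rw [hA1]
          exact h1
        -- `A` is a selfadjoint involution
        have hsa : ∀ x y, om (A x) y = om x (A y) := by
          intro x y
          have h2 := hyp (x + y)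
          simp only [map_add, LinearMap.add_apply, hyp] at h2
          rw [skew_of_alt halt x (A y)]
          linarith
        have hinv : ∀ x, A (A x) = x := by
          intro x
          have : A (A x) - x = 0 := by
            apply hnd
            intro y
            rw [map_sub, LinearMap.sub_apply, hsa, hA, sub_self]
          exact sub_eq_zero.mp this
        -- a vector on which `A` is `-1`
        obtain ⟨u, hu⟩ : ∃ u, A u ≠ u := by
          by_contra h
          push Not at h
          exact hA1 (LinearMap.ext h)
        set v := u - A u with hv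
        have hv0 : v ≠ 0 := fun h => hu (sub_eq_zero.mp h).symm
        have hAv : A v = -v := by
          rw [hv, map_sub, hinv]
          abel
        -- a vector pairing with `v`
        obtain ⟨y, hy⟩ : ∃ y, om v y ≠ 0 := by
          by_contra h
          push Not at h
          exact hv0 (hnd v h)
        set x := y - A y with hx
        have hAx : A x = -x := by
          rw [hx, map_sub, hinv]
          abel
        have hvx : om v x = 2 * om v y := by
          rw [hx, map_sub, ← hsa, hAv, map_neg, LinearMap.neg_apply]
          ring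
        have hvx0 : om v x ≠ 0 := by
          rw [hvx]
          exact mul_ne_zero two_ne_zero hy
        set A' : E →ₗ[ℝ] E := (transv om v 1).comp A with hA'
        have hA'p : ∀ x y, om (A' x) (A' y) = om x y := by
          intro x y
          rw [hA']
          simp only [LinearMap.comp_apply]
          rw [transv_pres halt, hA]
        have hA'A : A = (transv om v (-1)).comp A' := by
          ext y
          rw [hA']
          simp only [LinearMap.comp_apply]
          rw [transv_inv halt v 1 (A y)]
        have hle : LinearMap.ker (A - LinearMap.id) ≤ LinearMap.ker (A' - LinearMap.id) := by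
          intro y hy
          rw [LinearMap.mem_ker] at hy ⊢
          have hy' : A y = y := sub_eq_zero.mp hy
          have h5 : om v y = 0 := by
            have h6 : om v y = -om v y := by
              nth_rewrite 1 [← hy']
              rw [← hsa, hAv, map_neg, LinearMap.neg_apply]
            linarith
          show A' y - y = 0
          rw [hA']
          simp only [LinearMap.comp_apply]
          rw [hy', transv_apply, h5, mul_zero, zero_smul, add_zero, sub_self]
        have hrk := Submodule.finrank_mono hle
        rw [hA'A]
        apply hmul _ _ _ hA'p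
        apply step A' hA'p (by omega) x
        rw [hA']
        simp only [LinearMap.comp_apply]
        rw [hAx, transv_apply]
        simp only [map_neg, map_add, map_smul, LinearMap.add_apply, LinearMap.neg_apply,
          LinearMap.smul_apply, halt, smul_eq_mul]
        intro h
        apply hvx0
        have : om v x * om v x = 0 := by linarith
        exact mul_self_eq_zero.mp this
  intro A hA
  exact key _ A hA le_rfl

end transvection

end H518SY
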