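import Mathlib
import Pool.Agent.H518R3.SY12

/-! Conjugation by arbitrary symplectomorphisms acts trivially on `π₀`. -/

set_option linter.all false

namespace H518SY

open Function Set Filter TopologicalSpace
open scoped Topology NNReal ContDiff unitInterval

variable {E : Type} [NormedAddCommGroup E] [NormedSpace ℝ E] [FiniteDimensional ℝ E]

theorem continuous_slice' {F : Type} [NormedAddCommGroup F] [NormedSpace ℝ F]
    {Φ : ℝ × E → F} (hΦ : ContDiff ℝ ∞ Φ) (k : ℕ) :
    Continuous fun p : ℝ × E => iteratedFDeriv ℝ k (fun z => Φ (p.1, z)) p.2 := by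
  have key : ∀ p : ℝ × E, iteratedFDeriv ℝ k (fun z => Φ (p.1, z)) p.2 =
      (iteratedFDeriv ℝ k Φ p).compContinuousLinearMap
        (fun _ => ContinuousLinearMap.inr ℝ ℝ E) := by
    rintro ⟨t, z⟩
    have h1 : (fun z => Φ (t, z)) =
        (fun q => Φ (q + (t, 0))) ∘ (ContinuousLinearMap.inr ℝ ℝ E) := by
      funext z
      simp
    have hs : ContDiff ℝ ∞ (fun q : ℝ × E => Φ (q + (t, 0))) :=
      hΦ.comp (contDiff_id.add contDiff_const)
    simp only []
    rw [h1, ContinuousLinearMap.iteratedFDeriv_comp_right _ hs z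
      (i := k) (by exact_mod_cast le_top)]
    rw [iteratedFDeriv_comp_add_right]
    congr 2
    simp
  simp_rw [key]
  have hc : Continuous (iteratedFDeriv ℝ k Φ) :=
    hΦ.continuous_iteratedFDeriv (by exact_mod_cast le_top)
  exact (ContinuousMultilinearMap.compContinuousLinearMapL (𝕜 := ℝ) (F := F)
    (fun _ : Fin k => ContinuousLinearMap.inr ℝ ℝ E)).continuous.comp hc

theorem FC.of_smooth {F : Type} [NormedAddCommGroup F] [NormedSpace ℝ F] {Φ : ℝ × E → F}
    (hΦ : ContDiff ℝ ∞ Φ) (k : ℕ) : FC k (fun (t : ℝ) (z : E) => Φ (t, z)) := by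
  apply FC.of_jets
  · intro t
    exact hΦ.comp (contDiff_const.prodMk contDiff_id)
  · intro j
    exact continuous_slice' hΦ j

theorem FC.toI {F : Type} [NormedAddCommGroup F] [NormedSpace ℝ F] {f : ℝ → E → F} {k : ℕ}
    (h : FC k f) : FC k (fun (t : I) z => f (t : ℝ) z) :=
  h.param continuous_subtype_val

theorem joined_conj_family {om : E →ₗ[ℝ] E →ₗ[ℝ] ℝ} {F F' : I → E → E} (hF : ∀ k, FC k F)
    (hF' : ∀ k, FC k F') (hFS : ∀ t, IsSympl om (F t)) (hFS' : ∀ t, IsSympl om (F' t))
    (h1 : ∀ t z, F t (F' t z) = z) (ψ a b : G om)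
    (ha : ∀ z, a.1 z = F 0 (ψ.1 (F' 0 z))) (hb : ∀ z, b.1 z = F 1 (ψ.1 (F' 1 z))) :
    Joined a b := by
  obtain ⟨K, hK⟩ := ψ.2.2
  set L : Set E := (fun p : I × E => F p.1 p.2) '' (univ ×ˢ (K : Set E)) with hL
  have hLc : IsCompact L := (isCompact_univ.prod K.isCompact).image (hF 0).cont
  refine joined_of_FC (Γ := fun t z => F t (ψ.1 (F' t z))) ?_ ⟨L, hLc⟩
    (fun t => (hFS t).comp (ψ.2.1.comp (hFS' t))) ?_ a b ha hb
  · intro k
    have h2 : FC k (fun (_ : I) z => ψ.1 z) := by
      have h3 : FC k (fun (t : ℝ) (z : E) => ψ.1 (t, z).2) :=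
        FC.of_smooth (Φ := fun p : ℝ × E => ψ.1 p.2) (ψ.2.1.smooth.comp contDiff_snd) k
      exact h3.toI
    exact (hF k).comp (h2.comp (hF' k))
  · intro t z hz
    have hz' : F' t z ∉ K := by
      intro h
      apply hz
      exact ⟨(t, F' t z), ⟨trivial, h⟩, h1 t z⟩
    show F t (ψ.1 (F' t z)) = z
    rw [hK _ hz', h1]

/-- conjugation by translations -/
theorem joined_translate {om : E →ₗ[ℝ] E →ₗ[ℝ] ℝ} (w : E) (a b : G om)
    (hb : ∀ z, b.1 z = a.1 (z + w) - w) : Joined a b := by
  refine joined_conj_family (F := fun (t : I) z => z + (-((t : ℝ) • w)))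
    (F' := fun (t : I) z => z + (t : ℝ) • w) ?_ ?_ ?_ ?_ ?_ a a b ?_ ?_
  · intro k
    exact (FC.of_smooth (Φ := fun p : ℝ × E => p.2 + (-(p.1 • w)))
      (contDiff_snd.add (contDiff_fst.smul contDiff_const).neg) k).toI
  · intro k
    exact (FC.of_smooth (Φ := fun p : ℝ × E => p.2 + p.1 • w)
      (contDiff_snd.add (contDiff_fst.smul contDiff_const)) k).toI
  · intro t
    exact isSympl_translate om _
  · intro t
    exact isSympl_translate om _
  · intro t z
    show z + (t : ℝ) • w + -((t : ℝ) • w) = z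
    abel
  · intro z
    show a.1 z = a.1 (z + ((0 : I) : ℝ) • w) + -(((0 : I) : ℝ) • w)
    have e : ((0 : I) : ℝ) = 0 := rfl
    rw [e, zero_smul, neg_zero, add_zero, add_zero]
  · intro z
    rw [hb]
    show a.1 (z + w) - w = a.1 (z + ((1 : I) : ℝ) • w) + -(((1 : I) : ℝ) • w)
    have e : ((1 : I) : ℝ) = 1 := rfl
    rw [e, one_smul, sub_eq_add_neg]

theorem isSympl_linear {om : E →ₗ[ℝ] E →ₗ[ℝ] ℝ} (A A' : E →ₗ[ℝ] E)
    (h1 : ∀ z, A (A' z) = z) (h2 : ∀ z, A' (A z) = z) (hA : ∀ x y, om (A x) (A y) = om x y) :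
    IsSympl om (fun z => A z) := by
  refine ⟨A.toContinuousLinearMap.contDiff, ⟨fun z => A' z,
    A'.toContinuousLinearMap.contDiff, h2, h1⟩, ?_⟩
  intro z x y
  have h : HasFDerivAt (fun z => A z) A.toContinuousLinearMap z :=
    A.toContinuousLinearMap.hasFDerivAt
  rw [h.fderiv]
  exact hA x y

theorem joined_linear {om : E →ₗ[ℝ] E →ₗ[ℝ] ℝ} (halt : ∀ x, om x x = 0)
    (hnd : ∀ x, (∀ y, om x y = 0) → x = 0) (A : E →ₗ[ℝ] E)
    (hA : ∀ x y, om (A x) (A y) = om x y) (ψ a : G om)
    (ha : ∀ z, a.1 (A z) = A (ψ.1 z)) : Joined a ψ := by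
  revert ψ a
  refine transvection_induction halt hnd
    (fun A => ∀ ψ a : G om, (∀ z, a.1 (A z) = A (ψ.1 z)) → Joined a ψ) ?_ ?_ A hA
  · intro ψ a ha
    have : a = ψ := by
      apply Subtype.ext
      funext z
      exact ha z
    rw [this]
  · intro v c A hA ih ψ a ha
    obtain ⟨K, hK⟩ := a.2.2
    have hT : ∀ c, IsSympl om (fun z => transv om v c z) := fun c =>
      isSympl_linear _ (transv om v (-c)) (fun z => by
        have := transv_inv halt v (-c) z
        rwa [neg_neg] at this) (transv_inv halt v c) (transv_pres halt v c)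
    have hTi : ∀ c z, transv om v c (transv om v (-c) z) = z := fun c z => by
      have := transv_inv halt v (-c) z
      rwa [neg_neg] at this
    let b : G om := ⟨fun z => transv om v (-c) (a.1 (transv om v c z)),
      (hT (-c)).comp (a.2.1.comp (hT c)),
      ⟨(fun z => transv om v (-c) z) '' (K : Set E),
        K.isCompact.image (hT (-c)).smooth.continuous⟩, by
      intro z hz
      have h1 : transv om v c z ∉ K := by
        intro h
        apply hz
        exact ⟨_, h, transv_inv halt v c z⟩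
      show transv om v (-c) (a.1 (transv om v c z)) = z
      rw [hK _ h1, transv_inv halt]⟩
    have hb : Joined b ψ := by
      apply ih
      intro z
      show transv om v (-c) (a.1 (transv om v c (A z))) = A (ψ.1 z)
      have h1 : a.1 (transv om v c (A z)) = transv om v c (A (ψ.1 z)) := ha z
      rw [h1, transv_inv halt]
    refine Joined.trans ?_ hb
    have hsm : ContDiff ℝ ∞ (fun p : ℝ × E => transv om v (p.1 * c) p.2) := by
      have h1 : (fun p : ℝ × E => transv om v (p.1 * c) p.2) = fun p : ℝ × E =>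
          p.2 + ((p.1 * c) * (om v).toContinuousLinearMap p.2) • v := by
        funext p
        rw [transv_apply]
        rfl
      rw [h1]
      exact contDiff_snd.add (((contDiff_fst.mul contDiff_const).mul
        ((om v).toContinuousLinearMap.contDiff.comp contDiff_snd)).smul contDiff_const)
    have hsm' : ContDiff ℝ ∞ (fun p : ℝ × E => transv om v (-(p.1 * c)) p.2) := by
      have h2 : (fun p : ℝ × E => transv om v (-(p.1 * c)) p.2) =
          (fun p : ℝ × E => transv om v (p.1 * c) p.2) ∘ fun p : ℝ × E => (-p.1, p.2) := by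
        funext p
        simp
      rw [h2]
      exact hsm.comp (contDiff_fst.neg.prodMk contDiff_snd)
    refine joined_conj_family (F := fun (t : I) z => transv om v (-((t : ℝ) * c)) z)
      (F' := fun (t : I) z => transv om v ((t : ℝ) * c) z) ?_ ?_ ?_ ?_ ?_ a a b ?_ ?_
    · intro k
      exact (FC.of_smooth hsm' k).toI
    · intro k
      exact (FC.of_smooth hsm k).toI
    · intro t
      exact hT _
    · intro t
      exact hT _
    · intro t z
      exact transv_inv halt v _ z
    · intro z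
      show a.1 z = transv om v (-(((0 : I) : ℝ) * c)) (a.1 (transv om v (((0 : I) : ℝ) * c) z))
      have e : ((0 : I) : ℝ) = 0 := rfl
      rw [e, zero_mul, neg_zero, transv_apply, transv_apply]
      simp
    · intro z
      show transv om v (-c) (a.1 (transv om v c z)) =
        transv om v (-(((1 : I) : ℝ) * c)) (a.1 (transv om v (((1 : I) : ℝ) * c) z))
      have e : ((1 : I) : ℝ) = 1 := rfl
      rw [e, one_mul]

/-- the blow up family `s⁻¹ f (s z)`, extended by `Df(0)` at `s = 0` -/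
noncomputable def blow (f : E → E) (s : ℝ) (z : E) : E :=
  if s = 0 then fderiv ℝ f 0 z else s⁻¹ • f (s • z)

theorem blow_deriv {f : E → E} (hf : ContDiff ℝ ∞ f) (s : ℝ) (z : E) :
    HasFDerivAt (blow f s) (fderiv ℝ f (s • z)) z := by
  by_cases hs : s = 0
  · have h1 : blow f s = fun z => fderiv ℝ f 0 z := by
      funext z
      rw [blow, if_pos hs]
    rw [h1, hs, zero_smul]
    exact (fderiv ℝ f 0).hasFDerivAt
  · have h1 : blow f s = fun z => s⁻¹ • f (s • z) := by
      funext z
      rw [blow, if_neg hs]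
    rw [h1]
    have h2 : HasFDerivAt (fun z : E => s • z) (s • ContinuousLinearMap.id ℝ E) z :=
      (hasFDerivAt_id z).const_smul s
    have h3 : HasFDerivAt f (fderiv ℝ f (s • z)) (s • z) :=
      (hf.differentiable (by simp) _).hasFDerivAt
    have h4 := (HasFDerivAt.comp z h3 h2).const_smul s⁻¹
    have h5 : s⁻¹ • ((fderiv ℝ f (s • z)).comp (s • ContinuousLinearMap.id ℝ E)) =
        fderiv ℝ f (s • z) := by
      ext x
      simp [smul_smul, hs]
    rw [h5] at h4
    exact h4

theorem blow_continuous {f : E → E} (hf : ContDiff ℝ ∞ f) (h0 : f 0 = 0) :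
    Continuous (fun p : ℝ × E => blow f p.1 p.2) := by
  rw [continuous_iff_continuousAt]
  rintro ⟨s₀, z₀⟩
  by_cases hs : s₀ = 0
  · subst hs
    have hd : HasFDerivAt f (fderiv ℝ f 0) 0 := (hf.differentiable (by simp) 0).hasFDerivAt
    have hlo := hd.isLittleO
    rw [Metric.continuousAt_iff']
    intro ε hε
    set A := fderiv ℝ f 0 with hA
    set η : ℝ := ε / (2 * (‖z₀‖ + 1)) with hη
    have hη0 : 0 < η := by positivity
    have h1 : ∀ᶠ w : E in 𝓝 0, ‖f w - A w‖ ≤ η * ‖w‖ := by
      have := hlo.bound hη0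
      simpa [h0] using this
    have h2 : Tendsto (fun p : ℝ × E => p.1 • p.2) (𝓝 (0, z₀)) (𝓝 0) := by
      have : Continuous (fun p : ℝ × E => p.1 • p.2) := continuous_fst.smul continuous_snd
      have h3 := this.tendsto (0, z₀)
      simpa using h3
    have h3 := h2.eventually h1
    have h4 : ∀ᶠ p : ℝ × E in 𝓝 (0, z₀), ‖p.2‖ < ‖z₀‖ + 1 := by
      have : Continuous (fun p : ℝ × E => ‖p.2‖) := continuous_snd.norm
      have h5 := this.tendsto (0, z₀)
      exact h5.eventually (gt_mem_nhds (by simp))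
    have h5 : ∀ᶠ p : ℝ × E in 𝓝 (0, z₀), ‖A p.2 - A z₀‖ < ε / 2 := by
      have : Continuous (fun p : ℝ × E => ‖A p.2 - A z₀‖) :=
        ((A.continuous.comp continuous_snd).sub continuous_const).norm
      have h6 := this.tendsto (0, z₀)
      exact h6.eventually (gt_mem_nhds (by simpa using half_pos hε))
    filter_upwards [h3, h4, h5] with p hp1 hp2 hp3
    have e0 : blow f 0 z₀ = A z₀ := by rw [blow, if_pos rfl]
    show dist (blow f p.1 p.2) (blow f 0 z₀) < ε
    rw [e0, dist_eq_norm]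
    have h6 : ‖blow f p.1 p.2 - A p.2‖ ≤ ε / 2 := by
      by_cases hp : p.1 = 0
      · rw [blow, if_pos hp, sub_self, norm_zero]
        exact (half_pos hε).le
      · rw [blow, if_neg hp]
        have e1 : p.1⁻¹ • f (p.1 • p.2) - A p.2 = p.1⁻¹ • (f (p.1 • p.2) - A (p.1 • p.2)) := by
          rw [smul_sub, map_smul, smul_smul, inv_mul_cancel₀ hp, one_smul]
        rw [e1, norm_smul, norm_inv]
        rw [norm_smul] at hp1
        have hpp : 0 < ‖p.1‖ := norm_pos_iff.mpr hp
        calc ‖p.1‖⁻¹ * ‖f (p.1 • p.2) - A (p.1 • p.2)‖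
            ≤ ‖p.1‖⁻¹ * (η * (‖p.1‖ * ‖p.2‖)) :=
              mul_le_mul_of_nonneg_left hp1 (inv_nonneg.mpr hpp.le)
          _ = η * ‖p.2‖ := by field_simp
          _ ≤ η * (‖z₀‖ + 1) := mul_le_mul_of_nonneg_left hp2.le hη0.le
          _ = ε / 2 := by rw [hη]; field_simp
    calc ‖blow f p.1 p.2 - A z₀‖ = ‖(blow f p.1 p.2 - A p.2) + (A p.2 - A z₀)‖ := by
          congr 1
          abel
      _ ≤ ‖blow f p.1 p.2 - A p.2‖ + ‖A p.2 - A z₀‖ := norm_add_le _ _
      _ < ε := by linarith
  · have h1 : (fun p : ℝ × E => blow f p.1 p.2) =ᶠ[𝓝 (s₀, z₀)]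
        fun p : ℝ × E => p.1⁻¹ • f (p.1 • p.2) := by
      have h2 : ∀ᶠ p : ℝ × E in 𝓝 (s₀, z₀), p.1 ≠ 0 := by
        have h3 : IsOpen {p : ℝ × E | p.1 ≠ 0} := isOpen_ne_fun continuous_fst continuous_const
        exact h3.mem_nhds hs
      filter_upwards [h2] with p hp
      rw [blow, if_neg hp]
    refine ContinuousAt.congr ?_ h1.symm
    exact (continuousAt_fst.inv₀ hs).smul
      (hf.continuous.continuousAt.comp (continuousAt_fst.smul continuousAt_snd))

theorem blow_FC {f : E → E} (hf : ContDiff ℝ ∞ f) (h0 : f 0 = 0) (k : ℕ) :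
    FC k (fun (s : ℝ) z => blow f s z) := by
  cases k with
  | zero => exact blow_continuous hf h0
  | succ k =>
    refine ⟨blow_continuous hf h0, fun s z => fderiv ℝ f (s • z), blow_deriv hf, ?_⟩
    have h1 : ContDiff ℝ ∞ (fun p : ℝ × E => fderiv ℝ f (p.1 • p.2)) :=
      (hf.fderiv_right (m := ∞) (by simp)).comp (contDiff_fst.smul contDiff_snd)
    exact FC.of_smooth h1 k

theorem blow_smooth {f : E → E} (hf : ContDiff ℝ ∞ f) (s : ℝ) : ContDiff ℝ ∞ (blow f s) := by
  by_cases hs : s = 0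
  · have h1 : blow f s = fun z => fderiv ℝ f 0 z := by
      funext z
      rw [blow, if_pos hs]
    rw [h1]
    exact (fderiv ℝ f 0).contDiff
  · have h1 : blow f s = fun z => s⁻¹ • f (s • z) := by
      funext z
      rw [blow, if_neg hs]
    rw [h1]
    exact (hf.comp (contDiff_id.const_smul s)).const_smul s⁻¹

theorem blow_inv {f g : E → E} (hf : ContDiff ℝ ∞ f) (hg : ContDiff ℝ ∞ g) (h0 : g 0 = 0)
    (hfg : ∀ z, f (g z) = z) (s : ℝ) (z : E) : blow f s (blow g s z) = z := by
  by_cases hs : s = 0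
  · rw [blow, if_pos hs, blow, if_pos hs]
    have h1 : HasFDerivAt (fun z => f (g z)) ((fderiv ℝ f (g 0)).comp (fderiv ℝ g 0)) 0 :=
      HasFDerivAt.comp (0 : E) (hf.differentiable (by simp) _).hasFDerivAt
        (hg.differentiable (by simp) _).hasFDerivAt
    have h2 : (fun z => f (g z)) = fun z => z := funext hfg
    rw [h2] at h1
    have h3 := h1.unique (hasFDerivAt_id 0)
    rw [h0] at h3
    have := congrArg (fun L : E →L[ℝ] E => L z) h3
    simpa using this
  · rw [blow, if_neg hs, blow, if_neg hs, smul_smul, mul_inv_cancel₀ hs, one_smul, hfg,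
      smul_smul, inv_mul_cancel₀ hs, one_smul]

/-- Conjugation by an arbitrary symplectomorphism `f` (no support condition) does not change
the path component. -/
theorem joined_conj {om : E →ₗ[ℝ] E →ₗ[ℝ] ℝ} (halt : ∀ x, om x x = 0)
    (hnd : ∀ x, (∀ y, om x y = 0) → x = 0) {f : E → E} (hf : IsSympl om f) (ψ a : G om)
    (ha : ∀ z, a.1 (f z) = f (ψ.1 z)) : Joined a ψ := by
  obtain ⟨g, hgs, hgf, hfg⟩ := hf.inv
  obtain ⟨Ka, hKa⟩ := a.2.2
  obtain ⟨K, hK⟩ := ψ.2.2
  set w := f 0 with hw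
  -- translate
  set f1 : E → E := fun z => f z + (-w) with hf1
  set g1 : E → E := fun z => g (z + w) with hg1
  have hf1S : IsSympl om f1 := (isSympl_translate om (-w)).comp hf
  have hg1S : IsSympl om g1 := (hf.symm hgs hgf hfg).comp (isSympl_translate om w)
  have hf10 : f1 0 = 0 := by rw [hf1]; simp [hw]
  have hg10 : g1 0 = 0 := by
    show g (0 + w) = 0
    rw [zero_add, hw, hgf]
  have hfg1 : ∀ z, f1 (g1 z) = z := by
    intro z
    show f (g (z + w)) + (-w) = z
    rw [hfg]
    abel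
  have hgf1 : ∀ z, g1 (f1 z) = z := by
    intro z
    show g (f z + (-w) + w) = z
    rw [neg_add_cancel_right, hgf]
  let a1 : G om := ⟨fun z => a.1 (z + w) + (-w),
    (isSympl_translate om (-w)).comp (a.2.1.comp (isSympl_translate om w)),
    ⟨(fun z => z - w) '' (Ka : Set E), Ka.isCompact.image (continuous_id.sub continuous_const)⟩,
    by
      intro z hz
      have h1 : z + w ∉ Ka := fun h => hz ⟨z + w, h, add_sub_cancel_right z w⟩
      show a.1 (z + w) + (-w) = z
      rw [hKa _ h1]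
      abel⟩
  have j1 : Joined a a1 := joined_translate w a a1 (fun z => by
    show a.1 (z + w) + (-w) = a.1 (z + w) - w
    rw [sub_eq_add_neg])
  have ha1 : ∀ z, a1.1 z = f1 (ψ.1 (g1 z)) := by
    intro z
    show a.1 (z + w) + (-w) = f (ψ.1 (g (z + w))) + (-w)
    rw [← ha, hfg]
  -- blow up at the origin
  have hblowS : ∀ s, IsSympl om (blow f1 s) := by
    intro s
    refine ⟨blow_smooth hf1S.smooth s, ⟨blow g1 s, blow_smooth hg1S.smooth s,
      fun z => blow_inv hg1S.smooth hf1S.smooth hf10 hgf1 s z,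
      fun z => blow_inv hf1S.smooth hg1S.smooth hg10 hfg1 s z⟩, ?_⟩
    intro z x y
    rw [(blow_deriv hf1S.smooth s z).fderiv]
    exact hf1S.pres _ x y
  have hblowS' : ∀ s, IsSympl om (blow g1 s) := fun s =>
    (hblowS s).symm (blow_smooth hg1S.smooth s)
      (fun z => blow_inv hg1S.smooth hf1S.smooth hf10 hgf1 s z)
      (fun z => blow_inv hf1S.smooth hg1S.smooth hg10 hfg1 s z)
  let a2 : G om := ⟨fun z => blow f1 0 (ψ.1 (blow g1 0 z)),
    (hblowS 0).comp (ψ.2.1.comp (hblowS' 0)),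
    ⟨blow f1 0 '' (K : Set E), K.isCompact.image (blow_smooth hf1S.smooth 0).continuous⟩, by
      intro z hz
      have h1 : blow g1 0 z ∉ K := fun h =>
        hz ⟨_, h, blow_inv hf1S.smooth hg1S.smooth hg10 hfg1 0 z⟩
      show blow f1 0 (ψ.1 (blow g1 0 z)) = z
      rw [hK _ h1]
      exact blow_inv hf1S.smooth hg1S.smooth hg10 hfg1 0 z⟩
  have j2 : Joined a2 a1 := by
    refine joined_conj_family (F := fun (t : I) z => blow f1 (t : ℝ) z)
      (F' := fun (t : I) z => blow g1 (t : ℝ) z) ?_ ?_ ?_ ?_ ?_ ψ a2 a1 ?_ ?_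
    · intro k
      exact (blow_FC hf1S.smooth hf10 k).toI
    · intro k
      exact (blow_FC hg1S.smooth hg10 k).toI
    · intro t
      exact hblowS _
    · intro t
      exact hblowS' _
    · intro t z
      exact blow_inv hf1S.smooth hg1S.smooth hg10 hfg1 _ z
    · intro z
      rfl
    · intro z
      rw [ha1]
      show f1 (ψ.1 (g1 z)) = blow f1 ((1 : I) : ℝ) (ψ.1 (blow g1 ((1 : I) : ℝ) z))
      have e : ((1 : I) : ℝ) = 1 := rfl
      rw [e]
      have e2 : ∀ (h : E → E) (z : E), blow h 1 z = h z := by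
        intro h z
        rw [blow, if_neg one_ne_zero, inv_one, one_smul, one_smul]
      rw [e2, e2]
  -- the linear case
  have j3 : Joined a2 ψ := by
    refine joined_linear halt hnd ((fderiv ℝ f1 0 : E →L[ℝ] E) : E →ₗ[ℝ] E) ?_ ψ a2 ?_
    · intro x y
      exact hf1S.pres 0 x y
    · intro z
      have e3 : ∀ z, ((fderiv ℝ f1 0 : E →L[ℝ] E) : E →ₗ[ℝ] E) z = blow f1 0 z := by
        intro z
        rw [blow, if_pos rfl]
        rfl
      rw [e3, e3]
      show blow f1 0 (ψ.1 (blow g1 0 (blow f1 0 z))) = blow f1 0 (ψ.1 z)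
      rw [blow_inv hg1S.smooth hf1S.smooth hf10 hgf1 0 z]
  exact j1.trans (j2.symm.trans j3)

end H518SY
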