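import Mathlib
import Pool.Agent.H518R3.SY13

/-! Transport of countability of homotopy groups along a homeomorphism. -/

set_option linter.all false

namespace H518SY

open Function Set TopologicalSpace
open scoped Topology unitInterval

theorem countable_of_homeo {A B : Type} [TopologicalSpace A] [TopologicalSpace B] (h : A ≃ₜ B)
    (N : Type) (b : B) (hc : Countable (HomotopyGroup N A (h.symm b))) :
    Countable (HomotopyGroup N B b) := by
  let m : GenLoop N A (h.symm b) → GenLoop N B b := fun γ =>
    ⟨(⟨h, h.continuous⟩ : C(A, B)).comp γ.1, fun y hy => by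
      show h (γ.1 y) = b
      rw [γ.2 y hy, h.apply_symm_apply]⟩
  have hm : ∀ γ δ : GenLoop N A (h.symm b), GenLoop.Homotopic γ δ →
      GenLoop.Homotopic (m γ) (m δ) := by
    intro γ δ hγ
    obtain ⟨H⟩ := hγ
    refine ⟨⟨⟨⟨fun q => h (H q), h.continuous.comp H.continuous⟩, ?_, ?_⟩, ?_⟩⟩
    · intro x
      show h (H (0, x)) = h (γ.1 x)
      rw [H.apply_zero]
    · intro x
      show h (H (1, x)) = h (δ.1 x)
      rw [H.apply_one]
    · intro t x hx
      show h (H (t, x)) = h (γ.1 x)
      rw [H.eq_fst t hx]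
  refine Function.Surjective.countable (f := fun x : HomotopyGroup N A (h.symm b) =>
    (Quotient.map' (s₁ := GenLoop.Homotopic.setoid N (h.symm b))
      (s₂ := GenLoop.Homotopic.setoid N b) m (fun γ δ hγ => hm γ δ hγ) x :
        HomotopyGroup N B b)) ?_
  intro x
  obtain ⟨δ, rfl⟩ := Quotient.exists_rep x
  refine ⟨Quotient.mk (GenLoop.Homotopic.setoid N (h.symm b))
    ⟨(⟨h.symm, h.symm.continuous⟩ : C(B, A)).comp δ.1, fun y hy => ?_⟩, ?_⟩
  · show h.symm (δ.1 y) = h.symm b
    rw [δ.2 y hy]
  · apply Quotient.sound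
    have : m ⟨(⟨h.symm, h.symm.continuous⟩ : C(B, A)).comp δ.1, fun y hy => by
        show h.symm (δ.1 y) = h.symm b
        rw [δ.2 y hy]⟩ = δ := by
      apply Subtype.ext
      ext y
      exact h.apply_symm_apply (δ.1 y)
    show GenLoop.Homotopic _ δ
    rw [this]

end H518SY
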