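import Mathlib
import Pool.Agent.H518R3.SY14

/-! Homotopies between conjugations, and homotopy commutativity. -/

set_option linter.all false

namespace H518SY

open Function Set Filter TopologicalSpace
open scoped Topology NNReal ContDiff unitInterval

variable {E : Type} [NormedAddCommGroup E] [NormedSpace ℝ E] [FiniteDimensional ℝ E]

/-- a family of maps as a continuous map to `G` -/
noncomputable def ofFC {X : Type} [TopologicalSpace X] {om : E →ₗ[ℝ] E →ₗ[ℝ] ℝ}
    (Γ : X → E → E) (hΓ : ∀ k, FC k Γ) (K : Compacts E) (hG : ∀ x, IsSympl om (Γ x))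
    (hs : ∀ x z, z ∉ K → Γ x z = z) : C(X, G om) :=
  ⟨fun x => ⟨Γ x, hG x, K, hs x⟩, by
    let γ : X → GK om K := fun x => ⟨Γ x, hG x, hs x⟩
    have h1 : Continuous γ := by
      apply continuous_to_GK
      intro k
      apply ContinuousMap.continuous_of_continuous_uncurry
      exact (hΓ k).jets
    exact (continuous_incl om K).comp h1⟩

/-- a continuous map from a compact space as a family -/
theorem FC_of_compact {X : Type} [TopologicalSpace X] [CompactSpace X]
    {om : E →ₗ[ℝ] E →ₗ[ℝ] ℝ} (α : C(X, G om)) :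
    ∃ m : ℕ, (∀ k, FC k (fun x z => (α x).1 z)) ∧
      (∀ x z, (m : ℝ) < ‖z‖ → (α x).1 z = z) := by
  haveI : ProperSpace E := FiniteDimensional.proper ℝ E
  obtain ⟨m, hm⟩ := exists_ball (om := om) (f := fun t => α t) α.continuous
  set B : Compacts E := ⟨Metric.closedBall (0 : E) m, isCompact_closedBall 0 m⟩ with hB
  have hsupp : ∀ t z, z ∉ B → (α t).1 z = z := by
    intro y z hz
    apply hm
    have h1 : z ∉ Metric.closedBall (0 : E) m := hz
    rw [mem_closedBall_zero_iff, not_le] at h1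
    exact h1
  let q : X → GK om B := fun t => ⟨(α t).1, (α t).2.1, hsupp t⟩
  have hq : Continuous q := by
    apply continuous_to_GK
    intro k
    exact (continuous_jetG om k).comp α.continuous
  exact ⟨m, fun k => FC.of_GK hq k, hm⟩

/-- the closed ball as a compact set -/
def ballC (E : Type) [NormedAddCommGroup E] [NormedSpace ℝ E] [FiniteDimensional ℝ E]
    (R : ℝ) : Compacts E :=
  haveI : ProperSpace E := FiniteDimensional.proper ℝ E
  ⟨Metric.closedBall (0 : E) R, isCompact_closedBall 0 R⟩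

theorem not_mem_ballC {R : ℝ} {z : E} (hz : z ∉ ballC E R) : R < ‖z‖ := by
  have h1 : z ∉ Metric.closedBall (0 : E) R := hz
  rwa [mem_closedBall_zero_iff, not_le] at h1

/-- Pointwise products of continuous maps from a compact space are continuous. -/
theorem exists_mul {X : Type} [TopologicalSpace X] [CompactSpace X]
    {om : E →ₗ[ℝ] E →ₗ[ℝ] ℝ} (α β : C(X, G om)) :
    ∃ γ : C(X, G om), ∀ x z, (γ x).1 z = (α x).1 ((β x).1 z) := by
  obtain ⟨m, hα, hαm⟩ := FC_of_compact α
  obtain ⟨m', hβ, hβm⟩ := FC_of_compact β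
  refine ⟨ofFC (fun x z => (α x).1 ((β x).1 z)) (fun k => (hα k).comp (hβ k))
    (ballC E (max m m')) (fun x => (α x).2.1.comp (β x).2.1) ?_, fun x z => rfl⟩
  intro x z hz
  have h := not_mem_ballC hz
  rw [max_lt_iff] at h
  show (α x).1 ((β x).1 z) = z
  rw [hβm x z h.2, hαm x z h.1]

/-- Pointwise products respect homotopies. -/
theorem homotopic_mul {X : Type} [TopologicalSpace X] [CompactSpace X]
    {om : E →ₗ[ℝ] E →ₗ[ℝ] ℝ} {α α' β β' γ γ' : C(X, G om)} (h : α.Homotopic α')
    (h' : β.Homotopic β') (hγ : ∀ x z, (γ x).1 z = (α x).1 ((β x).1 z))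
    (hγ' : ∀ x z, (γ' x).1 z = (α' x).1 ((β' x).1 z)) : γ.Homotopic γ' := by
  obtain ⟨H⟩ := h
  obtain ⟨H'⟩ := h'
  obtain ⟨Q, hQ⟩ := exists_mul (om := om) H.toContinuousMap H'.toContinuousMap
  refine ⟨⟨Q, ?_, ?_⟩⟩
  · intro x
    apply Subtype.ext
    funext z
    show (Q (0, x)).1 z = (γ x).1 z
    rw [hQ, hγ]
    show (H (0, x)).1 ((H' (0, x)).1 z) = _
    rw [H.apply_zero, H'.apply_zero]
  · intro x
    apply Subtype.ext
    funext z
    show (Q (1, x)).1 z = (γ' x).1 z
    rw [hQ, hγ']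
    show (H (1, x)).1 ((H' (1, x)).1 z) = _
    rw [H.apply_one, H'.apply_one]

theorem disjoint_comm {φ ψ : E → E} {R : ℝ} (hφs : ∀ z, R < ‖z‖ → φ z = z)
    (hψs : ∀ z, R < ‖z‖ → ψ z = z) (hφinj : Injective φ) (hψinj : Injective ψ) {u : E}
    (hu : 2 * R < ‖u‖) (z : E) :
    φ (ψ z - u) + u = ψ (φ (z - u) + u) := by
  have hPfar : ∀ z, R < ‖z - u‖ → φ (z - u) + u = z := by
    intro z hz
    rw [hφs _ hz, sub_add_cancel]
  have hball : ∀ z, ‖z‖ ≤ R → R < ‖z - u‖ := by
    intro z hz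
    have := norm_sub_norm_le u z
    rw [norm_sub_rev] at this
    linarith
  have hψball : ∀ z, ‖z‖ ≤ R → ‖ψ z‖ ≤ R := by
    intro z hz
    by_contra h
    push Not at h
    have h1 := hψs _ h
    have h2 := hψinj h1
    rw [h2] at h
    linarith
  have hφball : ∀ z, ‖z‖ ≤ R → ‖φ z‖ ≤ R := by
    intro z hz
    by_contra h
    push Not at h
    have h1 := hφs _ h
    have h2 := hφinj h1
    rw [h2] at h
    linarith
  by_cases hz : ‖z‖ ≤ R
  · rw [hPfar _ (hball _ (hψball z hz)), hPfar _ (hball z hz)]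
  · push Not at hz
    rw [hψs z hz]
    symm
    apply hψs
    by_cases hz2 : ‖z - u‖ ≤ R
    · have h3 := hφball _ hz2
      have h4 := norm_sub_norm_le u (-(φ (z - u)))
      rw [norm_neg, sub_neg_eq_add, add_comm u] at h4
      linarith
    · push Not at hz2
      rw [hPfar z hz2]
      exact hz

/-- Pointwise products commute up to homotopy. -/
theorem homotopic_comm {X : Type} [TopologicalSpace X] [CompactSpace X]
    {om : E →ₗ[ℝ] E →ₗ[ℝ] ℝ} {α β γ γ' : C(X, G om)}
    (hγ : ∀ x z, (γ x).1 z = (α x).1 ((β x).1 z))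
    (hγ' : ∀ x z, (γ' x).1 z = (β x).1 ((α x).1 z)) : γ.Homotopic γ' := by
  haveI : ProperSpace E := FiniteDimensional.proper ℝ E
  rcases subsingleton_or_nontrivial E with hs | hs
  · have : γ = γ' := by
      ext x
      apply Subtype.ext
      funext z
      exact Subsingleton.elim _ _
    rw [this]
  obtain ⟨m, hα, hαm⟩ := FC_of_compact α
  obtain ⟨m', hβ, hβm⟩ := FC_of_compact β
  set R : ℝ := max m m' with hR
  have hαR : ∀ x z, R < ‖z‖ → (α x).1 z = z := fun x z hz =>
    hαm x z ((le_max_left _ _).trans_lt hz)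
  have hβR : ∀ x z, R < ‖z‖ → (β x).1 z = z := fun x z hz =>
    hβm x z ((le_max_right _ _).trans_lt hz)
  obtain ⟨u, hu⟩ := NormedSpace.exists_lt_norm ℝ E (2 * R)
  have hinj : ∀ φ : G om, Injective φ.1 := by
    intro φ
    obtain ⟨η, _, h1, _⟩ := φ.2.1.inv
    exact h1.injective
  -- the moving conjugate
  set P : I × X → E → E := fun p z => (α p.2).1 (z - (p.1 : ℝ) • u) + (p.1 : ℝ) • u with hP
  have hc : Continuous (fun p : I × X => (p.1 : ℝ) • u) :=
    (continuous_subtype_val.comp continuous_fst).smul continuous_const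
  have hPF : ∀ k, FC k P := by
    intro k
    have h1 : FC k (fun (p : I × X) (z : E) => z + (-((p.1 : ℝ) • u))) :=
      FC.id.add (FC.const (c := fun p : I × X => -((p.1 : ℝ) • u)) hc.neg)
    have h2 : FC k (fun (p : I × X) (z : E) => (α p.2).1 z) := (hα k).param continuous_snd
    have h3 := (h2.comp h1).add (FC.const (c := fun p : I × X => (p.1 : ℝ) • u) hc)
    have h4 : P = fun (p : I × X) (z : E) =>
        (α p.2).1 (z + (-((p.1 : ℝ) • u))) + (p.1 : ℝ) • u := by
      funext p z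
      show (α p.2).1 (z - (p.1 : ℝ) • u) + (p.1 : ℝ) • u = _
      rw [sub_eq_add_neg]
    rw [h4]
    exact h3
  have hPS : ∀ p, IsSympl om (P p) := by
    intro p
    have h1 := (isSympl_translate om ((p.1 : ℝ) • u)).comp
      ((α p.2).2.1.comp (isSympl_translate om (-((p.1 : ℝ) • u))))
    have h2 : P p = fun z => (α p.2).1 (z + -((p.1 : ℝ) • u)) + (p.1 : ℝ) • u := by
      funext z
      show (α p.2).1 (z - (p.1 : ℝ) • u) + (p.1 : ℝ) • u = _
      rw [sub_eq_add_neg]
    rw [h2]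
    exact h1
  set M : ℝ := R + ‖u‖ with hM
  have hPsupp : ∀ p z, M < ‖z‖ → P p z = z := by
    intro p z hz
    show (α p.2).1 (z - (p.1 : ℝ) • u) + (p.1 : ℝ) • u = z
    rw [hαR, sub_add_cancel]
    have h1 : ‖(p.1 : ℝ) • u‖ ≤ ‖u‖ := by
      rw [norm_smul, Real.norm_eq_abs, abs_of_nonneg p.1.2.1]
      calc (p.1 : ℝ) * ‖u‖ ≤ 1 * ‖u‖ := mul_le_mul_of_nonneg_right p.1.2.2 (norm_nonneg _)
        _ = ‖u‖ := one_mul _
    have h2 := norm_sub_norm_le z ((p.1 : ℝ) • u)
    linarith
  have hRM : ∀ z : E, M < ‖z‖ → R < ‖z‖ := by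
    intro z hz
    have := norm_nonneg u
    linarith
  have hβp : ∀ k, FC k (fun (p : I × X) (z : E) => (β p.2).1 z) := fun k =>
    (hβ k).param continuous_snd
  -- the two homotopies
  let H1 : C(I × X, G om) := ofFC (fun p z => P p ((β p.2).1 z))
    (fun k => (hPF k).comp (hβp k)) (ballC E M) (fun p => (hPS p).comp (β p.2).2.1) (by
      intro p z hz
      have h := not_mem_ballC hz
      show P p ((β p.2).1 z) = z
      rw [hβR _ z (hRM z h), hPsupp p z h])
  let H2 : C(I × X, G om) := ofFC (fun p z => (β p.2).1 (P p z))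
    (fun k => (hβp k).comp (hPF k)) (ballC E M) (fun p => (β p.2).2.1.comp (hPS p)) (by
      intro p z hz
      have h := not_mem_ballC hz
      show (β p.2).1 (P p z) = z
      rw [hPsupp p z h, hβR _ z (hRM z h)])
  let μ : C(X, G om) := ⟨fun x => H1 (1, x), H1.continuous.comp (by fun_prop)⟩
  have e0 : ((0 : I) : ℝ) = 0 := rfl
  have e1 : ((1 : I) : ℝ) = 1 := rfl
  have j1 : γ.Homotopic μ := by
    refine ⟨⟨H1, ?_, ?_⟩⟩
    · intro x
      apply Subtype.ext
      funext z
      show (α x).1 ((β x).1 z - ((0 : I) : ℝ) • u) + ((0 : I) : ℝ) • u = (γ x).1 z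
      rw [e0, zero_smul, sub_zero, add_zero, hγ]
    · intro x
      rfl
  have j2 : γ'.Homotopic μ := by
    refine ⟨⟨H2, ?_, ?_⟩⟩
    · intro x
      apply Subtype.ext
      funext z
      show (β x).1 ((α x).1 (z - ((0 : I) : ℝ) • u) + ((0 : I) : ℝ) • u) = (γ' x).1 z
      rw [e0, zero_smul, sub_zero, add_zero, hγ']
    · intro x
      apply Subtype.ext
      funext z
      show (β x).1 ((α x).1 (z - ((1 : I) : ℝ) • u) + ((1 : I) : ℝ) • u) =
        (α x).1 ((β x).1 z - ((1 : I) : ℝ) • u) + ((1 : I) : ℝ) • u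
      rw [e1, one_smul]
      exact (disjoint_comm (hαR x) (hβR x) (hinj _) (hinj _) hu z).symm
  exact j1.trans j2.symm

/-! ### conjugations -/

/-- `c` is conjugation by `f` -/
def IsConj {om : E →ₗ[ℝ] E →ₗ[ℝ] ℝ} (f : E → E) (c : C(G om, G om)) : Prop :=
  ∀ ψ z, (c ψ).1 (f z) = f (ψ.1 z)

theorem exists_conj_homotopy {om : E →ₗ[ℝ] E →ₗ[ℝ] ℝ} {F F' : I → E → E} (hF : ∀ k, FC k F)
    (hF' : ∀ k, FC k F') (hFS : ∀ t, IsSympl om (F t)) (hFS' : ∀ t, IsSympl om (F' t))
    (h1 : ∀ t z, F t (F' t z) = z) :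
    ∃ H : C(I × G om, G om), ∀ t ψ z, (H (t, ψ)).1 z = F t (ψ.1 (F' t z)) := by
  have hcpt : ∀ K : Compacts E, IsCompact
      ((fun p : I × E => F p.1 p.2) '' (univ ×ˢ (K : Set E))) := fun K =>
    (isCompact_univ.prod K.isCompact).image (hF 0).cont
  have hsupp : ∀ (K : Compacts E) (ψ : E → E), (∀ z, z ∉ K → ψ z = z) → ∀ t z,
      z ∉ (⟨_, hcpt K⟩ : Compacts E) → F t (ψ (F' t z)) = z := by
    intro K ψ hψ t z hz
    have hz' : F' t z ∉ K := by
      intro h
      apply hz
      exact ⟨(t, F' t z), ⟨trivial, h⟩, h1 t z⟩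
    rw [hψ _ hz', h1]
  -- the restriction to a compact support
  let Q : ∀ K : Compacts E, C(GK om K × I, G om) := fun K =>
    ofFC (fun p z => F p.2 (p.1.1 (F' p.2 z)))
      (fun k => by
        have a1 : FC k (fun (p : GK om K × I) (z : E) => F p.2 z) := (hF k).param continuous_snd
        have a2 : FC k (fun (p : GK om K × I) (z : E) => F' p.2 z) :=
          (hF' k).param continuous_snd
        have a3 : FC k (fun (p : GK om K × I) (z : E) => p.1.1 z) :=
          FC.of_GK (α := fun p : GK om K × I => p.1) continuous_fst k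
        exact a1.comp (a3.comp a2))
      ⟨_, hcpt K⟩ (fun p => (hFS p.2).comp (p.1.2.1.comp (hFS' p.2)))
      (fun p z hz => hsupp K p.1.1 p.1.2.2 p.2 z hz)
  let T : G om → C(I, G om) := fun ψ =>
    ⟨fun t => ⟨fun z => F t (ψ.1 (F' t z)), (hFS t).comp (ψ.2.1.comp (hFS' t)), by
      obtain ⟨K, hK⟩ := ψ.2.2
      exact ⟨⟨_, hcpt K⟩, hsupp K ψ.1 hK t⟩⟩, by
      obtain ⟨K, hK⟩ := ψ.2.2
      have : Continuous (fun t : I => Q K (⟨ψ.1, ψ.2.1, hK⟩, t)) :=
        (Q K).continuous.comp (by fun_prop)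
      exact this⟩
  have hT : Continuous T := by
    refine continuous_iSup_dom.mpr fun K => continuous_coinduced_dom.mpr ?_
    have h2 : T ∘ incl om K = fun φ => (Q K).curry φ := by
      funext φ
      ext t
      rfl
    rw [h2]
    exact (Q K).curry.continuous
  refine ⟨⟨fun p => T p.2 p.1, (hT.comp continuous_snd).eval continuous_fst⟩, ?_⟩
  intro t ψ z
  rfl

/-- existence of the conjugation map -/
theorem exists_conj {om : E →ₗ[ℝ] E →ₗ[ℝ] ℝ} {f : E → E} (hf : IsSympl om f) :
    ∃ c : C(G om, G om), IsConj f c := by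
  obtain ⟨g, hgs, hgf, hfg⟩ := hf.inv
  have hFC : ∀ {h : E → E}, ContDiff ℝ ∞ h → ∀ k, FC k (fun (_ : I) z => h z) := by
    intro h hh k
    exact (FC.of_smooth (Φ := fun p : ℝ × E => h p.2) (hh.comp contDiff_snd) k).toI
  obtain ⟨H, hH⟩ := exists_conj_homotopy (om := om) (F := fun _ => f) (F' := fun _ => g)
    (hFC hf.smooth) (hFC hgs) (fun _ => hf) (fun _ => hf.symm hgs hgf hfg) (fun _ z => hfg z)
  refine ⟨⟨fun ψ => H (0, ψ), H.continuous.comp (by fun_prop)⟩, ?_⟩
  intro ψ z
  show (H (0, ψ)).1 (f z) = f (ψ.1 z)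
  rw [hH, hgf]

theorem IsConj.unique {om : E →ₗ[ℝ] E →ₗ[ℝ] ℝ} {f : E → E} (hf : Surjective f)
    {c c' : C(G om, G om)} (h : IsConj f c) (h' : IsConj f c') : c = c' := by
  ext ψ
  apply Subtype.ext
  funext z
  obtain ⟨w, rfl⟩ := hf z
  rw [h ψ w, h' ψ w]

/-- two ends of a family of conjugations are homotopic -/
theorem conj_homotopic {om : E →ₗ[ℝ] E →ₗ[ℝ] ℝ} {F F' : I → E → E} (hF : ∀ k, FC k F)
    (hF' : ∀ k, FC k F') (hFS : ∀ t, IsSympl om (F t)) (hFS' : ∀ t, IsSympl om (F' t))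
    (h1 : ∀ t z, F t (F' t z) = z) (h2 : ∀ t z, F' t (F t z) = z) {c c' : C(G om, G om)}
    (hc : IsConj (F 0) c) (hc' : IsConj (F 1) c') : c.Homotopic c' := by
  obtain ⟨H, hH⟩ := exists_conj_homotopy hF hF' hFS hFS' h1
  have e : ∀ (t : I) (c : C(G om, G om)), IsConj (F t) c → ∀ ψ, H (t, ψ) = c ψ := by
    intro t c hc ψ
    apply Subtype.ext
    funext z
    rw [hH, ← hc ψ, h1]
  exact ⟨⟨H, fun ψ => e 0 c hc ψ, fun ψ => e 1 c' hc' ψ⟩⟩

theorem IsConj.congr {om : E →ₗ[ℝ] E →ₗ[ℝ] ℝ} {f f' : E → E} {c : C(G om, G om)}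
    (h : IsConj f c) (he : ∀ z, f z = f' z) : IsConj f' c := by
  have : f = f' := funext he
  rwa [← this]

theorem IsConj.comp {om : E →ₗ[ℝ] E →ₗ[ℝ] ℝ} {f g : E → E} {c c' : C(G om, G om)}
    (h : IsConj f c) (h' : IsConj g c') : IsConj (fun z => f (g z)) (c.comp c') := by
  intro ψ z
  show (c (c' ψ)).1 (f (g z)) = f (g (ψ.1 z))
  rw [h (c' ψ), h' ψ]

theorem conj_id {om : E →ₗ[ℝ] E →ₗ[ℝ] ℝ} : IsConj (fun z => z) (ContinuousMap.id (G om)) :=
  fun ψ z => rfl

theorem conj_translate {om : E →ₗ[ℝ] E →ₗ[ℝ] ℝ} (w : E) {c : C(G om, G om)}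
    (hc : IsConj (fun z => z + w) c) : c.Homotopic (ContinuousMap.id _) := by
  have hsm : ContDiff ℝ ∞ (fun p : ℝ × E => p.2 + p.1 • w) :=
    contDiff_snd.add (contDiff_fst.smul contDiff_const)
  have hsm' : ContDiff ℝ ∞ (fun p : ℝ × E => p.2 + (-(p.1 • w))) :=
    contDiff_snd.add (contDiff_fst.smul contDiff_const).neg
  have e0 : ((0 : I) : ℝ) = 0 := rfl
  have e1 : ((1 : I) : ℝ) = 1 := rfl
  refine (conj_homotopic (om := om) (F := fun (t : I) z => z + (t : ℝ) • w)
    (F' := fun (t : I) z => z + (-((t : ℝ) • w))) (fun k => (FC.of_smooth hsm k).toI)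
    (fun k => (FC.of_smooth hsm' k).toI) (fun t => isSympl_translate om _)
    (fun t => isSympl_translate om _) ?_ ?_ ?_ ?_).symm
  · intro t z
    show z + -((t : ℝ) • w) + (t : ℝ) • w = z
    abel
  · intro t z
    show z + (t : ℝ) • w + -((t : ℝ) • w) = z
    abel
  · have : (fun (z : E) => z + ((0 : I) : ℝ) • w) = fun z => z := by
      funext z
      rw [e0, zero_smul, add_zero]
    show IsConj (fun (z : E) => z + ((0 : I) : ℝ) • w) _
    rw [this]
    exact conj_id
  · have : (fun (z : E) => z + ((1 : I) : ℝ) • w) = fun z => z + w := by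
      funext z
      rw [e1, one_smul]
    show IsConj (fun (z : E) => z + ((1 : I) : ℝ) • w) _
    rw [this]
    exact hc

theorem isSympl_transv {om : E →ₗ[ℝ] E →ₗ[ℝ] ℝ} (halt : ∀ x, om x x = 0) (v : E) (c : ℝ) :
    IsSympl om (fun z => transv om v c z) :=
  isSympl_linear _ (transv om v (-c)) (fun z => by
    have := transv_inv halt v (-c) z
    rwa [neg_neg] at this) (transv_inv halt v c) (transv_pres halt v c)

theorem conj_transv {om : E →ₗ[ℝ] E →ₗ[ℝ] ℝ} (halt : ∀ x, om x x = 0) (v : E) (a : ℝ)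
    {c : C(G om, G om)} (hc : IsConj (fun z => transv om v a z) c) :
    c.Homotopic (ContinuousMap.id _) := by
  have hsm : ContDiff ℝ ∞ (fun p : ℝ × E => transv om v (p.1 * a) p.2) := by
    have h1 : (fun p : ℝ × E => transv om v (p.1 * a) p.2) = fun p : ℝ × E =>
        p.2 + ((p.1 * a) * (om v).toContinuousLinearMap p.2) • v := by
      funext p
      rw [transv_apply]
      rfl
    rw [h1]
    exact contDiff_snd.add (((contDiff_fst.mul contDiff_const).mul
      ((om v).toContinuousLinearMap.contDiff.comp contDiff_snd)).smul contDiff_const)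
  have hsm' : ContDiff ℝ ∞ (fun p : ℝ × E => transv om v (-(p.1 * a)) p.2) := by
    have h2 : (fun p : ℝ × E => transv om v (-(p.1 * a)) p.2) =
        (fun p : ℝ × E => transv om v (p.1 * a) p.2) ∘ fun p : ℝ × E => (-p.1, p.2) := by
      funext p
      simp
    rw [h2]
    exact hsm.comp (contDiff_fst.neg.prodMk contDiff_snd)
  have e0 : ((0 : I) : ℝ) = 0 := rfl
  have e1 : ((1 : I) : ℝ) = 1 := rfl
  refine (conj_homotopic (om := om) (F := fun (t : I) z => transv om v ((t : ℝ) * a) z)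
    (F' := fun (t : I) z => transv om v (-((t : ℝ) * a)) z) (fun k => (FC.of_smooth hsm k).toI)
    (fun k => (FC.of_smooth hsm' k).toI) (fun t => isSympl_transv halt v _)
    (fun t => isSympl_transv halt v _) ?_ ?_ ?_ ?_).symm
  · intro t z
    have := transv_inv halt v (-((t : ℝ) * a)) z
    rwa [neg_neg] at this
  · intro t z
    exact transv_inv halt v _ z
  · have : (fun (z : E) => transv om v (((0 : I) : ℝ) * a) z) = fun z => z := by
      funext z
      rw [e0, zero_mul, transv_apply]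
      simp
    show IsConj (fun (z : E) => transv om v (((0 : I) : ℝ) * a) z) _
    rw [this]
    exact conj_id
  · have : (fun (z : E) => transv om v (((1 : I) : ℝ) * a) z) = fun z => transv om v a z := by
      funext z
      rw [e1, one_mul]
    show IsConj (fun (z : E) => transv om v (((1 : I) : ℝ) * a) z) _
    rw [this]
    exact hc

theorem conj_linear {om : E →ₗ[ℝ] E →ₗ[ℝ] ℝ} (halt : ∀ x, om x x = 0)
    (hnd : ∀ x, (∀ y, om x y = 0) → x = 0) (A : E →ₗ[ℝ] E)
    (hA : ∀ x y, om (A x) (A y) = om x y) (c : C(G om, G om)) (hc : IsConj (fun z => A z) c) :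
    c.Homotopic (ContinuousMap.id _) := by
  revert c
  refine transvection_induction halt hnd
    (fun A => ∀ c : C(G om, G om), IsConj (fun z => A z) c → c.Homotopic (ContinuousMap.id _))
    ?_ ?_ A hA
  · intro c hc
    rw [hc.unique (fun z => ⟨z, rfl⟩) conj_id]
  · intro v a A hA ih c hc
    obtain ⟨d, hd⟩ := exists_conj (isSympl_transv (om := om) halt v (-a))
    obtain ⟨d', hd'⟩ := exists_conj (isSympl_transv (om := om) halt v a)
    -- `d ∘ c` is conjugation by `A`
    have h1 : IsConj (fun z => A z) (d.comp c) :=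
      (hd.comp hc).congr (fun z => transv_inv halt v a (A z))
    have h2 := ih _ h1
    -- `d' ∘ d` is the identity
    have h3 : d'.comp d = ContinuousMap.id _ := by
      refine IsConj.unique (f := fun z => z) (fun z => ⟨z, rfl⟩) ?_ conj_id
      exact (hd'.comp hd).congr (fun z => by
        have := transv_inv halt v (-a) z
        rwa [neg_neg] at this)
    have h4 : c = d'.comp (d.comp c) := by
      rw [← ContinuousMap.comp_assoc, h3, ContinuousMap.id_comp]
    rw [h4]
    have h5 : d'.Homotopic (ContinuousMap.id _) := conj_transv halt v a hd'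
    have h6 := ContinuousMap.Homotopic.comp h5 h2
    rwa [ContinuousMap.id_comp] at h6

/-- Conjugation by an arbitrary symplectomorphism is homotopic to the identity of `G`. -/
theorem conj_general {om : E →ₗ[ℝ] E →ₗ[ℝ] ℝ} (halt : ∀ x, om x x = 0)
    (hnd : ∀ x, (∀ y, om x y = 0) → x = 0) {f : E → E} (hf : IsSympl om f)
    {c : C(G om, G om)} (hc : IsConj f c) : c.Homotopic (ContinuousMap.id _) := by
  obtain ⟨g, hgs, hgf, hfg⟩ := hf.inv
  set w := f 0 with hw
  set f1 : E → E := fun z => f z + (-w) with hf1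
  set g1 : E → E := fun z => g (z + w) with hg1
  have hf1S : IsSympl om f1 := (isSympl_translate om (-w)).comp hf
  have hg1S : IsSympl om g1 := (hf.symm hgs hgf hfg).comp (isSympl_translate om w)
  have hf10 : f1 0 = 0 := by rw [hf1]; simp [hw]
  have hg10 : g1 0 = 0 := by
    show g (0 + w) = 0
    rw [zero_add, hw, hgf]
  have hfg1 : ∀ z, f1 (g1 z) = z := by
    intro z
    show f (g (z + w)) + (-w) = z
    rw [hfg]
    abel
  have hgf1 : ∀ z, g1 (f1 z) = z := by
    intro z
    show g (f z + (-w) + w) = z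
    rw [neg_add_cancel_right, hgf]
  have hblowS : ∀ s, IsSympl om (blow f1 s) := by
    intro s
    refine ⟨blow_smooth hf1S.smooth s, ⟨blow g1 s, blow_smooth hg1S.smooth s,
      fun z => blow_inv hg1S.smooth hf1S.smooth hf10 hgf1 s z,
      fun z => blow_inv hf1S.smooth hg1S.smooth hg10 hfg1 s z⟩, ?_⟩
    intro z x y
    rw [(blow_deriv hf1S.smooth s z).fderiv]
    exact hf1S.pres _ x y
  have hblowS' : ∀ s, IsSympl om (blow g1 s) := fun s =>
    (hblowS s).symm (blow_smooth hg1S.smooth s)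
      (fun z => blow_inv hg1S.smooth hf1S.smooth hf10 hgf1 s z)
      (fun z => blow_inv hf1S.smooth hg1S.smooth hg10 hfg1 s z)
  obtain ⟨c1, hc1⟩ := exists_conj hf1S
  obtain ⟨c2, hc2⟩ := exists_conj (hblowS 0)
  obtain ⟨d, hd⟩ := exists_conj (isSympl_translate om w)
  have e0 : ((0 : I) : ℝ) = 0 := rfl
  have e1 : ((1 : I) : ℝ) = 1 := rfl
  have eb : blow f1 1 = f1 := by
    funext z
    rw [blow, if_neg one_ne_zero, inv_one, one_smul, one_smul]
  have j1 : c2.Homotopic c1 := by
    refine conj_homotopic (F := fun (t : I) z => blow f1 (t : ℝ) z)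
      (F' := fun (t : I) z => blow g1 (t : ℝ) z) (fun k => (blow_FC hf1S.smooth hf10 k).toI)
      (fun k => (blow_FC hg1S.smooth hg10 k).toI) (fun t => hblowS _) (fun t => hblowS' _)
      (fun t z => blow_inv hf1S.smooth hg1S.smooth hg10 hfg1 _ z)
      (fun t z => blow_inv hg1S.smooth hf1S.smooth hf10 hgf1 _ z) ?_ ?_
    · exact hc2
    · show IsConj (fun z => blow f1 ((1 : I) : ℝ) z) c1
      rw [e1, eb]
      exact hc1
  have j2 : c2.Homotopic (ContinuousMap.id _) := by
    refine conj_linear halt hnd ((fderiv ℝ f1 0 : E →L[ℝ] E) : E →ₗ[ℝ] E)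
      (fun x y => hf1S.pres 0 x y) c2 ?_
    refine hc2.congr (fun z => ?_)
    rw [blow, if_pos rfl]
    rfl
  have j3 : c = d.comp c1 := by
    refine IsConj.unique (f := f) hfg.surjective hc ?_
    exact (hd.comp hc1).congr (fun z => by
      show f z + (-w) + w = f z
      rw [neg_add_cancel_right])
  have j4 : d.Homotopic (ContinuousMap.id _) := conj_translate w hd
  have j5 : c1.Homotopic (ContinuousMap.id _) := j1.symm.trans j2
  rw [j3]
  have h6 := ContinuousMap.Homotopic.comp j4 j5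
  rwa [ContinuousMap.id_comp] at h6

end H518SY
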