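import Mathlib
import Pool.Agent.H518R3.SY15

/-! Pointwise inverses. -/

set_option linter.all false

namespace H518SY

open Function Set Filter TopologicalSpace
open scoped Topology NNReal ContDiff unitInterval

variable {E : Type} [NormedAddCommGroup E] [NormedSpace ℝ E] [FiniteDimensional ℝ E]

/-- Pointwise inverses of continuous maps from a compact space are continuous. -/
theorem exists_inv {X : Type} [TopologicalSpace X] [CompactSpace X]
    {om : E →ₗ[ℝ] E →ₗ[ℝ] ℝ} (hnd : ∀ x, (∀ y, om x y = 0) → x = 0) (α : C(X, G om)) :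
    ∃ γ : C(X, G om), ∀ x, (∀ z, (γ x).1 ((α x).1 z) = z) ∧ ∀ z, (α x).1 ((γ x).1 z) = z := by
  obtain ⟨m, hα, hαm⟩ := FC_of_compact α
  choose A hA1 hA2 hA3 using fun x => (α x).2.1.inv
  have hAS : ∀ x, IsSympl om (A x) := fun x => (α x).2.1.symm (hA1 x) (hA2 x) (hA3 x)
  have hid : ∀ x z, z ∉ ballC E (m : ℝ) → (α x).1 z = z := fun x z hz =>
    hαm x z (not_mem_ballC hz)
  have hAK : ∀ x z, z ∉ ballC E (m : ℝ) → A x z = z := by
    intro x z hz
    have := hA2 x z
    rwa [hid x z hz] at this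
  have hAc : Continuous (fun p : X × E => A p.1 p.2) :=
    continuous_inverse (f := fun x z => (α x).1 z) (ballC E (m : ℝ)).isCompact (hα 0).cont
      (fun x y => hA3 x y) (fun x z => hA2 x z) (fun x z hz => hid x z hz)
  have hAF : ∀ k, FC k A := fun k =>
    FC.inv (f := fun x z => (α x).1 z) (fun x y => hA3 x y) hAc
      (fun x z y h => (α x).2.1.inj hnd z y h) (hα k)
  exact ⟨ofFC A hAF (ballC E (m : ℝ)) hAS hAK, fun x => ⟨fun z => hA2 x z, fun z => hA3 x z⟩⟩

end H518SY
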